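import Pool.Agent.Lib.MP_1a91b9_ntT.PT.Cnt
import Pool.Agent.Lib.MP_1a91b9_ntT.TG.Inter

/-!
# Theorem G, Part 9: `ψ - 1` is prime to `ℓ` when the number of points of the reduction is
-/

set_option autoImplicit false

namespace Pool.Agent.Lib.MP_1a91b9_ntT.TG

open NumberField IsDedekindDomain Module Polynomial WeierstrassCurve
open Pool.Agent.Lib.MP_1a91b9_ntT.S5 (below mem_below)
open Pool.Agent.Lib.MP_1a91b9_ntT.S4
open Pool.Agent.Lib.MP_1a91b9_nt

universe u

variable {F : Type} [Field F] [NumberField F] [Algebra K F]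

theorem psi_prod (q : HeightOneSpectrum (𝓞 F)) (h3 : (3 : 𝓞 F) ∉ q.asIdeal) :
    (1 - psiC F q.asIdeal) * (1 - psibC F q.asIdeal) =
      ((Nat.card (fermatCubic (IsLocalRing.ResidueField
        (q.adicCompletionIntegers F))).toAffine.Point : ℕ) : ℂ) := by
  have hmodel : locPoly ((E F).baseChange F) q = _ :=
      locPoly_of_model (F := F) (K := F) (E F) 1 (fermatCubic (𝓞 F)) (by
        rw [one_smul, fermatCubic_map]
        rfl) q (by
        rw [fermatCubic_delta]
        intro hmem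
        apply h3
        change algebraMap (𝓞 F) (𝓞 F) (-27) ∈ q.asIdeal at hmem
        rw [map_neg, map_ofNat] at hmem
        have e : (-27 : 𝓞 F) = -(3 ^ 3) := by norm_num
        rw [e] at hmem
        exact q.isPrime.mem_of_pow_mem 3 (by simpa using q.asIdeal.neg_mem hmem))
  have hbc : (E F).baseChange F = E F := WeierstrassCurve.map_id _
  rw [hbc, fermatCubic_map] at hmodel
  have h1 := (psi_place q h3).2 1
  rw [mul_one, mul_one, hmodel] at h1
  rw [← h1]
  simp only [map_add, map_sub, map_one, map_mul, aeval_X, map_pow, map_natCast]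
  ring

theorem cop_of_res {ℓ : ℕ} (q : HeightOneSpectrum (𝓞 F)) (h3 : (3 : 𝓞 F) ∉ q.asIdeal)
    (hc : (Nat.card (fermatCubic (IsLocalRing.ResidueField
        (q.adicCompletionIntegers F))).toAffine.Point).Coprime ℓ) :
    IsCoprime (psi F q.asIdeal - 1) (ℓ : 𝓞 K) := by
  have h := psi_prod q h3
  rw [psibC, psiC] at h
  refine Ell.kq_odd' _ _ hc (cO (psi F q.asIdeal) - 1) ?_
  have hinj : Function.Injective (fun x : 𝓞 K => embK (x : K)) := fun x y hxy =>
    RingOfIntegers.ext (embK.toRingHom.injective hxy)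
  apply hinj
  change embK (algebraMap (𝓞 K) K _) = embK (algebraMap (𝓞 K) K _)
  rw [map_mul, map_sub, map_sub, map_one, map_natCast, map_mul, map_sub, map_sub, map_one,
    map_natCast]
  have h2 : embK (algebraMap (𝓞 K) K (cO (psi F q.asIdeal))) =
      (starRingEnd ℂ) (embK (psi F q.asIdeal : K)) := embK_tau _
  rw [h2, ← h]
  ring

/-- the residue field of a place -/
theorem exists_res_equiv (q : HeightOneSpectrum (𝓞 F)) :
    Nonempty ((𝓞 F ⧸ q.asIdeal) ≃+* IsLocalRing.ResidueField (q.adicCompletionIntegers F)) := by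
  have e := RingHom.quotientKerEquivOfSurjective (residue_surjective q)
  exact ⟨(Ideal.quotEquivOfEq (residue_ker q).symm).trans e⟩

/-- `ψ - 1` is prime to `ℓ` when the number of points over the residue field is. -/
theorem cop_of_card {ℓ : ℕ} (hℓ : ℓ.Prime) (q : HeightOneSpectrum (𝓞 F))
    (h3 : (3 : 𝓞 F) ∉ q.asIdeal)
    (hc : ¬ ℓ ∣ Nat.card (⟨0, 0, 1, 0, 0⟩ : WeierstrassCurve (𝓞 F ⧸ q.asIdeal)).toAffine.Point) :
    IsCoprime (psi F q.asIdeal - 1) (ℓ : 𝓞 K) := by
  obtain ⟨e⟩ := exists_res_equiv q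
  have hm : q.asIdeal.IsMaximal := q.isMaximal
  letI : Field (𝓞 F ⧸ q.asIdeal) := Ideal.Quotient.field _
  have i2 : Finite (𝓞 F ⧸ q.asIdeal) := Ideal.finiteQuotientOfFreeOfNeBot _ q.ne_bot
  have i3 : Finite (IsLocalRing.ResidueField (q.adicCompletionIntegers F)) := finite_residue q
  have hcop : (Nat.card (fermatCubic (𝓞 F ⧸ q.asIdeal)).toAffine.Point).Coprime ℓ :=
    Nat.Coprime.symm ((Nat.Prime.coprime_iff_not_dvd hℓ).2 hc)
  apply cop_of_res q h3
  rw [← PT.card_equiv e]
  exact hcop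

end Pool.Agent.Lib.MP_1a91b9_ntT.TG
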