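import Pool.Agent.Lib.MP_1a91b9_ntT.Rg.Three
import Pool.Agent.Lib.MP_1a91b9_ntT.DW.Main
import Pool.Agent.Lib.MP_1a91b9_ntG.Family

/-!
# Theorem G, 7.5: the normalised value is a unit above almost all primes
-/

set_option autoImplicit false

namespace Pool.Agent.Lib.MP_1a91b9_ntT.TG

open NumberField IsDedekindDomain
open Pool.Agent.Lib.MP_1a91b9_nt
open Pool.Agent.Lib.MP_1a91b9_ntG
open Pool.Agent.Lib.MP_1a91b9_ntT.S4 (Lf psiC psibC entire_eq val_integral)
open Pool.Agent.Lib.MP_1a91b9_ntT.Rq (dt dt_ne dt_sq)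
open Pool.Agent.Lib.MP_1a91b9_ntT.Rg (lval_three psbC_three)

universe u

private theorem ual_den (y : K) : ∃ D : ℕ, D ≠ 0 ∧ IsIntegral ℤ ((D : K) * y) := by
  have h1 : IsAlgebraic ℤ y := by
    have h2 : IsAlgebraic ℚ y := Algebra.IsAlgebraic.isAlgebraic (R := ℚ) y
    exact (IsFractionRing.isAlgebraic_iff ℤ ℚ K).2 h2
  obtain ⟨d, hd, h⟩ := h1.exists_integral_multiple
  refine ⟨d.natAbs, Int.natAbs_ne_zero.2 hd, ?_⟩
  rcases Int.natAbs_eq d with h3 | h3
  · rw [h3, zsmul_eq_mul, Int.cast_natCast] at h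
    exact h
  · rw [h3, zsmul_eq_mul, Int.cast_neg, neg_mul, Int.cast_natCast] at h
    have h4 := h.neg
    rwa [neg_neg] at h4

/-- The square of the normalised value is a nonzero element of `K`. -/
theorem sq_value (F : Type u) [Field F] [NumberField F] [Algebra K F] (h : DW.LGood F) :
    ∃ (L : ℂ → ℂ) (y : K), Differentiable ℂ L ∧ (∀ s : ℂ, 2 < s.re → L s = Lf (psibC F) s) ∧
      y ≠ 0 ∧ (L 1 / Om ^ (Module.finrank K F)) ^ 2 = embK y := by
  obtain ⟨g, hg, hg2, hg1⟩ := h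
  have hex := nf_exists (F := F)
  obtain ⟨m, hm⟩ : ∃ m, Module.finrank K F = m + 1 :=
    Nat.exists_eq_succ_of_ne_zero Module.finrank_pos.ne'
  have hex' := hex
  rw [hm] at hex'
  obtain ⟨σ, hσ⟩ := hex'
  set bb : Module.Basis (Fin (m + 1)) K F := Module.finBasisOfFinrankEq K F hm
  obtain ⟨L, κ, hL, hL1, hLv⟩ := lval_three σ hσ bb
  have e1 : g = L := entire_eq hg hL fun s hs => by rw [hg2 s hs, hL1 s hs]
  rw [e1, hLv] at hg1
  have hO : Om ^ (m + 1) ≠ 0 := left_ne_zero_of_mul (left_ne_zero_of_mul hg1)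
  have hκ : κ ≠ 0 := by
    rintro rfl
    apply hg1
    rw [map_zero, mul_zero]
  refine ⟨L, Algebra.discr K bb * κ ^ 2, hL, hL1,
    mul_ne_zero (Algebra.discr_not_zero_of_basis K bb) (pow_ne_zero _ hκ), ?_⟩
  rw [hm, hLv, map_mul, map_pow, ← dt_sq σ hσ bb]
  field_simp

/-- `7.5`: the unit property for almost all `ℓ`. -/
theorem unit_almost (F : Type u) [Field F] [NumberField F] [Algebra K F] (h : DW.LGood F) :
    ∃ D : ℕ, D ≠ 0 ∧ ∀ ℓ : ℕ, ℓ.Prime → ¬ ℓ ∣ D → MP_1a91b9_ntG.UnitProp 3 ℓ Om F := by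
  obtain ⟨L, y, hL, hL1, hy, hv⟩ := sq_value F h
  obtain ⟨D1, hD1, h1⟩ := ual_den y
  obtain ⟨D2, hD2, h2⟩ := ual_den y⁻¹
  refine ⟨D1 * D2, mul_ne_zero hD1 hD2, fun ℓ hℓ hd => ⟨L, hL, fun s hs => ?_, fun W hW => ?_⟩⟩
  · rw [hL1 s hs, psbC_three]
  · have hc1 : D1.Coprime ℓ :=
      Nat.Coprime.symm ((Nat.Prime.coprime_iff_not_dvd hℓ).2 fun h3 => hd (h3.mul_right _))
    have hc2 : D2.Coprime ℓ :=
      Nat.Coprime.symm ((Nat.Prime.coprime_iff_not_dvd hℓ).2 fun h3 => hd (h3.mul_left _))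
    have h3 : W.valuation (embK y) ≤ 1 := by
      have h4 := val_integral W (h1.map embK)
      rw [map_mul, map_mul, map_natCast, val_coprime W hW D1 hc1, one_mul] at h4
      exact h4
    have h3' : W.valuation (embK y)⁻¹ ≤ 1 := by
      have h4 := val_integral W (h2.map embK)
      rw [map_mul, map_mul, map_natCast, val_coprime W hW D2 hc2, one_mul, map_inv₀] at h4
      exact h4
    have h5 : W.valuation (embK y) = 1 := by
      refine le_antisymm h3 ?_
      have h6 : W.valuation (embK y) ≠ 0 := by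
        rw [Ne, Valuation.zero_iff, map_eq_zero]
        exact hy
      rw [map_inv₀] at h3'
      exact (inv_le_one₀ (zero_lt_iff.2 h6)).1 h3'
    rw [← hv, map_pow] at h5
    exact (pow_eq_one_iff_of_nonneg zero_le' two_ne_zero).1 h5

end Pool.Agent.Lib.MP_1a91b9_ntT.TG
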