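import Pool.Agent.Lib.MP_1a91b9_ntT.TG.Cpy
import Pool.Agent.Lib.MP_1a91b9_ntT.TG.Cnt
import Pool.Agent.Lib.MP_1a91b9_ntT.TG.Ual
import Pool.Agent.Lib.MP_1a91b9_ntT.DG.Defs

/-!
# Theorem G: the exceptional primes
-/

set_option autoImplicit false

namespace Pool.Agent.Lib.MP_1a91b9_ntT.TG

open NumberField IsDedekindDomain Module WeierstrassCurve
open Pool.Agent.Lib.MP_1a91b9_nt
open Pool.Agent.Lib.MP_1a91b9_ntT.S4
open Pool.Agent.Lib.MP_1a91b9_ntT.S5 (below mem_below)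
open Pool.Agent.Lib.MP_1a91b9_ntT.DG (U AB)

universe u

/-- The nonvanishing of `L(E/F, 1)` in terms of the series of `ψbar_F`. -/
theorem lgood_of_g {F : Type u} [Field F] [NumberField F] [Algebra K F] (hc : NoCube3 F)
    {g : ℂ → ℂ} (hg : Differentiable ℂ g) (hgs : ∀ s : ℂ, 2 < s.re → g s = (E F).LSeries s)
    (h1 : g 1 ≠ 0) : DW.LGood F := by
  have hex := nf_exists (F := F)
  obtain ⟨m, hm⟩ : ∃ m, Module.finrank K F = m + 1 :=
    Nat.exists_eq_succ_of_ne_zero Module.finrank_pos.ne'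
  rw [hm] at hex
  obtain ⟨σ, hσ⟩ := hex
  obtain ⟨L, κ, hL, hL1, -⟩ := Rg.lval_three σ hσ (Module.finBasisOfFinrankEq K F hm)
  refine ⟨L, hL, hL1, fun h0 => h1 ?_⟩
  have hgL : g = fun s => (starRingEnd ℂ) (L ((starRingEnd ℂ) s)) * L s := by
    refine entire_eq hg ((differentiable_conj_conj hL).mul hL) fun s hs => ?_
    change _ = (starRingEnd ℂ) (L ((starRingEnd ℂ) s)) * L s
    rw [hgs s hs, LSeries_E hc s hs, hL1 s hs, hL1 _ (by rw [Complex.conj_re]; exact hs)]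
    congr 1
    exact Lf_conj s
  rw [hgL]
  change (starRingEnd ℂ) (L ((starRingEnd ℂ) 1)) * L 1 = 0
  rw [h0, mul_zero]

/-- the number of points over the residue fields is not zero -/
theorem card_res_ne {F : Type} [Field F] [NumberField F] (v : HeightOneSpectrum (𝓞 F)) :
    Nat.card (⟨0, 0, 1, 0, 0⟩ : WeierstrassCurve (𝓞 F ⧸ v.asIdeal)).toAffine.Point ≠ 0 := by
  have hm : v.asIdeal.IsMaximal := v.isMaximal
  letI : Field (𝓞 F ⧸ v.asIdeal) := Ideal.Quotient.field _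
  have i2 : Finite (𝓞 F ⧸ v.asIdeal) := Ideal.finiteQuotientOfFreeOfNeBot _ v.ne_bot
  have h1 : Finite (⟨0, 0, 1, 0, 0⟩ : WeierstrassCurve (𝓞 F ⧸ v.asIdeal)).toAffine.Point :=
    Finite.of_equiv _ (pointEquivOption _).symm
  have h2 : Nonempty (⟨0, 0, 1, 0, 0⟩ : WeierstrassCurve (𝓞 F ⧸ v.asIdeal)).toAffine.Point :=
    ⟨0⟩
  exact Nat.card_pos.ne'

/-- **The exceptional primes.** -/
theorem exists_exc {μ : 𝓞 K} (hμ : μ ≠ 0) {F : Type} [Field F] [NumberField F] [Algebra K F]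
    (hg : DW.LGood F) : ∃ D : ℕ, D ≠ 0 ∧ ∀ ℓ : ℕ, ℓ.Prime → ¬ ℓ ∣ D → 5 ≤ ℓ ∧ ¬ ℓ ∣ nAb μ ∧
      ¬ ℓ ∣ Nat.card (U μ) ∧ NaG ℓ μ F ∧ MP_1a91b9_ntG.UnitProp 3 ℓ Om F := by
  classical
  obtain ⟨D₁, hD₁, h1⟩ := unit_almost F hg
  have hn0 : nAb μ ≠ 0 := nAb_ne hμ
  have hI : Ideal.span {(nAb μ : 𝓞 F)} ≠ 0 := by
    rw [Ne, Ideal.zero_eq_bot, Ideal.span_singleton_eq_bot]
    exact Nat.cast_ne_zero.2 hn0
  have hfin : {v : HeightOneSpectrum (𝓞 F) | (nAb μ : 𝓞 F) ∈ v.asIdeal}.Finite := by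
    refine (Ideal.finite_factors hI).subset fun v hv => ?_
    exact Ideal.dvd_span_singleton.mpr hv
  have hU : Nat.card (U μ) ≠ 0 := by
    have h2 : Finite (𝓞 K ⧸ Ideal.span {μ}) := Ideal.finiteQuotientOfFreeOfNeBot _ (by
      rwa [Ne, Ideal.span_singleton_eq_bot])
    have h3 : Finite (U μ) := inferInstance
    exact Nat.card_pos.ne'
  refine ⟨6 * nAb μ * Nat.card (U μ) * D₁ * ∏ v ∈ hfin.toFinset,
    Nat.card (⟨0, 0, 1, 0, 0⟩ : WeierstrassCurve (𝓞 F ⧸ v.asIdeal)).toAffine.Point, ?_, ?_⟩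
  · refine mul_ne_zero (mul_ne_zero (mul_ne_zero (mul_ne_zero (by norm_num) hn0) hU) hD₁) ?_
    exact Finset.prod_ne_zero_iff.2 fun v _ => card_res_ne v
  · intro ℓ hℓ hd
    have h6 : ¬ ℓ ∣ 6 := fun h => hd ((((h.mul_right _).mul_right _).mul_right _).mul_right _)
    have hμ' : ¬ ℓ ∣ nAb μ := fun h => hd ((((h.mul_left _).mul_right _).mul_right _).mul_right _)
    have hU' : ¬ ℓ ∣ Nat.card (U μ) := fun h => hd (((h.mul_left _).mul_right _).mul_right _)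
    have hD' : ¬ ℓ ∣ D₁ := fun h => hd ((h.mul_left _).mul_right _)
    have hP : ¬ ℓ ∣ ∏ v ∈ hfin.toFinset,
        Nat.card (⟨0, 0, 1, 0, 0⟩ : WeierstrassCurve (𝓞 F ⧸ v.asIdeal)).toAffine.Point :=
      fun h => hd (h.mul_left _)
    refine ⟨?_, hμ', hU', fun v hv h3 => ?_, h1 ℓ hℓ hD'⟩
    · by_contra h
      have h2 := hℓ.two_le
      have h4 : ℓ = 2 ∨ ℓ = 3 ∨ ℓ = 4 := by omega
      rcases h4 with rfl | rfl | rfl
      · exact h6 (by norm_num)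
      · exact h6 (by norm_num)
      · revert hℓ
        decide
    · refine cop_of_card hℓ v h3 fun h => hP (h.trans ?_)
      exact Finset.dvd_prod_of_mem (fun v : HeightOneSpectrum (𝓞 F) =>
        Nat.card (⟨0, 0, 1, 0, 0⟩ : WeierstrassCurve (𝓞 F ⧸ v.asIdeal)).toAffine.Point)
        ((Set.Finite.mem_toFinset hfin).2 hv)

end Pool.Agent.Lib.MP_1a91b9_ntT.TG
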