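import Pool.Agent.Lib.MP_1a91b9_ntT.TG.GoodK
import Pool.Agent.Lib.MP_1a91b9_ntT.TG.Exc

/-!
# Theorem G: the conclusion for almost all primes `ℓ`, from the theorem on the base field
-/

set_option autoImplicit false

namespace Pool.Agent.Lib.MP_1a91b9_ntT.TG

open NumberField IsDedekindDomain Module WeierstrassCurve
open Pool.Agent.Lib.MP_1a91b9_nt
open Pool.Agent.Lib.MP_1a91b9_ntT.S4 (psi NoCube3)
open Pool.Agent.Lib.MP_1a91b9_ntT.DG (U AB)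
open DB

/-- The theorem on the base field. -/
def BaseThm : Prop :=
  ∀ (μ : 𝓞 K) (ℓ : ℕ) (_ : ℓ.Prime) (_ : 5 ≤ ℓ) (F L : Type) [Field F] [NumberField F]
    [Algebra K F] [Field L] [NumberField L] [Algebra K L] [Algebra F L] [IsScalarTower K F L]
    [DecidableEq L] (J : Pt L) (_ : AB μ F L J) (_ : ¬ ℓ ∣ Nat.card (U μ)) (_ : ¬ ℓ ∣ nAb μ)
    (_ : NaG ℓ μ F) (_ : MP_1a91b9_ntG.UnitProp 3 ℓ Om F), BaseG ℓ F

section
variable {μ : 𝓞 K} {F₀ L₀ : Type} [Field F₀] [NumberField F₀] [Algebra K F₀] [Field L₀]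
  [NumberField L₀] [Algebra K L₀] [Algebra F₀ L₀] [IsScalarTower K F₀ L₀] [DecidableEq L₀]
  {J : Pt L₀}

theorem abT_of_ab (h : AB μ F₀ L₀ J) : AbT μ K J := ⟨h.ne, h.cop, h.ord, h.gen⟩

theorem baseG_cpy (hb : BaseThm) (h : AB μ F₀ L₀ J) {ℓ : ℕ} (hℓ : ℓ.Prime) (h5 : 5 ≤ ℓ)
    (hcu : ¬ ℓ ∣ Nat.card (U μ)) (hμ : ¬ ℓ ∣ nAb μ) (hna : NaG ℓ μ F₀)
    (hU : MP_1a91b9_ntG.UnitProp 3 ℓ Om F₀) (F : Type) [Field F] [NumberField F] [Algebra K F]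
    (hF : Cpy F₀ F) : BaseG ℓ F := by
  obtain ⟨e⟩ := hF
  let alg : Algebra F L₀ := ((algebraMap F₀ L₀).comp (e.symm : F →+* F₀)).toAlgebra
  have hst : IsScalarTower K F L₀ := IsScalarTower.of_algebraMap_eq fun x => by
    change algebraMap K L₀ x = algebraMap F₀ L₀ (e.symm (algebraMap K F x))
    rw [e.symm.commutes, ← IsScalarTower.algebraMap_apply]
  refine hb μ ℓ hℓ h5 F L₀ J ⟨h.gal, h.ne, h.ord, h.cop, h.gen, ?_⟩ hcu hμ (hna.iso e)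
    (unitProp_iso e hU)
  rw [← e.toLinearEquiv.finrank_eq]
  exact h.three

/-- The ramification condition in terms of the number of points. -/
def RamC (ℓ : ℕ) (F₀ L : Type) [Field F₀] [NumberField F₀] [Field L] [NumberField L]
    [Algebra F₀ L] : Prop :=
  ∀ (v : HeightOneSpectrum (𝓞 F₀)) (w : HeightOneSpectrum (𝓞 L)),
    v.asIdeal.map (algebraMap (𝓞 F₀) (𝓞 L)) ≤ w.asIdeal ^ 2 →
      (ℓ : 𝓞 F₀) ∉ v.asIdeal ∧ ((3 : 𝓞 F₀) ∉ v.asIdeal →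
        ¬ ℓ ∣ Nat.card (⟨0, 0, 1, 0, 0⟩ : WeierstrassCurve (𝓞 F₀ ⧸ v.asIdeal)).toAffine.Point)

theorem ramG_of_ramC {ℓ : ℕ} (hℓ : ℓ.Prime) {L : Type} [Field L] [NumberField L] [Algebra F₀ L]
    (h : RamC ℓ F₀ L) : RamG ℓ F₀ L := by
  rintro v ⟨w, hw⟩
  obtain ⟨h1, h2⟩ := h v w hw
  exact ⟨h1, fun h3 => cop_of_card hℓ v h3 (h2 h3)⟩

/-- The conclusion for one prime number. -/
theorem concl_ell (hb : BaseThm) (h : AB μ F₀ L₀ J) {ℓ : ℕ} (hℓ : ℓ.Prime) (h5 : 5 ≤ ℓ)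
    (hcu : ¬ ℓ ∣ Nat.card (U μ)) (hμ : ¬ ℓ ∣ nAb μ) (hna : NaG ℓ μ F₀)
    (hU : MP_1a91b9_ntG.UnitProp 3 ℓ Om F₀) (N L M : Type) [Field N] [NumberField N] [Field L]
    [NumberField L] [Field M] [NumberField M] [Algebra N L] [Algebra F₀ L] [Algebra L M]
    [Algebra F₀ M] [IsScalarTower F₀ L M] [IsGalois F₀ M] (n : ℕ) (hM : finrank F₀ M = ℓ ^ n)
    (hL : RamG ℓ F₀ L) : NoCube3 N ∧ DW.Dat N ∧ ∀ hp : Fact ℓ.Prime, PL.DatP ℓ N := by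
  have hT := abT_of_ab h
  have hG : IsGalois K L₀ := h.gal
  let aKL : Algebra K L := ((algebraMap F₀ L).comp (algebraMap K F₀)).toAlgebra
  let aKM : Algebra K M := ((algebraMap F₀ M).comp (algebraMap K F₀)).toAlgebra
  have t1 : IsScalarTower K F₀ L := IsScalarTower.of_algebraMap_eq fun x => rfl
  have t2 : IsScalarTower K F₀ M := IsScalarTower.of_algebraMap_eq fun x => rfl
  have hB : ∀ (F : Type) [Field F] [NumberField F] [Algebra K F], Cpy F₀ F → BaseG ℓ F :=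
    fun F _ _ _ hF => baseG_cpy hb h hℓ h5 hcu hμ hna hU F hF
  obtain ⟨h1, h2⟩ := dat_G hℓ h5 F₀ L M hB n hM hL L₀ hT N
  exact ⟨h1, h2, fun hp => datP_G h5 F₀ L M hB n hM hL hμ hna L₀ hT N⟩

end

end Pool.Agent.Lib.MP_1a91b9_ntT.TG
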