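import Pool.Agent.Lib.MP_1a91b9_ntT.TG.Dt
import Pool.Agent.Lib.MP_1a91b9_ntT.TG.FinG

/-!
# Theorem G: the properties of the base field which do not need the Selmer groups
-/

set_option autoImplicit false

namespace Pool.Agent.Lib.MP_1a91b9_ntT.TG

open NumberField IsDedekindDomain Module WeierstrassCurve DB DX
open Pool.Agent.Lib.MP_1a91b9_nt
open Pool.Agent.Lib.MP_1a91b9_ntT.S4 (psi NoCube3)
open Pool.Agent.Lib.MP_1a91b9_ntT.DG (U AB)

section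
variable {μ : 𝓞 K} {F L : Type} [Field F] [NumberField F] [Algebra K F] [Field L]
  [NumberField L] [Algebra K L] [Algebra F L] [IsScalarTower K F L] [DecidableEq L]
  {J : Pt L}

/-- the valuation of `3` -/
theorem noc_ab (h : AB μ F L J) : NoCube3 F := by
  have hG : IsGalois K L := h.gal
  have hG' : IsGalois K F := galois_of_abT (N := K) (F := F) (L := L) (abT_of_ab h)
  exact D7.noCube3_of_galois F h.three

/-- the prime `ℓ` is not ramified -/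
theorem unr_ab (h : AB μ F L J) {ℓ : ℕ} (hℓ : ℓ.Prime) (h5 : 5 ≤ ℓ) (hμ : ¬ ℓ ∣ nAb μ) :
    DS.UnrL ℓ F := by
  have hG : IsGalois K L := h.gal
  have hK := DS.unr_base hℓ h5 K (Function.bijective_id)
  refine unrL_down hℓ.ne_zero (F := L) ?_
  refine DS.unr_step (F := K) (fun v hv => ?_) hK
  by_contra hne
  have h1 : (v.under (𝓞 K)).valuation K (ℓ : K) < 1 := by
    rw [← val_map_lt, map_natCast]
    exact hv
  have hm : (ℓ : 𝓞 K) ∈ (v.under (𝓞 K)).asIdeal := by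
    have e : ((ℓ : 𝓞 K) : K) = ℓ := map_natCast (algebraMap (𝓞 K) K) ℓ
    refine ((v.under (𝓞 K)).valuation_lt_one_iff_mem (K := K) (ℓ : 𝓞 K)).1 ?_
    exact (congrArg (fun z => (v.under (𝓞 K)).valuation K z < 1) e).mpr h1
  refine (abT_of_ab h).not_ram (v.under (𝓞 K)) (fun h3 => ?_)
    ⟨v, (MP_1a91b9_ntG.le_sq_iff rfl).mpr hne⟩
  have hc : Nat.Coprime (3 * nAb μ) ℓ := by
    refine Nat.Coprime.mul_left ?_ ?_
    · exact (Nat.coprime_primes Nat.prime_three hℓ).2 (by omega)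
    · exact ((Nat.Prime.coprime_iff_not_dvd hℓ).2 hμ).symm
  obtain ⟨a, b, hab⟩ := Nat.isCoprime_iff_coprime.2 hc
  apply (v.under (𝓞 K)).isPrime.ne_top
  rw [Ideal.eq_top_iff_one]
  have h2 : (1 : 𝓞 K) = (a : 𝓞 K) * ((3 * nAb μ : ℕ) : 𝓞 K) + (b : 𝓞 K) * (ℓ : 𝓞 K) := by
    have h4 := congrArg (Int.cast (R := 𝓞 K)) hab
    push_cast at h4 ⊢
    exact h4.symm
  rw [h2]
  exact (v.under (𝓞 K)).asIdeal.add_mem (Ideal.mul_mem_left _ _ h3) (Ideal.mul_mem_left _ _ hm)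

/-- **The base field**: only the Selmer groups remain. -/
theorem baseG_of_vt (h : AB μ F L J) {ℓ : ℕ} (hℓ : ℓ.Prime) (h5 : 5 ≤ ℓ) (hμ : ¬ ℓ ∣ nAb μ)
    (hU : MP_1a91b9_ntG.UnitProp 3 ℓ Om F)
    (hvt : ∀ (ϖ : 𝓞 K) (q : ℕ), PD ϖ ℓ q → VT ϖ ℓ F) : BaseG ℓ F where
  n3 := h.three
  noc := noc_ab h
  unr := unr_ab h hℓ h5 hμ
  unit := hU
  vt := hvt
  dt := fun _ _ hp => dt_base hp F (noc_ab h)

end

end Pool.Agent.Lib.MP_1a91b9_ntT.TG
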