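import Pool.Agent.Lib.MP_1a91b9_ntT.TG.Udesc
import Pool.Agent.Lib.MP_1a91b9_ntT.TG.Inter

/-!
# Theorem G: the field of a torsion point is unramified outside of the annihilator; descent of the
unit property
-/

set_option autoImplicit false

namespace Pool.Agent.Lib.MP_1a91b9_ntT.TG

open NumberField IsDedekindDomain WeierstrassCurve DB DX Module
open Pool.Agent.Lib.MP_1a91b9_nt (nrm nrm_eq)
open Pool.Agent.Lib.MP_1a91b9_ntG
open Pool.Agent.Lib.MP_1a91b9_ntT.S4 (psi psiK nK Over Lf hasProd_Lf hasProd_over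
  psibC)
open Pool.Agent.Lib.MP_1a91b9_ntT.S5 (below mem_below exists_above below_below)
open Pool.Agent.Lib.MP_1a91b9_ntT.CF (IsFr exists_over)

universe u

section
variable {μ : 𝓞 K} {N L : Type u} [Field N] [NumberField N] [Algebra K N] [Field L]
  [NumberField L] [Algebra K L] [Algebra N L] [IsScalarTower K N L] [DecidableEq L]
  [IsGalois N L] {T : Pt L}

/-- the inertia groups are trivial outside of `3 μ` -/
theorem AbT.inert (hT : AbT μ N T) (W : HeightOneSpectrum (𝓞 L))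
    (hv : ((3 * nAb μ : ℕ) : 𝓞 N) ∉ (W.under (𝓞 N)).asIdeal) (σ : Gal(L/N))
    (hσ : ∀ x : 𝓞 L, σ • x - x ∈ W.asIdeal) : σ = 1 := by
  obtain ⟨φ, hφ⟩ := CF.exists_fr (k := N) W
  have h2 : ((3 * nAb μ : ℕ) : 𝓞 L) ∉ W.asIdeal := by
    intro h
    apply hv
    change algebraMap (𝓞 N) (𝓞 L) _ ∈ W.asIdeal
    rwa [map_natCast]
  have h3 : ((3 : ℕ) : 𝓞 L) ∉ W.asIdeal := by
    intro h
    apply h2
    rw [Nat.cast_mul]
    exact Ideal.mul_mem_right _ _ h
  have h4 : ((nAb μ : ℕ) : 𝓞 L) ∉ W.asIdeal := by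
    intro h
    apply h2
    rw [Nat.cast_mul]
    exact Ideal.mul_mem_left _ _ h
  have h5 := DS.frob_psi (k := N) W (by exact_mod_cast val_one_of_not_mem W 3 h3) φ (fun x => by
    rw [← nrm_eq]
    exact hφ x) (nAb_coprime hT.cop) (val_one_of_not_mem W _ h4) (nsmul_nAb hT.ord)
  have h6 := DS.frob_psi (k := N) W (by exact_mod_cast val_one_of_not_mem W 3 h3) (φ * σ)
    (fun x => by
      rw [← nrm_eq, mul_smul]
      have e1 := hφ (σ • x)
      have e2 : (σ • x) ^ nrm (W.under (𝓞 N)) - x ^ nrm (W.under (𝓞 N)) ∈ W.asIdeal :=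
        W.asIdeal.mem_of_dvd (sub_dvd_pow_sub_pow _ _ _) (hσ x)
      have e3 := W.asIdeal.add_mem e1 e2
      rwa [sub_add_sub_cancel] at e3) (nAb_coprime hT.cop) (val_one_of_not_mem W _ h4)
    (nsmul_nAb hT.ord)
  rw [← h5, ga_mul] at h6
  apply hT.gen
  have h7 := congrArg (ga φ⁻¹) h6
  rw [← ga_mul, ← ga_mul, ← ga_mul, inv_mul_cancel, one_mul, ga_one] at h7
  exact h7

/-- no ramification outside of `3 μ` -/
theorem AbT.not_ram (hT : AbT μ N T) (v : HeightOneSpectrum (𝓞 N))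
    (hv : ((3 * nAb μ : ℕ) : 𝓞 N) ∉ v.asIdeal) : ¬ MP_1a91b9_ntG.Ram L v := by
  rw [ram_eq]
  obtain ⟨W, rfl⟩ := exists_over (N := L) v
  have h1 : W.asIdeal.inertia Gal(L/N) = ⊥ := by
    rw [eq_bot_iff]
    intro σ hσ
    rw [Subgroup.mem_bot]
    exact hT.inert W hv σ (fun x => hσ x)
  have hp0 : W.asIdeal.under (𝓞 N) ≠ ⊥ := (W.under (𝓞 N)).ne_bot
  have hfin : Finite (𝓞 N ⧸ W.asIdeal.under (𝓞 N)) :=
    Ideal.finiteQuotientOfFreeOfNeBot _ hp0
  have h2 := Ideal.card_inertia_eq_ramificationIdxIn (G := Gal(L/N)) (W.asIdeal.under (𝓞 N))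
    W.asIdeal
  intro h3
  apply h3
  change Ideal.ramificationIdxIn (W.asIdeal.under (𝓞 N)) (𝓞 L) = 1
  rw [← h2, h1]
  exact Nat.card_unique

end

/-- The places above `μ` are not anomalous. -/
def NaG (ℓ : ℕ) (μ : 𝓞 K) (F : Type*) [Field F] [NumberField F] [Algebra K F] : Prop :=
  ∀ v : HeightOneSpectrum (𝓞 F), (nAb μ : 𝓞 F) ∈ v.asIdeal → (3 : 𝓞 F) ∉ v.asIdeal →
    IsCoprime (psi F v.asIdeal - 1) (ℓ : 𝓞 K)

section
variable {N F : Type*} [Field N] [NumberField N] [Algebra K N] [Field F] [NumberField F]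
  [Algebra K F] [Algebra N F] [IsScalarTower K N F]

/-- the coprimality goes down -/
theorem cop_down {ℓ : ℕ} (w : HeightOneSpectrum (𝓞 F))
    (h : IsCoprime (psi F w.asIdeal - 1) (ℓ : 𝓞 K)) :
    IsCoprime (psi N (below N w).asIdeal - 1) (ℓ : 𝓞 K) := by
  rw [psi_up (F := N) w] at h
  refine IsCoprime.of_isCoprime_of_dvd_left h ?_
  have h1 := sub_dvd_pow_sub_pow (psi N (below N w).asIdeal) 1 (w.asIdeal.inertiaDeg (𝓞 N))
  rwa [one_pow] at h1

theorem NaG.down {ℓ : ℕ} {μ : 𝓞 K} (h : NaG ℓ μ F) : NaG ℓ μ N := by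
  intro v hv h3
  obtain ⟨w, rfl⟩ := exists_above N F v
  refine cop_down w (h w ?_ ?_)
  · rwa [mem_below, map_natCast] at hv
  · rwa [mem_below, map_ofNat] at h3

end

/-- The values of the partial series over a field which is unramified above `ℓ`. -/
theorem valueProp_unr {ℓ : ℕ} (hℓ : ℓ.Prime) (h5 : 5 ≤ ℓ) (F : Type u) [Field F] [NumberField F]
    [Algebra K F] (h3 : ¬ 3 ∣ finrank K F)
    (hu : ∀ q : HeightOneSpectrum (𝓞 K), (ℓ : 𝓞 K) ∈ q.asIdeal → ¬ MP_1a91b9_ntT3.Ram F q) :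
    ValueProp 3 ℓ Om F := by
  have h3' : ℓ ≠ 3 := by omega
  have hom : IsCoprime omO (ℓ : 𝓞 K) := by
    have h := (Ell.kq_om hℓ h3' 1 (by norm_num)).1
    rwa [pow_one] at h
  have hle : ∀ 𝔪 : Ideal (𝓞 F), 𝔪 ≤ Ideal.span {MP_1a91b9_ntG.up 3 F} → 𝔪 ≤ Ideal.span {(3 : 𝓞 F)} := by
    intro 𝔪 h
    rwa [MP_1a91b9_ntG.up, map_ofNat] at h
  exact valueProp_gen hℓ 3 Om (fun A hA k hk z hz => Ell.d3_mem hℓ A hA k hk z hz) omO hom
    (Ell.kq_om hℓ h3' _ h3).2 (MP_1a91b9_ntT3.S8.uq_of_unram ℓ hℓ F hu)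
    (fun 𝔪 hm u hu => un_norm 𝔪 (hle 𝔪 hm) u hu)
    (fun 𝔪 hm u hu k hk huk => un_tors 𝔪 (hle 𝔪 hm) u hu k hk huk)

/-- not ramified in a subfield -/
theorem not_ram_down {ℓ : ℕ} {N F : Type*} [Field N] [NumberField N] [Algebra K N] [Field F]
    [NumberField F] [Algebra K F] [Algebra N F] [IsScalarTower K N F]
    (hu : ∀ q : HeightOneSpectrum (𝓞 K), (ℓ : 𝓞 K) ∈ q.asIdeal → ¬ MP_1a91b9_ntT3.Ram F q) :
    ∀ q : HeightOneSpectrum (𝓞 K), (ℓ : 𝓞 K) ∈ q.asIdeal → ¬ MP_1a91b9_ntT3.Ram N q :=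
  fun q hq h => hu q hq (MP_1a91b9_ntT3.S8.ram_up q h)

section
variable {F F' : Type u} [Field F] [NumberField F] [Field F'] [NumberField F'] [Algebra F F']
  [Algebra K F] [Algebra K F'] [IsScalarTower K F F']

theorem Lf_one [IsGalois F F'] (hL : Module.finrank F F' = 1) (s : ℂ) (hs : 2 < s.re) :
    Lf (psbC 3 F') s = Lf (psbC 3 F) s := by
  have h4 := (hasProd_Lf (psbC 3 F') (psbC_one 3 F') (psbC_mul 3 F') (1 / 2) (by norm_num)
    norm_psbC_le s (by linarith)).2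
  have h5 := hasProd_over (F := F) (F' := F') _ _ h4
  have h6 := (hasProd_Lf (psbC 3 F) (psbC_one 3 F) (psbC_mul 3 F) (1 / 2) (by norm_num)
    norm_psbC_le s (by linarith)).2
  refine h5.unique ?_
  have e : (fun v : HeightOneSpectrum (𝓞 F) => ∏ w : Over F' v,
      (1 - psbC 3 F' w.1.asIdeal * (Ideal.absNorm w.1.asIdeal : ℂ) ^ (-s))⁻¹) = fun v =>
      (1 - psbC 3 F v.asIdeal * (Ideal.absNorm v.asIdeal : ℂ) ^ (-s))⁻¹ := by
    funext v
    obtain ⟨h7, h8⟩ := one_cases hL v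
    rw [Finset.prod_congr rfl (g := fun _ =>
      (1 - psbC 3 F v.asIdeal * (Ideal.absNorm v.asIdeal : ℂ) ^ (-s))⁻¹)]
    · rw [Finset.prod_const, Finset.card_univ, h7, pow_one]
    · intro w _
      have h9 := (h8 w).2
      rw [nrm_eq, nrm_eq] at h9
      rw [psbC_over 3 v w, (h8 w).1, pow_one, h9]
  rw [e]
  exact h6

theorem unit_one [IsGalois F F'] (hL : Module.finrank F F' = 1) {ℓ : ℕ} {Ω : ℂ}
    (h : UnitProp 3 ℓ Ω F') : UnitProp 3 ℓ Ω F := by
  obtain ⟨L, h1, h2, h3⟩ := h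
  refine ⟨L, h1, fun s hs => ?_, fun W hW => ?_⟩
  · rw [h2 s hs, Lf_one hL s hs]
  · rw [← h3 W hW, ← Module.finrank_mul_finrank K F F', hL, mul_one]

end

section
variable {μ : 𝓞 K} {N N₁ L : Type u} [Field N] [NumberField N] [Algebra K N] [Field N₁]
  [NumberField N₁] [Algebra K N₁] [Field L] [NumberField L] [Algebra K L] [Algebra N N₁]
  [Algebra N L] [Algebra N₁ L] [IsScalarTower K N N₁] [IsScalarTower K N L]
  [IsScalarTower K N₁ L] [IsScalarTower N N₁ L] [DecidableEq L]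
  {T : Pt L}

/-- descent in a step of prime degree -/
theorem unit_step [IsGalois N N₁] [IsGalois N L] (hT : AbT μ N T) {p : ℕ} (hp : p.Prime)
    (hd : finrank N N₁ = p) {ℓ : ℕ} (hℓ : ℓ.Prime) (h5 : 5 ≤ ℓ) (hμ : ¬ ℓ ∣ nAb μ)
    (h3 : ¬ 3 ∣ finrank K N)
    (hu : ∀ q : HeightOneSpectrum (𝓞 K), (ℓ : 𝓞 K) ∈ q.asIdeal → ¬ MP_1a91b9_ntT3.Ram N q)
    (hna : NaG ℓ μ N₁) (h : UnitProp 3 ℓ Om N₁) : UnitProp 3 ℓ Om N := by
  have hfp : Fact p.Prime := ⟨hp⟩
  obtain ⟨c, hc⟩ : ∃ c : 𝓞 N, c = ((3 * nAb μ : ℕ) : 𝓞 N) := ⟨_, rfl⟩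
  have hc0 : c ≠ 0 := by
    rw [hc]
    exact Nat.cast_ne_zero.2 (mul_ne_zero three_ne_zero (nAb_ne hT.ne))
  have hcu : ¬ IsUnit c := by
    intro hu
    rw [hc, Nat.cast_mul, Nat.cast_ofNat] at hu
    exact S4.three_not_unit (isUnit_of_mul_isUnit_left hu)
  have hm0 : Ideal.span {c} ≠ (0 : Ideal (𝓞 N)) := by
    rw [Ne, Ideal.zero_eq_bot, Ideal.span_singleton_eq_bot]
    exact hc0
  have hm1 : Ideal.span {c} ≠ (1 : Ideal (𝓞 N)) := by
    rw [Ne, Ideal.one_eq_top, Ideal.span_singleton_eq_top]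
    exact hcu
  have hram : ∀ v : HeightOneSpectrum (𝓞 N), MP_1a91b9_ntG.Ram N₁ v →
      Ideal.span {c} ≤ v.asIdeal := by
    intro v hv
    rw [Ideal.span_singleton_le_iff_mem]
    by_contra h1
    rw [hc] at h1
    exact hT.not_ram v h1 (MP_1a91b9_ntT3.S8.ram_up v hv)
  have hm3 : Ideal.span {c} ≤ Ideal.span {MP_1a91b9_ntG.up 3 N} := by
    rw [MP_1a91b9_ntG.up, map_ofNat, Ideal.span_singleton_le_span_singleton, hc, Nat.cast_mul,
      Nat.cast_ofNat]
    exact dvd_mul_right _ _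
  have hcℓ : (3 * nAb μ).Coprime ℓ := by
    rw [Nat.coprime_comm, Nat.Prime.coprime_iff_not_dvd hℓ, hℓ.dvd_mul]
    rintro (h1 | h1)
    · have h6 := (Nat.prime_dvd_prime_iff_eq hℓ Nat.prime_three).1 h1
      omega
    · exact hμ h1
  have hmq : IsCoprime (Ideal.span {c}) (Ideal.span {(ℓ : 𝓞 N)}) := by
    rw [Ideal.isCoprime_span_singleton_iff, hc]
    exact Nat.Coprime.cast hcℓ
  obtain ⟨x, hx⟩ := hT.exists_rayData (N₁ := N₁) (m := Ideal.span {c}) (by rw [hc]) hd hm1 hram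
  have hup : ∀ (F : Type u) [Field F] [NumberField F] [Algebra K F],
      MP_1a91b9_ntG.up 3 F = (3 : 𝓞 F) := by
    intro F _ _ _
    rw [MP_1a91b9_ntG.up, map_ofNat]
  refine unit_desc hd hm0 hm1 hm3 hx hℓ (DS.three_coprime hℓ h5) hmq
    (valueProp_unr hℓ h5 N h3 hu) ?_ ?_ h
  · intro v hv h1
    rw [hup] at h1
    refine hna.down v ?_ h1
    rw [Ideal.span_singleton_le_iff_mem, hc, Nat.cast_mul] at hv
    rcases v.isPrime.mem_or_mem hv with h2 | h2
    · exact absurd (by exact_mod_cast h2) h1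
    · exact h2
  · intro w hw h1
    rw [hup] at h1
    refine hna w ?_ h1
    rw [Ideal.map_span, Set.image_singleton, Ideal.span_singleton_le_iff_mem, hc, map_natCast,
      Nat.cast_mul] at hw
    rcases w.isPrime.mem_or_mem hw with h2 | h2
    · exact absurd (by exact_mod_cast h2) h1
    · exact h2

end

/-- **Descent of the unit property** in the extensions generated by torsion points. -/
theorem unit_abT (μ : 𝓞 K) {ℓ : ℕ} (hℓ : ℓ.Prime) (h5 : 5 ≤ ℓ) (hμ : ¬ ℓ ∣ nAb μ) (d : ℕ) :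
    ∀ (N F L : Type u) [Field N] [NumberField N] [Algebra K N]
    [Field F] [NumberField F] [Algebra K F] [Field L] [NumberField L] [Algebra K L]
    [Algebra N F] [Algebra N L] [Algebra F L] [IsScalarTower K N F] [IsScalarTower K N L]
    [IsScalarTower K F L] [IsScalarTower N F L] [DecidableEq L] [IsGalois N L] (T : Pt L)
    (_ : AbT μ N T), finrank N F = d → ¬ 3 ∣ finrank K F →
    (∀ q : HeightOneSpectrum (𝓞 K), (ℓ : 𝓞 K) ∈ q.asIdeal → ¬ MP_1a91b9_ntT3.Ram F q) →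
    NaG ℓ μ F → UnitProp 3 ℓ Om F → UnitProp 3 ℓ Om N := by
  induction d using Nat.strong_induction_on with
  | _ d ih =>
    intro N F L _ _ _ _ _ _ _ _ _ _ _ _ _ _ _ _ _ _ T hT hd h3 hu hna hF
    have hfd : FiniteDimensional N L := Module.Finite.of_restrictScalars_finite ℚ N L
    have hfd' : FiniteDimensional N F := Module.Finite.of_restrictScalars_finite ℚ N F
    -- the extension `F / N` is Galois
    have hG : IsGalois N F := by
      let f : F →ₐ[N] L := IsScalarTower.toAlgHom N F L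
      let e : F ≃ₐ[N] f.fieldRange := AlgEquiv.ofInjectiveField f
      have hn : f.fieldRange.fixingSubgroup.Normal := ⟨fun σ hσ τ => by
        rw [hT.comm τ σ, mul_inv_cancel_right]
        exact hσ⟩
      have h1 : IsGalois N (IntermediateField.fixedField f.fieldRange.fixingSubgroup) :=
        IsGalois.of_fixedField_normal_subgroup _
      rw [IsGalois.fixedField_fixingSubgroup] at h1
      exact IsGalois.of_algEquiv e.symm
    by_cases hd1 : d = 1
    · exact unit_one (by rw [hd, hd1]) hF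
    · obtain ⟨p, hp, hpd⟩ := Nat.exists_prime_and_dvd hd1
      have hfp : Fact p.Prime := ⟨hp⟩
      have hcardG : Nat.card Gal(F/N) = d := by rw [IsGalois.card_aut_eq_finrank, hd]
      obtain ⟨σ, hσ⟩ := exists_prime_orderOf_dvd_card' (G := Gal(F/N)) p (by rw [hcardG]; exact hpd)
      obtain ⟨M, hM⟩ : ∃ M : IntermediateField N F,
          M = IntermediateField.fixedField (Subgroup.zpowers σ) := ⟨_, rfl⟩
      have hpM : finrank M F = p := by
        rw [hM, IntermediateField.finrank_fixedField_eq_card, Nat.card_zpowers, hσ]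
      have hmul : finrank N M * p = d := by
        rw [← hpM, Module.finrank_mul_finrank, hd]
      have hpos : 0 < finrank N M := finrank_pos
      have hlt : finrank N M < d := by
        rw [← hmul]
        exact lt_mul_of_one_lt_right hpos hp.one_lt
      have t1 : IsScalarTower M F L := inferInstance
      have t2 : IsScalarTower N M L := IsScalarTower.of_algebraMap_eq fun x => by
        rw [IsScalarTower.algebraMap_apply N F L]
        rfl
      have t3 : IsScalarTower K M F := IsScalarTower.of_algebraMap_eq fun x => rfl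
      have t4 : IsScalarTower K M L := IsScalarTower.of_algebraMap_eq fun x => by
        rw [IsScalarTower.algebraMap_apply K F L]
        rfl
      have t5 : IsScalarTower K N M := IsScalarTower.of_algebraMap_eq fun x => by
        apply (algebraMap M F).injective
        rw [← IsScalarTower.algebraMap_apply K M F, ← IsScalarTower.algebraMap_apply N M F,
          ← IsScalarTower.algebraMap_apply K N F]
      have g1 : IsGalois M F := IsGalois.tower_top_of_isGalois N M F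
      have g2 : IsGalois M L := IsGalois.tower_top_of_isGalois N M L
      have hT' : AbT μ M T := ⟨hT.ne, hT.cop, hT.ord, fun τ hτ => by
        have h1 := hT.gen (toF N τ) hτ
        apply AlgEquiv.ext
        intro y
        rw [← toF_apply (F := N) τ y, h1]
        rfl⟩
      have h3M : ¬ 3 ∣ finrank K M := by
        intro h
        apply h3
        rw [← Module.finrank_mul_finrank K M F]
        exact Dvd.dvd.mul_right h _
      have huM := not_ram_down (N := M) hu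
      have hnM : NaG ℓ μ M := hna.down
      have hMg : UnitProp 3 ℓ Om M := unit_step hT' hp hpM hℓ h5 hμ h3M huM hna hF
      exact ih (finrank N M) hlt N M L T hT rfl h3M huM hnM hMg

end Pool.Agent.Lib.MP_1a91b9_ntT.TG
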