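import Pool.Agent.Lib.MP_1a91b9_ntT.TG.Defs
import Pool.Agent.Lib.MP_1a91b9_ntT.DW.Main

/-!
# Theorem G, Part 8: the analytic side of the towers
-/

set_option autoImplicit false

namespace Pool.Agent.Lib.MP_1a91b9_ntT.TG

open NumberField IsDedekindDomain WeierstrassCurve Module DB DX DS
open Pool.Agent.Lib.MP_1a91b9_nt
open Pool.Agent.Lib.MP_1a91b9_ntG
open Pool.Agent.Lib.MP_1a91b9_ntT.S4 (Lf psiC psibC NoCube3 differentiable_conj_conj)
open Pool.Agent.Lib.MP_1a91b9_ntT.S5 (below mem_below exists_above below_below)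

universe u

/-- nothing above `ℓ` ramifies if `ℓ` has order one at all places -/
theorem not_ram_of_unr {ℓ : ℕ} {F : Type u} [Field F] [NumberField F] [Algebra K F]
    (h : UnrL ℓ F) (hℓ : ℓ ≠ 0) (q : HeightOneSpectrum (𝓞 K)) (hq : (ℓ : 𝓞 K) ∈ q.asIdeal) :
    ¬ MP_1a91b9_ntT3.Ram F q := by
  rintro ⟨w, hw⟩
  have h1 : algebraMap (𝓞 K) (𝓞 F) (ℓ : 𝓞 K) ∈ w.asIdeal ^ 2 := hw (Ideal.mem_map_of_mem _ hq)
  rw [map_natCast] at h1
  have hl0 : (ℓ : F) ≠ 0 := Nat.cast_ne_zero.2 hℓ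
  have e0 : algebraMap (𝓞 F) F (ℓ : 𝓞 F) = (ℓ : F) := map_natCast (algebraMap (𝓞 F) F) ℓ
  have h2 : w.valuation F (ℓ : F) ≤ WithZero.exp (-((2 : ℕ) : ℤ)) := by
    rw [← e0]
    change w.valuation F (algebraMap (𝓞 F) F (ℓ : 𝓞 F)) ≤ _
    rw [w.valuation_of_algebraMap (K := F), w.intValuation_le_pow_iff_mem]
    exact h1
  have h3 : 2 ≤ od w (ℓ : F) := by
    rw [val_eq w hl0, WithZero.exp_le_exp] at h2
    push_cast at h2
    omega
  have h4 : w.valuation F (ℓ : F) < 1 := (val_lt_one_iff w hl0).2 (by omega)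
  have h5 := h w h4
  omega

section
variable {P : ∀ (F : Type u) [Field F] [NumberField F] [Algebra K F], Prop}
  {ℓ : ℕ} (hℓ : ℓ.Prime) (h5 : 5 ≤ ℓ)
  (hP : ∀ (F : Type u) [Field F] [NumberField F] [Algebra K F], P F → BaseG ℓ F)
  {F : Type u} [Field F] [NumberField F] [Algebra K F]

include hℓ h5 hP

theorem not_three_dvd (h : TowerG P ℓ F) : ¬ 3 ∣ finrank K F := by
  have h3 : ¬ 3 ∣ ℓ := by
    intro h4
    have h6 := (Nat.prime_dvd_prime_iff_eq Nat.prime_three hℓ).1 h4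
    omega
  induction h with
  | base F hb => exact (hP F hb).n3
  | step F F' hG hr hu ha h ih =>
    rw [← Module.finrank_mul_finrank K F F', hr, Nat.prime_three.dvd_mul]
    rintro (h1 | h1)
    · exact ih h1
    · exact h3 h1

theorem noCube_tower (h : TowerG P ℓ F) : NoCube3 F := by
  have h3 : ¬ 3 ∣ ℓ := by
    intro h4
    have h6 := (Nat.prime_dvd_prime_iff_eq Nat.prime_three hℓ).1 h4
    omega
  induction h with
  | base F hb => exact (hP F hb).noc
  | step F F' hG hr hu ha h ih => exact D7.noCube3_up (by rw [hr]; exact h3) ih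

omit h5 in
theorem unr_tower (h : TowerG P ℓ F) :
    ∀ q : HeightOneSpectrum (𝓞 K), (ℓ : 𝓞 K) ∈ q.asIdeal → ¬ MP_1a91b9_ntT3.Ram F q := by
  induction h with
  | base F hb => exact fun q hq => not_ram_of_unr (hP F hb).unr hℓ.ne_zero q hq
  | step F F' hG hr hu ha h ih =>
    intro q hq
    refine MP_1a91b9_ntT3.S8.not_ram_tower (F := F) q (ih q hq) fun v hv => hu v ?_
    subst hv
    rw [mem_below, map_natCast] at hq
    exact hq

omit h5 in
theorem uq_tower (h : TowerG P ℓ F) : Ell.UQ ℓ F :=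
  MP_1a91b9_ntT3.S8.uq_of_unram ℓ hℓ F fun v hv => unr_tower hℓ hP h v hv

theorem valueProp_tower (h : TowerG P ℓ F) : ValueProp 3 ℓ Om F := by
  have h3 : ℓ ≠ 3 := by omega
  have hom : IsCoprime omO (ℓ : 𝓞 K) := by
    have h := (Ell.kq_om hℓ h3 1 (by norm_num)).1
    rwa [pow_one] at h
  have hle : ∀ 𝔪 : Ideal (𝓞 F), 𝔪 ≤ Ideal.span {up 3 F} → 𝔪 ≤ Ideal.span {(3 : 𝓞 F)} := by
    intro 𝔪 h
    rwa [up, map_ofNat] at h
  exact valueProp_gen hℓ 3 Om (fun A hA k hk z hz => Ell.d3_mem hℓ A hA k hk z hz) omO hom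
    (Ell.kq_om hℓ h3 _ (not_three_dvd hℓ h5 hP h)).2 (uq_tower hℓ hP h)
    (fun 𝔪 hm u hu => un_norm 𝔪 (hle 𝔪 hm) u hu)
    (fun 𝔪 hm u hu k hk huk => un_tors 𝔪 (hle 𝔪 hm) u hu k hk huk)

theorem unitProp_tower (h : TowerG P ℓ F) : UnitProp 3 ℓ Om F := by
  have hp : Fact ℓ.Prime := ⟨hℓ⟩
  induction h with
  | base F h => exact (hP F h).unit
  | step F F' hG hr hu ha h ih =>
    obtain ⟨x, -, hx1, hx2⟩ := CF.reciprocity F F' ℓ (by omega) hr fun v hv h3v =>
      hu v h3v ((ram_eq v).mpr hv)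
    have hx := cfData_of hℓ hr x hx1 hx2
    refine step_main hr x hx (three_coprime hℓ h5) (fun v hv h1 => hu v h1 hv) ?_
      (valueProp_tower hℓ h5 hP h) (valueProp_tower hℓ h5 hP (TowerG.step F F' hG hr hu ha h)) ih
    intro v hv h3
    exact ha v hv fun hm => h3 (by rwa [MP_1a91b9_ntG.up, map_ofNat])

/-- the series of `F` continues and does not vanish at `1` -/
theorem lgood_tower (h : TowerG P ℓ F) : DW.LGood F := by
  obtain ⟨L, hL, hL1, hLW⟩ := unitProp_tower hℓ h5 hP h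
  obtain ⟨W, hW⟩ := Ell.d3_exists hℓ
  exact ⟨L, hL, hL1, S4.UnitProp.ne_zero (hLW W hW)⟩

/-- the analytic continuation of the `L`-series over the fields of the tower, and its value at `1` -/
theorem analytic (h : TowerG P ℓ F) :
    ∃ g : ℂ → ℂ, Differentiable ℂ g ∧ (∀ s : ℂ, 3 / 2 < s.re → g s = (E F).LSeries s) ∧
      g 1 ≠ 0 := by
  obtain ⟨L, hL, hL1, hne⟩ := lgood_tower hℓ h5 hP h
  have hc : NoCube3 F := noCube_tower hℓ h5 hP h
  refine ⟨fun s => (starRingEnd ℂ) (L ((starRingEnd ℂ) s)) * L s,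
    (differentiable_conj_conj hL).mul hL, S7.half_noCube3 F hc
      ((differentiable_conj_conj hL).mul hL) fun s hs => ?_, ?_⟩
  · change (starRingEnd ℂ) (L ((starRingEnd ℂ) s)) * L s = _
    rw [S4.LSeries_E hc s hs, hL1 s hs, hL1 _ (by rw [Complex.conj_re]; exact hs)]
    congr 1
    exact (S4.Lf_conj s).symm
  · change (starRingEnd ℂ) (L ((starRingEnd ℂ) 1)) * L 1 ≠ 0
    rw [map_one]
    exact mul_ne_zero ((_root_.map_ne_zero _).mpr hne) hne

end

end Pool.Agent.Lib.MP_1a91b9_ntT.TG
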