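import Pool.Agent.Lib.MP_1a91b9_ntT.TG.Unr

/-!
# Theorem G: transport to the isomorphic copies of the base field
-/

set_option autoImplicit false

namespace Pool.Agent.Lib.MP_1a91b9_ntT.TG

open NumberField IsDedekindDomain Module
open Pool.Agent.Lib.MP_1a91b9_ntT.S4 (psi)
open Pool.Agent.Lib.MP_1a91b9_ntT.S5 (below mem_below exists_above below_below)

universe u

section
variable {F₀ F : Type u} [Field F₀] [NumberField F₀] [Algebra K F₀] [Field F] [NumberField F]
  [Algebra K F] (e : F₀ ≃ₐ[K] F)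
include e

theorem unitProp_iso {ℓ : ℕ} {Ω : ℂ} (h : MP_1a91b9_ntG.UnitProp 3 ℓ Ω F₀) :
    MP_1a91b9_ntG.UnitProp 3 ℓ Ω F := by
  let alg : Algebra F F₀ := (e.symm : F →+* F₀).toAlgebra
  have hst : IsScalarTower K F F₀ := IsScalarTower.of_algebraMap_eq fun x =>
    (e.symm.commutes x).symm
  have hb : Function.Bijective (algebraMap F F₀) := e.symm.bijective
  have hG : IsGalois F F₀ := IsGalois.of_algEquiv (AlgEquiv.ofBijective (Algebra.ofId F F₀) hb)
  have h1 : finrank F F₀ = 1 :=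
    (LinearEquiv.ofBijective (Algebra.linearMap F F₀) hb).finrank_eq.symm.trans (finrank_self F)
  exact unit_one h1 h

theorem NaG.iso {ℓ : ℕ} {μ : 𝓞 K} (h : NaG ℓ μ F₀) : NaG ℓ μ F := by
  let alg : Algebra F F₀ := (e.symm : F →+* F₀).toAlgebra
  have hst : IsScalarTower K F F₀ := IsScalarTower.of_algebraMap_eq fun x =>
    (e.symm.commutes x).symm
  exact h.down

end

end Pool.Agent.Lib.MP_1a91b9_ntT.TG
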