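import Pool.Agent.Lib.MP_1a91b9_ntT.TG.Analytic
import Pool.Agent.Lib.MP_1a91b9_ntT.PL.Tower
import Pool.Agent.Lib.MP_1a91b9_ntT.DY.Top
import Pool.Agent.Lib.MP_1a91b9_ntT.DY.Main

/-!
# Theorem G, Part 8: the algebraic side of the towers
-/

set_option autoImplicit false

namespace Pool.Agent.Lib.MP_1a91b9_ntT.TG

open NumberField IsDedekindDomain WeierstrassCurve Module DB DX DS
open scoped Classical
open Pool.Agent.Lib.MP_1a91b9_ntT.PL (GoodF)

universe u

section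
variable {P : ∀ (F : Type u) [Field F] [NumberField F] [Algebra K F], Prop}
  {ϖ : 𝓞 K} {ℓ q : ℕ} (h : PD ϖ ℓ q)

/-- the Selmer group in Kummer form is trivial over the fields of the tower -/
theorem tower_alg (hP : ∀ (F : Type u) [Field F] [NumberField F] [Algebra K F], P F → BaseG ℓ F)
    (h : PD ϖ ℓ q) (F : Type u) [Field F] [NumberField F] [Algebra K F] (hF : TowerG P ℓ F) :
    VT ϖ ℓ F ∧ DT ϖ F ∧ UnrL ℓ F := by
  induction hF with
  | base F hb => exact ⟨(hP F hb).vt ϖ q h, (hP F hb).dt ϖ q h, (hP F hb).unr⟩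
  | step F F' hG hr hu ha hF ih =>
    obtain ⟨i1, i2, i3⟩ := ih
    have hu' : ∀ v : HeightOneSpectrum (𝓞 F'), v.valuation F' (ℓ : F') < 1 →
        v.asIdeal.ramificationIdx (𝓞 F) = 1 := by
      intro v hv
      by_contra hne
      refine hu (v.under (𝓞 F)) ?_ ⟨v, (MP_1a91b9_ntG.le_sq_iff rfl).mpr hne⟩
      have h1 : (v.under (𝓞 F)).valuation F (ℓ : F) < 1 := by
        rw [← val_map_lt, map_natCast]
        exact hv
      have e : algebraMap (𝓞 F) F (ℓ : 𝓞 F) = (ℓ : F) := map_natCast (algebraMap (𝓞 F) F) ℓ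
      exact ((v.under (𝓞 F)).valuation_lt_one_iff_mem (K := F) (ℓ : 𝓞 F)).1 (by
        change (v.under (𝓞 F)).valuation F (algebraMap (𝓞 F) F (ℓ : 𝓞 F)) < 1
        rw [e]
        exact h1)
    have ha' : ∀ v : HeightOneSpectrum (𝓞 F'), v.asIdeal.ramificationIdx (𝓞 F) ≠ 1 →
        (v.under (𝓞 F)).valuation F (3 : F) = 1 →
        IsCoprime (S4.psi F (v.under (𝓞 F)).asIdeal - 1) (ℓ : 𝓞 K) := by
      intro v hv h3
      refine ha (v.under (𝓞 F)) ⟨v, (MP_1a91b9_ntG.le_sq_iff rfl).mpr hv⟩ ?_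
      intro hm
      have h2 := ((v.under (𝓞 F)).valuation_lt_one_iff_mem (K := F) (3 : 𝓞 F)).2 hm
      have e : algebraMap (𝓞 F) F (3 : 𝓞 F) = (3 : F) := map_ofNat (algebraMap (𝓞 F) F) 3
      change (v.under (𝓞 F)).valuation F (algebraMap (𝓞 F) F (3 : 𝓞 F)) < 1 at h2
      rw [e, h3] at h2
      exact lt_irrefl _ h2
    have hU' := unr_step hu' i3
    exact ⟨step_VT h hr hu' ha' hU' i2 i1, step_DT h hr i2, hU'⟩

end

section
variable {P : ∀ (F : Type u) [Field F] [NumberField F] [Algebra K F], Prop}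
  {ℓ : ℕ} (h5 : 5 ≤ ℓ)
  (hP : ∀ (F : Type u) [Field F] [NumberField F] [Algebra K F], P F → BaseG ℓ F)
  (F : Type u) [Field F] [NumberField F] [Algebra K F]
include h5 hP

/-- the group of points is finite over the fields of the tower -/
theorem finite_tower (hℓ : ℓ.Prime) (h : TowerG P ℓ F) : Finite (E F).toAffine.Point := by
  obtain ⟨ϖ, q, hp⟩ := DX.exists_pd hℓ h5
  obtain ⟨h1, h2, h3⟩ := tower_alg hP hp F h
  have hfin : Finite (Pt F) := DY.top' hp h1 h3 h2
  exact (PL.pt_card F hfin).1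

/-- the fields of the tower satisfy the hypotheses of the `ℓ`-part of the formula -/
theorem goodF_tower [hℓ : Fact ℓ.Prime] (h : TowerG P ℓ F) : GoodF ℓ F := by
  obtain ⟨ϖ, q, hp⟩ := DX.exists_pd hℓ.out h5
  have hp' := pd_cj hp
  obtain ⟨h1, h2, h3⟩ := tower_alg hP hp F h
  obtain ⟨h1', h2', -⟩ := tower_alg hP hp' F h
  have hfin : Finite (Pt F) := DY.top' hp h1 h3 h2
  have hd1 := DY.exists_divisor' hp h1 h3 h2
  have hd2 := DY.exists_divisor' hp' h1' h3 h2'
  rw [cj_cj] at hd2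
  have hcop := PL.coprime_card hp hfin hd1 hd2
  obtain ⟨hf, hc⟩ := PL.pt_card F hfin
  refine ⟨h3, unitProp_tower hℓ.out h5 hP h, noCube_tower hℓ.out h5 hP h,
    PL.no_cube_two (not_three_dvd hℓ.out h5 hP h), hf, ?_, ?_⟩
  · rw [hc]
    exact hcop
  · exact DY.sha_primary' hp h3 h1 h1' h2 h2'

/-- the series and the points over the fields of the tower -/
theorem mainG (hℓ : ℓ.Prime) (h : TowerG P ℓ F) : DW.LGood F ∧ Finite (E F).toAffine.Point :=
  ⟨lgood_tower hℓ h5 hP h, finite_tower h5 hP F hℓ h⟩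

end

/-- `K` itself satisfies the hypotheses on the base field. -/
theorem baseG_bij {ℓ : ℕ} (hℓ : ℓ.Prime) (h5 : 5 ≤ ℓ) (F : Type u) [Field F] [NumberField F]
    [Algebra K F] (hb : Function.Bijective (algebraMap K F)) : BaseG ℓ F where
  n3 := DS.not_three_dvd hℓ h5 (TowerL.base F hb)
  noc := DS.noCube_tower hℓ h5 (TowerL.base F hb)
  unr := unr_base hℓ h5 F hb
  unit := DS.unitProp_tower hℓ h5 (TowerL.base F hb)
  vt := fun _ _ hp => base_VT hp F hb
  dt := fun _ _ hp => base_DT hp F hb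

end Pool.Agent.Lib.MP_1a91b9_ntT.TG
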