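import Pool.Agent.Lib.MP_1a91b9_ntT.TG.Sub
import Pool.Agent.Lib.MP_1a91b9_ntT.TG.Cnt
import Pool.Agent.Lib.MP_1a91b9_ntT.TG.Tower
import Pool.Agent.Lib.MP_1a91b9_ntT.PT.Dat

/-!
# Theorem G, Part 9: the fields inside `L`
-/

set_option autoImplicit false

namespace Pool.Agent.Lib.MP_1a91b9_ntT.TG

open NumberField IsDedekindDomain WeierstrassCurve DB DX Module IntermediateField Polynomial
open Pool.Agent.Lib.MP_1a91b9_ntT.S4 (NoCube3)
open Pool.Agent.Lib.MP_1a91b9_ntT.PT (exists_hom map_om noCube_down)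

section
variable {ℓ : ℕ} (hℓ : ℓ.Prime) (h5 : 5 ≤ ℓ) (F₀ L M : Type) [Field F₀] [NumberField F₀]
  [Algebra K F₀] (hB : ∀ (F : Type) [Field F] [NumberField F] [Algebra K F],
    Cpy F₀ F → BaseG ℓ F) [Field L] [NumberField L] [Field M] [NumberField M] [Algebra K L]
  [Algebra K M] [Algebra F₀ L] [Algebra L M] [Algebra F₀ M] [IsScalarTower K F₀ L]
  [IsScalarTower K F₀ M] [IsScalarTower F₀ L M] [IsGalois F₀ M] (n : ℕ)
  (hM : finrank F₀ M = ℓ ^ n) (hL : RamG ℓ F₀ L)
include hℓ hM hL

/-- The fields between `F₀` and `L` are in the tower. -/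
theorem tower_sub (F : Type) [Field F] [NumberField F] [Algebra K F] [Algebra F₀ F] [Algebra F L]
    [IsScalarTower K F₀ F] [IsScalarTower F₀ F L] : TowerG (Cpy F₀) ℓ F := by
  let aFM : Algebra F M := ((algebraMap L M).comp (algebraMap F L)).toAlgebra
  have t1 : IsScalarTower F₀ F M := IsScalarTower.of_algebraMap_eq fun x => by
    change algebraMap F₀ M x = algebraMap L M (algebraMap F L (algebraMap F₀ F x))
    rw [← IsScalarTower.algebraMap_apply F₀ F L, ← IsScalarTower.algebraMap_apply F₀ L M]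
  exact towerG_of_galois (M := M) hℓ F n hM fun v hv => hL v (MP_1a91b9_ntT3.S8.ram_up v hv)

include h5 hB

/-- The conclusion over a subfield `N` of `L` which contains `K`. -/
theorem good_of_K {μ : 𝓞 K} (L' : Type) [Field L'] [NumberField L'] [Algebra K L']
    [Algebra F₀ L'] [IsScalarTower K F₀ L'] [IsGalois K L'] [DecidableEq L'] {T : Pt L'}
    (hT : AbT μ K T) (N : Type) [Field N] [NumberField N] [Algebra K N] [Algebra N L]
    [IsScalarTower K N L] : NoCube3 N ∧ DW.LGood N ∧ Finite (E N).toAffine.Point := by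
  let F : IntermediateField N L := IntermediateField.adjoin N (Set.range (algebraMap F₀ L))
  have hmem : ∀ x : F₀, algebraMap F₀ L x ∈ F := fun x => subset_adjoin N _ ⟨x, rfl⟩
  let aF₀F : Algebra F₀ F :=
    ((algebraMap F₀ L).codRestrict F.toSubalgebra.toSubring hmem).toAlgebra
  have hc : ∀ x : F₀, ((algebraMap F₀ F x : F) : L) = algebraMap F₀ L x := fun x => rfl
  have t1 : IsScalarTower F₀ F L := IsScalarTower.of_algebraMap_eq fun x => rfl
  have t2 : IsScalarTower K F L := IsScalarTower.of_algebraMap_eq fun x => rfl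
  have t3 : IsScalarTower K F₀ F := IsScalarTower.of_algebraMap_eq fun x => Subtype.ext (by
    rw [hc, ← IsScalarTower.algebraMap_apply K F₀ L]
    rfl)
  have t4 : IsScalarTower K N F := IsScalarTower.of_algebraMap_eq fun x => Subtype.ext (by
    change algebraMap K L x = algebraMap N L (algebraMap K N x)
    exact IsScalarTower.algebraMap_apply K N L x)
  have hT' := tower_sub hℓ F₀ L M n hM hL F
  have hg := lgood_tower hℓ h5 (fun F _ _ _ h => hB F h) hT'
  have hf := finite_tower h5 (fun F _ _ _ h => hB F h) F hℓ hT'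
  have hnc := noCube_tower hℓ h5 (fun F _ _ _ h => hB F h) hT'
  have h3 := not_three_dvd hℓ h5 (fun F _ _ _ h => hB F h) hT'
  have hgen : IntermediateField.adjoin N (Set.range (algebraMap F₀ F)) = ⊤ := by
    have h1 : F.val '' (Set.range (algebraMap F₀ F)) = Set.range (algebraMap F₀ L) := by
      ext y
      constructor
      · rintro ⟨_, ⟨x, rfl⟩, rfl⟩
        exact ⟨x, rfl⟩
      · rintro ⟨x, rfl⟩
        exact ⟨_, ⟨x, rfl⟩, rfl⟩
    have h2 : (IntermediateField.adjoin N (Set.range (algebraMap F₀ F))).map F.val = F := by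
      rw [adjoin_map, h1]
    rw [eq_top_iff]
    intro y _
    have h4 : (y : L) ∈ (IntermediateField.adjoin N (Set.range (algebraMap F₀ F))).map F.val := by
      rw [h2]
      exact y.2
    obtain ⟨z, hz, hzy⟩ := h4
    have h5 : z = y := Subtype.ext hzy
    rw [← h5]
    exact hz
  refine ⟨noCube_down (M := F) hnc, lgood_sub N F F₀ L' hT hgen h3 hg, ?_⟩
  refine TW.finite_iso (M := F) (E N) 1 ?_ hf
  rw [one_smul]
  ext <;> simp [E]

/-- What is needed about the subfields of `L`. -/
theorem dat_G {μ : 𝓞 K} (L' : Type) [Field L'] [NumberField L'] [Algebra K L']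
    [Algebra F₀ L'] [IsScalarTower K F₀ L'] [IsGalois K L'] [DecidableEq L'] {T : Pt L'}
    (hT : AbT μ K T) (N : Type) [Field N] [NumberField N] [Algebra N L] :
    NoCube3 N ∧ DW.Dat N := by
  by_cases hN : ∃ x : N, algebraMap N L x = algebraMap K L om
  · obtain ⟨x, hx⟩ := hN
    have hx2 : x ^ 2 + x + 1 = 0 := by
      apply (algebraMap N L).injective
      rw [map_add, map_add, map_pow, map_one, map_zero, hx]
      exact map_om
    obtain ⟨f, hf⟩ := exists_hom hx2
    let aKN : Algebra K N := f.toAlgebra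
    have hst : IsScalarTower K N L := IsScalarTower.of_algebraMap_eq' (by
      apply S4.embedding_ext
      change algebraMap K L om = algebraMap N L (f om)
      rw [hf, hx])
    obtain ⟨h1, h2, h3⟩ := good_of_K hℓ h5 F₀ L M hB n hM hL L' hT N
    exact ⟨h1, Or.inl ⟨aKN, h2, h3⟩⟩
  · let F : IntermediateField N L := N⟮algebraMap K L om⟯
    have hwF : algebraMap K L om ∈ F := mem_adjoin_simple_self N _
    have hw2 : (⟨algebraMap K L om, hwF⟩ : F) ^ 2 + ⟨algebraMap K L om, hwF⟩ + 1 = 0 :=
      Subtype.ext map_om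
    obtain ⟨f, hf⟩ := exists_hom hw2
    let aKF : Algebra K F := f.toAlgebra
    have hst : IsScalarTower K F L := IsScalarTower.of_algebraMap_eq' (by
      apply S4.embedding_ext
      change algebraMap K L om = ((f om : F) : L)
      rw [hf])
    have hint : IsIntegral N (algebraMap K L om) := Algebra.IsIntegral.isIntegral _
    obtain ⟨h1, h2, h3⟩ := good_of_K hℓ h5 F₀ L M hB n hM hL L' hT F
    refine ⟨noCube_down (M := F) h1, Or.inr ⟨F, inferInstance, inferInstance, inferInstance, aKF,
      ?_, ?_, h2, h3⟩⟩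
    · have h1 : finrank N F = (minpoly N (algebraMap K L om)).natDegree :=
        adjoin.finrank hint
      rw [h1]
      have hdvd : minpoly N (algebraMap K L om) ∣ (X ^ 2 + X + 1 : N[X]) := by
        apply minpoly.dvd
        rw [map_add, map_add, map_pow, aeval_X, map_one, map_om]
      have hdeg : (X ^ 2 + X + 1 : N[X]).natDegree = 2 := by compute_degree!
      have hne : (X ^ 2 + X + 1 : N[X]) ≠ 0 := by
        intro h0
        rw [h0, natDegree_zero] at hdeg
        omega
      have hle := natDegree_le_of_dvd hdvd hne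
      rw [hdeg] at hle
      have hpos := minpoly.natDegree_pos hint
      have hne1 : (minpoly N (algebraMap K L om)).natDegree ≠ 1 := by
        intro h2
        exact hN (minpoly.natDegree_eq_one_iff.1 h2)
      omega
    · intro x hx
      apply hN
      refine ⟨x, ?_⟩
      have h1 := congrArg (algebraMap F L) hx
      rw [← IsScalarTower.algebraMap_apply, ← IsScalarTower.algebraMap_apply] at h1
      exact h1

end

/-- The conclusion for the curves isomorphic to `E` or to its twist by `-3`. -/
theorem concl_of_dat {N : Type} [Field N] [NumberField N] (hN : NoCube3 N) (hdat : DW.Dat N)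
    (W : WeierstrassCurve N)
    (hW : (∃ D : WeierstrassCurve.VariableChange N, D • W = E N) ∨
      ∃ D : WeierstrassCurve.VariableChange N, D • W = TW.tw (-3 : N)) :
    (∃ g : ℂ → ℂ, Differentiable ℂ g ∧ (∀ s : ℂ, 3 / 2 < s.re → g s = W.LSeries s) ∧ g 1 ≠ 0) ∧
      Finite W.toAffine.Point := by
  rcases hdat with ⟨_, hg, hf⟩ | ⟨F, _, _, _, _, hL, hn, hg, hf⟩
  · rcases hW with ⟨D, hD⟩ | ⟨D, hD⟩
    · exact DW.concl_K hN hg hf W D hD
    · have hz : (2 * algebraMap K N om + 1) ^ 2 = -3 := TW.om_of_sqrt _ rfl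
      have hz0 : (2 * algebraMap K N om + 1 : N) ≠ 0 := by
        intro h0
        rw [h0, zero_pow two_ne_zero] at hz
        norm_num at hz
      obtain ⟨D', hD'⟩ := TW.exists_iso_sq (2 * algebraMap K N om + 1 : N) hz0
      rw [hz] at hD'
      exact DW.concl_K hN hg hf W (D' * D) (by rw [mul_smul, hD, hD'])
  · exact DW.concl_N hL hn hN hg hf W hW

end Pool.Agent.Lib.MP_1a91b9_ntT.TG
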