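import Pool.Agent.Lib.MP_1a91b9_ntT.DS.Tower
import Pool.Agent.Lib.MP_1a91b9_ntT.DS.Analytic
import Pool.Agent.Lib.MP_1a91b9_ntT.DX.Cj

/-!
# Theorem G, Part 8: towers over a general base field (definitions)

`TowerG P ℓ F`: `F` is obtained from a field with the property `P` by successive Galois extensions
of degree `ℓ`, unramified above `ℓ`, in which only places above `3` and non-anomalous places
ramify. `BaseG ℓ F`: what is needed of the base field (the output of Parts 1 to 7).
-/

set_option autoImplicit false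

namespace Pool.Agent.Lib.MP_1a91b9_ntT.TG

open NumberField IsDedekindDomain WeierstrassCurve DB DX DS
open Pool.Agent.Lib.MP_1a91b9_nt
open Pool.Agent.Lib.MP_1a91b9_ntG

universe u

/-- The towers over the fields with property `P`. -/
inductive TowerG (P : ∀ (F : Type u) [Field F] [NumberField F] [Algebra K F], Prop) (ℓ : ℕ) :
    ∀ (F : Type u) [Field F] [NumberField F] [Algebra K F], Prop
  | base (F : Type u) [Field F] [NumberField F] [Algebra K F] (h : P F) : TowerG P ℓ F
  | step (F F' : Type u) [Field F] [NumberField F] [Algebra K F] [Field F'] [NumberField F']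
      [Algebra K F'] [Algebra F F'] [IsScalarTower K F F'] (hG : IsGalois F F')
      (hr : Module.finrank F F' = ℓ)
      (hu : ∀ v : HeightOneSpectrum (𝓞 F), (ℓ : 𝓞 F) ∈ v.asIdeal → ¬ MP_1a91b9_ntG.Ram F' v)
      (ha : ∀ v : HeightOneSpectrum (𝓞 F), MP_1a91b9_ntG.Ram F' v → (3 : 𝓞 F) ∉ v.asIdeal →
        IsCoprime (S4.psi F v.asIdeal - 1) (ℓ : 𝓞 K))
      (h : TowerG P ℓ F) : TowerG P ℓ F'

/-- The property of the base field: the `ℓ`-part of the Birch and Swinnerton-Dyer conjecture for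
`y² + y = x³` over `F` in the form used by the tower. -/
structure BaseG (ℓ : ℕ) (F : Type u) [Field F] [NumberField F] [Algebra K F] : Prop where
  n3 : ¬ 3 ∣ Module.finrank K F
  noc : S4.NoCube3 F
  unr : UnrL ℓ F
  unit : UnitProp 3 ℓ Om F
  vt : ∀ (ϖ : 𝓞 K) (q : ℕ), PD ϖ ℓ q → VT ϖ ℓ F
  dt : ∀ (ϖ : 𝓞 K) (q : ℕ), PD ϖ ℓ q → DT ϖ F

end Pool.Agent.Lib.MP_1a91b9_ntT.TG
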