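import Pool.Agent.Lib.MP_1a91b9_ntT.DX.DecB
import Pool.Agent.Lib.MP_1a91b9_ntT.DS.Frob
import Pool.Agent.Lib.MP_1a91b9_ntT.TG.Cpy

/-!
# Theorem G: the decomposition groups over the base field

`dt_base`: the decomposition groups at the places above `3` are not trivial if the valuation of `3` is
not a cube at the places of the base field above `3`. `dtb_base`: the places above the conjugate
prime.
-/

set_option autoImplicit false

namespace Pool.Agent.Lib.MP_1a91b9_ntT.TG

open NumberField IsDedekindDomain WeierstrassCurve DB DX Pool.Agent.Lib.MP_1a91b9_nt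
open Pool.Agent.Lib.MP_1a91b9_ntT.S4 (NoCube3 psi)

universe u

open scoped Pointwise in
/-- trivial decomposition group: unramified of degree one -/
private theorem dt_ef {k N : Type u} [Field k] [NumberField k] [Field N] [NumberField N]
    [Algebra k N] [IsGalois k N] (v : HeightOneSpectrum (𝓞 N))
    (hst : ∀ σ : Gal(N/k), gpl σ v = v → σ = 1) :
    v.asIdeal.ramificationIdx (𝓞 k) = 1 ∧ v.asIdeal.inertiaDeg (𝓞 k) = 1 := by
  have i1 : v.asIdeal.IsPrime := v.isPrime
  have i2 : (v.under (𝓞 k)).asIdeal.IsPrime := (v.under (𝓞 k)).isPrime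
  have i3 : (v.under (𝓞 k)).asIdeal.IsMaximal := (v.under (𝓞 k)).isMaximal
  have i4 : v.asIdeal.LiesOver (v.under (𝓞 k)).asIdeal := ⟨rfl⟩
  have i5 : Finite (v.under (𝓞 k)).asIdeal.ResidueField := by
    have j1 : Finite (𝓞 k ⧸ (v.under (𝓞 k)).asIdeal) :=
      Ideal.finiteQuotientOfFreeOfNeBot _ (v.under (𝓞 k)).ne_bot
    exact Finite.of_surjective _
      (Ideal.bijective_algebraMap_quotient_residueField (v.under (𝓞 k)).asIdeal).2
  have h1 := Ideal.card_stabilizer_eq (G := Gal(N/k)) (v.under (𝓞 k)).asIdeal v.asIdeal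
  have h2 : Nat.card (MulAction.stabilizer Gal(N/k) v.asIdeal) = 1 := by
    rw [Nat.card_eq_one_iff_unique]
    refine ⟨⟨?_⟩, ⟨1⟩⟩
    have hone : ∀ g : MulAction.stabilizer Gal(N/k) v.asIdeal, g.1 = 1 := by
      rintro ⟨g, hg⟩
      change g = 1
      apply hst
      apply HeightOneSpectrum.ext
      rw [MulAction.mem_stabilizer_iff] at hg
      conv_rhs => rw [← hg]
      rw [Ideal.pointwise_smul_eq_comap]
      rfl
    intro a b
    exact Subtype.ext ((hone a).trans (hone b).symm)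
  rw [h2, Ideal.ramificationIdxIn_eq_ramificationIdx _ v.asIdeal Gal(N/k),
    Ideal.inertiaDegIn_eq_inertiaDeg _ v.asIdeal Gal(N/k)] at h1
  exact ⟨Nat.eq_one_of_mul_eq_one_right h1.symm, Nat.eq_one_of_mul_eq_one_left h1.symm⟩

section
variable {F : Type*} [Field F] [Algebra K F] [DecidableEq F] {Γ : Type*}
  [LinearOrderedCommGroupWithZero Γ] (v : Valuation F Γ)

private theorem dtv_cop (h3 : v (3 : F) < 1) {n : ℕ} (hn : v (n : F) = 1) : n.Coprime 3 := by
  rw [Nat.coprime_comm, Nat.Prime.coprime_iff_not_dvd Nat.prime_three]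
  rintro ⟨k, rfl⟩
  have h1 := v_nat_le v k
  rw [Nat.cast_mul, map_mul] at hn
  have h2 : v ((3 : ℕ) : F) < 1 := by exact_mod_cast h3
  have h4 : v ((3 : ℕ) : F) * v (k : F) ≤ v ((3 : ℕ) : F) * 1 := mul_le_mul' le_rfl h1
  rw [hn, mul_one] at h4
  exact absurd (lt_of_le_of_lt h4 h2) (lt_irrefl _)

private theorem dtv_tors {n : ℕ} (h : n.Coprime 3) {P : Pt F} (hP : n • P = 0)
    (h3 : 3 • P = 0) : P = 0 := by
  have h1 := addOrderOf_dvd_of_nsmul_eq_zero hP
  have h2 := addOrderOf_dvd_of_nsmul_eq_zero h3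
  have h4 : addOrderOf P ∣ Nat.gcd n 3 := Nat.dvd_gcd h1 h2
  rw [Nat.Coprime.gcd_eq_one h] at h4
  exact AddMonoid.addOrderOf_eq_one_iff.mp (Nat.dvd_one.mp h4)

private theorem dtv_sub {P : Pt F} (hP : P ≠ 0) (hx : xc P ≠ 0) :
    P - omH F P ≠ 0 ∧ xc (P - omH F P) * (3 * xc P ^ 2) = -(omF F ^ 2 * (xc P ^ 3 + 1)) := by
  obtain ⟨x, y, h, rfl⟩ := (cases_pt P).resolve_left hP
  rw [xc_mk] at hx
  have hh : y ^ 2 + y = (omF F * x) ^ 3 := by linear_combination h - x ^ 3 * omF_cube F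
  have e1 : omH F (mkPt x y h) = mkPt (omF F * x) y hh := rfl
  have hne : x ≠ omF F * x := by
    intro e
    have h0 : (1 - omF F) * x = 0 := by linear_combination e
    rcases mul_eq_zero.mp h0 with h1 | h1
    · exact omF_ne_one F (by linear_combination -h1)
    · exact hx h1
  rw [e1, sub_eq_add_neg, neg_mk]
  obtain ⟨h', e2⟩ := mk_add x y (omF F * x) (-y - 1) h (by linear_combination hh) hne
  rw [e2, xc_mk, xc_mk]
  refine ⟨mk_ne_zero _ _ _, ?_⟩
  have hD : x - omF F * x ≠ 0 := sub_ne_zero.mpr hne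
  obtain ⟨A, hA⟩ : ∃ A : F, A = ((y - (-y - 1)) / (x - omF F * x)) ^ 2 - x - omF F * x := ⟨_, rfl⟩
  rw [← hA]
  have hAD : A * (x - omF F * x) ^ 2 =
      (2 * y + 1) ^ 2 - (x + omF F * x) * (x - omF F * x) ^ 2 := by
    rw [hA]
    generalize x - omF F * x = D at hD
    field_simp
    ring
  have hD2 : (x - omF F * x) ^ 2 = -3 * omF F * x ^ 2 := by
    linear_combination x ^ 2 * omF_quad F
  rw [hD2] at hAD
  have hy : (2 * y + 1) ^ 2 = 4 * x ^ 3 + 1 := by linear_combination 4 * h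
  linear_combination (-omF F ^ 2) * hAD - omF F ^ 2 * hy - 3 * A * x ^ 2 * omF_cube F -
    3 * x ^ 3 * omF F ^ 2 * omF_quad F

private theorem dtv_sm {n : ℕ} {P : Pt F} (hP : n • P = 0) : n • (P - omH F P) = 0 := by
  rw [nsmul_sub, hP, ← map_nsmul, hP, map_zero, sub_zero]

private theorem dtv_x (h3 : v (3 : F) < 1) {n : ℕ} (hn : v (n : F) = 1) {P : Pt F}
    (hP : n • P = 0) (hP0 : P ≠ 0) : xc P ≠ 0 ∧ v (xc P) ≤ 1 := by
  refine ⟨fun hx => hP0 ?_, (not_ker v (fun hk => hP0 (ker_tors v hk n hn hP))).2.1⟩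
  have h1 : omH F P = P := by
    refine pt_ext ?_ hP0 ?_ (yc_omH P)
    · intro h0
      have h5 := omH_quad P
      rw [h0, map_zero, zero_add, zero_add] at h5
      exact hP0 h5
    · rw [xc_omH, hx, mul_zero]
  have h2 : 3 • P = 0 := by
    have h4 := omH_quad P
    rw [h1, h1] at h4
    rw [← h4]
    abel
  exact dtv_tors (dtv_cop v h3 hn) hP h2

/-- at a place above `3` the valuation of `3` is the cube of the one of `x + 1` -/
theorem cube_three (h3 : v (3 : F) < 1) {n : ℕ} (hn : v (n : F) = 1) {P : Pt F} (hP : n • P = 0)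
    (hP0 : P ≠ 0) : v (xc P + 1) ^ 3 = v (3 : F) := by
  obtain ⟨hx, hvx⟩ := dtv_x v h3 hn hP hP0
  obtain ⟨hs0, hs⟩ := dtv_sub hP0 hx
  have hc := cusp v h3 hn hP hP0
  have hc1 := cusp v h3 hn (dtv_sm hP) hs0
  have hvo : v (omF F) = 1 := v_om v
  have hone : ∀ a : F, v (a + 1) < 1 → v a = 1 := by
    intro a ha
    have h1 : a = (a + 1) - 1 := by ring
    rw [h1, Valuation.map_sub_eq_of_lt_right v (by rw [map_one]; exact ha), map_one]
  have hx1 : v (xc P) = 1 := hone _ hc
  have hx2 : v (xc (P - omH F P)) = 1 := hone _ hc1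
  have h4 : v (xc P ^ 3 + 1) = v (3 : F) := by
    have h5 := congrArg v hs
    rw [Valuation.map_neg, map_mul, map_mul, map_mul, map_pow, map_pow, hvo, hx1, hx2, one_pow,
      one_mul, one_mul, mul_one] at h5
    exact h5.symm
  have h30 : v (3 : F) ≠ 0 := (Valuation.ne_zero_iff v).2 three_ne
  rw [← map_pow]
  have h8 : (xc P + 1) ^ 3 = (xc P ^ 3 + 1) + 3 * (xc P * (xc P + 1)) := by ring
  rw [h8, Valuation.map_add_eq_of_lt_left v, h4]
  rw [h4, map_mul, map_mul, hx1, one_mul]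
  calc v (3 : F) * v (xc P + 1) < v (3 : F) * 1 := by
        exact mul_lt_mul_of_pos_left hc (zero_lt_iff.2 h30)
    _ = v (3 : F) := mul_one _

end

/-- **The decomposition groups at the places above `3`.** -/
theorem dt_base {ϖ : 𝓞 K} {ℓ q : ℕ} (h : PD ϖ ℓ q) (F : Type u) [Field F] [NumberField F]
    [Algebra K F] (hc : NoCube3 F) : DT ϖ F := by
  intro N _ _ _ _ _ _ _ P hF v hv
  by_contra hcon
  push Not at hcon
  obtain ⟨he, -⟩ := dt_ef (k := F) v (fun σ hσ => by
    by_contra h1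
    exact hcon σ h1 hσ)
  have hvk : (v.under (𝓞 F)).valuation F (3 : F) < 1 := by
    rw [← val_map_lt, map_ofNat]
    exact hv
  have hl1 : v.valuation N (ℓ : N) = 1 := by
    have h1 : v.valuation N (ℓ : N) ≤ 1 := by
      have h2 : v.valuation N (algebraMap (𝓞 N) N (ℓ : 𝓞 N)) ≤ 1 := v.valuation_le_one _
      rwa [map_natCast] at h2
    refine le_antisymm h1 ?_
    by_contra h2
    push Not at h2
    have hcop : Nat.Coprime 3 ℓ := by
      rw [Nat.coprime_primes Nat.prime_three h.hl]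
      have := h.five
      omega
    have hcop' : IsCoprime (3 : ℤ) (ℓ : ℤ) := by
      have := Nat.isCoprime_iff_coprime.2 hcop
      exact_mod_cast this
    obtain ⟨a, b, hab⟩ := hcop'
    have h3 : (a : N) * 3 + b * ℓ = 1 := by exact_mod_cast congrArg (Int.cast : ℤ → N) hab
    have hint : ∀ c : ℤ, v.valuation N (c : N) ≤ 1 := by
      intro c
      have h4 : v.valuation N (algebraMap (𝓞 N) N (c : 𝓞 N)) ≤ 1 := v.valuation_le_one _
      rwa [map_intCast] at h4
    have h4 : v.valuation N ((a : N) * 3 + b * ℓ) < 1 := by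
      refine (v.valuation N).map_add_lt ?_ ?_
      · rw [map_mul]
        exact mul_lt_one_of_nonneg_of_lt_one_right (hint a) zero_le hv
      · rw [map_mul]
        exact mul_lt_one_of_nonneg_of_lt_one_right (hint b) zero_le h2
    rw [h3, map_one] at h4
    exact lt_irrefl _ h4
  have hq1 : v.valuation N (q : N) = 1 := by
    rcases h.alt with h1 | h1
    · rw [h1, hl1]
    · rw [h1]
      push_cast
      rw [map_pow, hl1, one_pow]
  have hqP : q • P = 0 := by
    rw [← sm_nat, hF.ord]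
    have h1 := Ideal.absNorm_mem (Ideal.span {ϖ})
    rw [h.norm, Ideal.mem_span_singleton] at h1
    exact h1
  have hP0 : P ≠ 0 := by
    rintro rfl
    have h1 : sm N (1 : 𝓞 K) (0 : Pt N) = 0 := map_zero _
    rw [hF.ord] at h1
    exact h.prime.not_isUnit (isUnit_of_dvd_one h1)
  have h1 := cube_three (v.valuation N) hv hq1 hqP hP0
  have h3m : (3 : 𝓞 F) ∈ (v.under (𝓞 F)).asIdeal := by
    have e : ((3 : 𝓞 F) : F) = 3 := map_ofNat (algebraMap (𝓞 F) F) 3
    refine ((v.under (𝓞 F)).valuation_lt_one_iff_mem (K := F) (3 : 𝓞 F)).1 ?_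
    exact (congrArg (fun z => (v.under (𝓞 F)).valuation F z < 1) e).mpr hvk
  have hod3 : od v (3 : N) = od (v.under (𝓞 F)) (3 : F) := by
    have h2 := od_map (k := F) v (3 : F)
    rw [map_ofNat, he, Nat.cast_one, one_mul] at h2
    exact h2
  have h30 : (v.under (𝓞 F)).valuation F (3 : F) ≠ 0 :=
    (Valuation.ne_zero_iff _).2 (by norm_num)
  have h30N : v.valuation N (3 : N) ≠ 0 := (Valuation.ne_zero_iff _).2 (by norm_num)
  refine hc (v.under (𝓞 F)) h3m (v.valuation N (xc P + 1)) ?_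
  rw [h1]
  have h2 : WithZero.log (v.valuation N (3 : N)) =
      WithZero.log ((v.under (𝓞 F)).valuation F (3 : F)) := by
    unfold od at hod3
    omega
  rw [← WithZero.exp_log h30N, ← WithZero.exp_log h30, h2]

/-- a place above `W` -/
private theorem dt_over {N L : Type u} [Field N] [NumberField N] [Field L] [NumberField L]
    [Algebra N L] (W : HeightOneSpectrum (𝓞 N)) :
    ∃ W' : HeightOneSpectrum (𝓞 L), W'.under (𝓞 N) = W := by
  have i3 : W.asIdeal.IsPrime := W.isPrime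
  obtain ⟨Q, hQ1, hQ2⟩ := (inferInstance : Nonempty (W.asIdeal.primesOver (𝓞 L)))
  have hb : Q ≠ ⊥ := Ideal.ne_bot_of_mem_primesOver W.ne_bot ⟨hQ1, hQ2⟩
  refine ⟨⟨Q, hQ1, hb⟩, ?_⟩
  apply HeightOneSpectrum.ext
  exact hQ2.over.symm

/-- congruence of products -/
private theorem dt_prod {F : Type*} [Field F] {Γ : Type*} [LinearOrderedCommGroupWithZero Γ]
    (v : Valuation F Γ) {ι : Type*} (s : Finset ι) (f : ι → F) (c : F) (hc : v c ≤ 1)
    (h : ∀ a ∈ s, v (f a - c) < 1) : v (∏ a ∈ s, f a - c ^ s.card) < 1 := by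
  classical
  have hle : ∀ t : Finset ι, t ⊆ s → v (∏ a ∈ t, f a) ≤ 1 := by
    intro t ht
    rw [map_prod]
    refine Finset.prod_le_one' fun a ha => ?_
    have h1 := h a (ht ha)
    have h2 : f a = (f a - c) + c := by ring
    rw [h2]
    exact v.map_add_le h1.le hc
  induction s using Finset.induction_on with
  | empty => simp
  | insert a s ha ih =>
    rw [Finset.prod_insert ha, Finset.card_insert_of_notMem ha]
    have h1 := ih (fun b hb => h b (Finset.mem_insert_of_mem hb))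
      (fun t ht => hle t (ht.trans (Finset.subset_insert a s)))
    have h2 := h a (Finset.mem_insert_self a s)
    have e : f a * ∏ x ∈ s, f x - c ^ (s.card + 1) =
        (f a - c) * ∏ x ∈ s, f x + c * (∏ x ∈ s, f x - c ^ s.card) := by ring
    rw [e]
    refine v.map_add_lt ?_ ?_
    · rw [map_mul]
      exact (mul_le_of_le_one_right' (hle s (Finset.subset_insert a s))).trans_lt h2
    · rw [map_mul]
      exact (mul_le_of_le_one_left' hc).trans_lt h1

/-- `3` is a unit at the places above a prime element of degree one -/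
theorem dt_three' {N : Type u} [Field N] [NumberField N] [Algebra K N] [DecidableEq N]
    {Γ : Type*} [LinearOrderedCommGroupWithZero Γ] (v : Valuation N Γ) {β : 𝓞 K} {p : ℕ}
    (h : Deg1 β p) (hW : v (algebraMap K N (β : K)) < 1) : v (3 : N) = 1 := by
  obtain ⟨g, hg⟩ := (h.dvd_int_iff p).2 dvd_rfl
  have hvp : v ((p : ℕ) : N) < 1 := by
    have e1 : ((p : ℕ) : N) = algebraMap K N (β : K) * algebraMap K N (g : K) := by
      have e2 := congrArg (fun z : 𝓞 K => algebraMap K N (z : K)) hg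
      simpa using e2
    rw [e1, map_mul]
    calc v (algebraMap K N (β : K)) * v (algebraMap K N (g : K))
        ≤ v (algebraMap K N (β : K)) * 1 := by gcongr; exact v_alg_le v g
      _ < 1 := by rw [mul_one]; exact hW
  have cop : ∀ m : ℕ, v ((m : ℕ) : N) < 1 → m.Coprime p → False := by
    intro m hm hc
    have h1 : (1 : N) = (m : N) * ((Nat.gcdA m p : ℤ) : N) + (p : N) * ((Nat.gcdB m p : ℤ) : N) := by
      have := Nat.gcd_eq_gcd_ab m p
      rw [hc.gcd_eq_one] at this
      exact_mod_cast this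
    have h2 : v (1 : N) < 1 := by
      conv_lhs => rw [h1]
      refine Valuation.map_add_lt _ ?_ ?_
      · rw [map_mul]
        calc v (m : N) * v ((Nat.gcdA m p : ℤ) : N) ≤ v (m : N) * 1 := by
              gcongr; exact v_int_le v _
          _ < 1 := by rw [mul_one]; exact hm
      · rw [map_mul]
        calc v (p : N) * v ((Nat.gcdB m p : ℤ) : N) ≤ v (p : N) * 1 := by
              gcongr; exact v_int_le v _
          _ < 1 := by rw [mul_one]; exact hvp
    rw [map_one] at h2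
    exact lt_irrefl _ h2
  have hp3 : Nat.Coprime 3 p := by
    rw [Nat.Prime.coprime_iff_not_dvd Nat.prime_three, Nat.dvd_iff_mod_eq_zero, h.mod_three]
    norm_num
  refine le_antisymm (by exact_mod_cast v_nat_le v 3) (not_lt.1 fun h1 => ?_)
  exact cop 3 (by exact_mod_cast h1) hp3
section
variable {N : Type u} [Field N] [NumberField N] [Algebra K N] [DecidableEq N] {β : 𝓞 K} {p : ℕ}
  (h : Deg1 β p) (W : HeightOneSpectrum (𝓞 N))
  (hW : W.valuation N (algebraMap K N (β : K)) < 1)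
include h hW

theorem pow_frob_ker {Q : Pt N} (hK : ¬ Ker (W.valuation N) Q)
    (hK' : ¬ Ker (W.valuation N) (sm N β Q)) (hQ0 : yc Q ≠ 0) (hQ2 : yc (sm N β Q) ≠ 0) :
    W.valuation N (yc (sm N β Q) - yc Q ^ p) < 1 := by
  classical
  have hQ1 : sm N β Q ≠ 0 := fun e => hK' (Or.inl e)
  obtain ⟨L, iF, iNF, iKL, _, iNL, _, iT, _, _, _, R, hR, _⟩ := exists_ext N N h.isPrime h.one
  obtain ⟨W', hW'⟩ := dt_over (L := L) W
  set v' := W'.valuation L with hv'
  have mlt : ∀ a : N, v' (algebraMap N L a) < 1 ↔ W.valuation N a < 1 := fun a => by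
    rw [hv', val_map_lt, hW']
  have mle : ∀ a : N, v' (algebraMap N L a) ≤ 1 ↔ W.valuation N a ≤ 1 := fun a => by
    rw [hv', val_map_le, hW']
  let f : N →ₐ[K] L := IsScalarTower.toAlgHom K N L
  have hf : ∀ a : N, f a = algebraMap N L a := fun a => rfl
  obtain ⟨g⟩ := exists_emb L
  have hRβ : sm L β R = 0 := (hR β).2 dvd_rfl
  have hR0 : R ≠ 0 := by
    intro h0
    have h1 : sm L 1 R = 0 := by rw [h0, map_zero]
    exact h.isPrime.not_isUnit (isUnit_of_dvd_one ((hR 1).1 h1))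
  have hsmQ : sm L β (pm f Q) = pm f (sm N β Q) := (pm_sm f β Q).symm
  have hP : sm L β (pm f Q) ≠ 0 := by
    rw [hsmQ]
    intro h0
    exact hQ1 (pm_inj f (h0.trans (map_zero _).symm))
  have hP0 : yc (sm L β (pm f Q)) ≠ 0 := by
    rw [hsmQ, yc_pm]
    intro h0
    exact hQ2 (f.injective (h0.trans (map_zero _).symm))
  have hdist := dist_deg1 g h hRβ hR0 hP hP0
  have hvβ : v' (algebraMap K L (β : K)) < 1 := by
    rw [IsScalarTower.algebraMap_apply K N L, mlt]
    exact hW
  have hKR : Ker v' R := ker_of_val v' h.isPrime h.one hR hvβ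
  have hKa : ∀ a : ℕ, Ker v' (a • R) := fun a => (ker_nsmul v' hKR a).1
  have hKS : ¬ Ker v' (ptS L) := by
    rintro (h0 | h0)
    · exact S_ne_zero h0
    · rw [ptS, xc_mk, Valuation.map_neg, map_one] at h0
      exact lt_irrefl _ h0
  have hKf : ∀ X : Pt N, ¬ Ker (W.valuation N) X → ¬ Ker v' (pm f X) := by
    rintro X hX (h0 | h0)
    · exact hX (Or.inl (pm_inj f (h0.trans (map_zero _).symm)))
    · rw [xc_pm, hf, ← not_le, mle, not_le] at h0
      exact hX (Or.inr h0)
  have hKQ : ¬ Ker v' (pm f Q) := hKf Q hK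
  have hKQ' : ¬ Ker v' (sm L β (pm f Q)) := by
    rw [hsmQ]
    exact hKf _ hK'
  have hyQ := (not_ker v' hKQ).2.2
  have hyQ' := (not_ker v' hKQ').2.2
  have hA := dt_prod v' (Finset.Ico 1 p) (fun a => yc (ptS L + a • R)) (omF L) (v_om v').le
    (fun a _ => by
      have h1 := (add_ker v' hKS (hKa a)).2.2
      rw [ptS, yc_mk] at h1
      exact h1.trans_lt (ker_tc_lt v' (hKa a)))
  have hB := dt_prod v' (Finset.Ico 1 p) (fun a => yc (pm f Q + a • R)) (yc (pm f Q)) hyQ
    (fun a _ => (add_ker v' hKQ (hKa a)).2.2.trans_lt (ker_tc_lt v' (hKa a)))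
  rw [Nat.card_Ico] at hA hB
  have hp7 := h.seven_le
  have hp3 := h.mod_three
  have hom : omF L ^ (p - 1) = 1 := by
    obtain ⟨q, hq⟩ : ∃ q, p - 1 = 3 * q := ⟨p / 3, by omega⟩
    rw [hq, pow_mul, omF_cube, one_pow]
  rw [hom] at hA
  have hC : v' (yc (sm L β (pm f Q)) - yc (pm f Q) ^ p) < 1 := by
    have e : yc (sm L β (pm f Q)) - yc (pm f Q) ^ p =
        yc (sm L β (pm f Q)) * -(∏ a ∈ Finset.Ico 1 p, yc (ptS L + a • R) - 1) +
        yc (pm f Q) * (∏ a ∈ Finset.Ico 1 p, yc (pm f Q + a • R) - yc (pm f Q) ^ (p - 1)) := by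
      have e1 : yc (pm f Q) ^ p = yc (pm f Q) * yc (pm f Q) ^ (p - 1) := by
        rw [← pow_succ', Nat.sub_add_cancel (by omega)]
      rw [e1]
      linear_combination hdist
    rw [e]
    refine v'.map_add_lt ?_ ?_
    · rw [map_mul, Valuation.map_neg]
      exact (mul_le_of_le_one_left' hyQ').trans_lt hA
    · rw [map_mul]
      exact (mul_le_of_le_one_left' hyQ).trans_lt hB
  rw [← mlt, map_sub, map_pow]
  rw [hsmQ, yc_pm, yc_pm, hf, hf] at hC
  exact hC

end

end Pool.Agent.Lib.MP_1a91b9_ntT.TG
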