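import Pool.Agent.Lib.MP_1a91b9_ntT.TG.Dt

/-!
# Theorem G: the decomposition groups over the base field, places above the conjugate prime
-/

set_option autoImplicit false

namespace Pool.Agent.Lib.MP_1a91b9_ntT.TG

open NumberField IsDedekindDomain WeierstrassCurve DB DX Pool.Agent.Lib.MP_1a91b9_nt
open Pool.Agent.Lib.MP_1a91b9_ntT.S4 (NoCube3 psi)

universe u

/-- congruence of powers -/
private theorem dtq_pow {F : Type*} [Field F] {Γ : Type*} [LinearOrderedCommGroupWithZero Γ]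
    (v : Valuation F Γ) {a c : F} (ha : v a ≤ 1) (hc : v c ≤ 1) (h : v (a - c) < 1) (q : ℕ) :
    v (a ^ q - c ^ q) < 1 := by
  induction q with
  | zero => simp
  | succ q ih =>
    have e : a ^ (q + 1) - c ^ (q + 1) = a ^ q * (a - c) + c * (a ^ q - c ^ q) := by ring
    rw [e]
    refine v.map_add_lt ?_ ?_
    · rw [map_mul, map_pow]
      exact (mul_le_of_le_one_left' (pow_le_one' ha q)).trans_lt h
    · rw [map_mul]
      exact (mul_le_of_le_one_left' hc).trans_lt ih

section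
variable {N : Type u} [Field N] [NumberField N] [Algebra K N] [DecidableEq N] {β : 𝓞 K} {p : ℕ}
  (h : Deg1 β p) (W : HeightOneSpectrum (𝓞 N))
  (hW : W.valuation N (algebraMap K N (β : K)) < 1)
include h hW

/-- a prime element which is a unit at `W` does not divide the powers of `β` -/
theorem not_dvd_pow {γ : 𝓞 K} (hγ : Prime γ)
    (hγW : W.valuation N (algebraMap K N (γ : K)) = 1) (f : ℕ) : ¬ γ ∣ β ^ f := by
  intro hd
  obtain ⟨c, hc⟩ := hγ.dvd_of_dvd_pow hd
  rcases h.isPrime.dvd_or_dvd (dvd_of_eq hc) with ⟨d, hd⟩ | ⟨d, hd⟩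
  · have e1 : algebraMap K N (γ : K) = algebraMap K N (β : K) * algebraMap K N (d : K) := by
      have e2 := congrArg (fun z : 𝓞 K => algebraMap K N (z : K)) hd
      simpa using e2
    have e3 : W.valuation N (algebraMap K N (γ : K)) < 1 := by
      rw [e1, map_mul]
      calc W.valuation N (algebraMap K N (β : K)) * W.valuation N (algebraMap K N (d : K))
          ≤ W.valuation N (algebraMap K N (β : K)) * 1 := by
            gcongr
            exact v_alg_le (W.valuation N) d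
        _ < 1 := by rw [mul_one]; exact hW
    rw [hγW] at e3
    exact lt_irrefl _ e3
  · have e1 : β * 1 = β * (γ * d) := by
      rw [mul_one]
      calc β = γ * c := hc
        _ = β * (γ * d) := by rw [hd]; ring
    have e2 := mul_left_cancel₀ h.isPrime.ne_zero e1
    exact hγ.not_isUnit (IsUnit.of_mul_eq_one d e2.symm)

/-- the iteration of the congruence -/
theorem pow_iter_ker {γ : 𝓞 K} (hγ : Prime γ) (hγ1 : (3 : 𝓞 K) ∣ γ - 1)
    (hγW : W.valuation N (algebraMap K N (γ : K)) = 1) {P : Pt N} (hP : Ord γ P) (f : ℕ) :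
    W.valuation N (yc (ptS N + sm N (β ^ f) P) - yc (ptS N + P) ^ (p ^ f)) < 1 := by
  have hu : ∀ f : ℕ, W.valuation N (yc (ptS N + sm N (β ^ f) P)) = 1 := fun f =>
    yS_unit (W.valuation N) hγ hγ1 hP (not_dvd_pow h W hW hγ hγW f)
  have hne : ∀ X : Pt N, W.valuation N (yc X) = 1 → yc X ≠ 0 := by
    intro X hX e
    rw [e, map_zero] at hX
    exact zero_ne_one hX
  have hnk : ∀ X : Pt N, W.valuation N (yc X) = 1 → ¬ Ker (W.valuation N) X := by
    rintro X hX (e | e)
    · have e1 := hne X hX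
      rw [e, yc_zero] at e1
      exact e1 rfl
    · have hX0 : X ≠ 0 := by
        intro e1
        have e2 := hne X hX
        rw [e1, yc_zero] at e2
        exact e2 rfl
      rw [ker_iff_y (W.valuation N) hX0, hX] at e
      exact lt_irrefl _ e
  have hu0 : W.valuation N (yc (ptS N + P)) = 1 := by
    have h1 := hu 0
    rw [pow_zero, map_one] at h1
    exact h1
  induction f with
  | zero =>
    have e : yc (ptS N + sm N (β ^ 0) P) - yc (ptS N + P) ^ p ^ 0 = 0 := by
      rw [pow_zero, pow_zero, pow_one, map_one]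
      exact sub_self _
    rw [e, map_zero]
    exact zero_lt_one
  | succ f ih =>
    have e : sm N β (ptS N + sm N (β ^ f) P) = ptS N + sm N (β ^ (f + 1)) P := by
      rw [map_add, sm_S β h.one, pow_succ', map_mul]
      rfl
    have h1 := pow_frob_ker h W hW (Q := ptS N + sm N (β ^ f) P) (hnk _ (hu f))
      (by rw [e]; exact hnk _ (hu (f + 1))) (hne _ (hu f)) (by rw [e]; exact hne _ (hu (f + 1)))
    rw [e] at h1
    have h2 := dtq_pow (W.valuation N) (hu f).le (by rw [map_pow, hu0, one_pow]) ih p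
    have e2 : yc (ptS N + sm N (β ^ (f + 1)) P) - yc (ptS N + P) ^ (p ^ (f + 1)) =
        (yc (ptS N + sm N (β ^ (f + 1)) P) - yc (ptS N + sm N (β ^ f) P) ^ p) +
        (yc (ptS N + sm N (β ^ f) P) ^ p - (yc (ptS N + P) ^ (p ^ f)) ^ p) := by
      rw [pow_succ p f, pow_mul]
      ring
    rw [e2]
    exact Valuation.map_add_lt _ h1 h2

end

section
variable {k N : Type u} [Field k] [NumberField k] [Algebra K k] [Field N] [NumberField N]
  [Algebra K N] [Algebra k N] [IsScalarTower K k N] [DecidableEq N]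

omit [DecidableEq N] [Algebra K k] [Algebra K N] [IsScalarTower K k N] in
/-- the Frobenius on integral elements -/
private theorem dtq_frob (w : HeightOneSpectrum (𝓞 N)) (σ : Gal(N/k)) {q : ℕ} (hq : 0 < q)
    (hσ : ∀ x : 𝓞 N, σ • x - x ^ q ∈ w.asIdeal) {a : N} (ha : w.valuation N a ≤ 1) :
    w.valuation N (a ^ q - σ a) < 1 := by
  obtain ⟨x, hx⟩ := exists_val_lt_of_int w ha 1
  have hx1 : w.valuation N (a - (x : N)) < 1 := by
    refine hx.trans_lt ?_
    rw [← WithZero.exp_zero, WithZero.exp_lt_exp]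
    norm_num
  have hxi : w.valuation N (x : N) ≤ 1 := w.valuation_le_one x
  have hgp : gpl σ⁻¹ w = w := by
    apply HeightOneSpectrum.ext
    have hle : w.asIdeal ≤ (gpl σ⁻¹ w).asIdeal := by
      intro y hy
      change (σ⁻¹)⁻¹ • y ∈ w.asIdeal
      rw [inv_inv]
      have h1 := hσ y
      have h2 : y ^ q ∈ w.asIdeal := Ideal.pow_mem_of_mem _ hy q hq
      have h3 := Ideal.add_mem _ h1 h2
      rwa [sub_add_cancel] at h3
    exact (w.isMaximal.eq_of_le (gpl σ⁻¹ w).isPrime.ne_top hle).symm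
  have hgp' : gpl σ w = w := by
    have h1 := gpl_mul σ σ⁻¹ w
    rw [mul_inv_cancel, gpl_one, hgp] at h1
    exact h1.symm
  have hvσ : ∀ y : N, w.valuation N (σ y) = w.valuation N y := by
    intro y
    have h1 := gpl_val σ w y
    rw [hgp'] at h1
    exact h1
  have hE : w.valuation N (((σ • x : 𝓞 N) : N) - (x : N) ^ q) < 1 := by
    have h1 := (w.valuation_lt_one_iff_mem (K := N) (σ • x - x ^ q)).2 (hσ x)
    exact h1
  have hx2 : ((σ • x : 𝓞 N) : N) = σ (x : N) := rfl
  have hG := dtq_pow (w.valuation N) ha hxi hx1 q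
  have e : a ^ q - σ a = (a ^ q - (x : N) ^ q) +
      (-(((σ • x : 𝓞 N) : N) - (x : N) ^ q) + -σ (a - (x : N))) := by
    rw [map_sub, hx2]
    ring
  rw [e]
  have hI : w.valuation N (-σ (a - (x : N))) < 1 := by
    rw [Valuation.map_neg, hvσ]
    exact hx1
  rw [← Valuation.map_neg] at hE
  exact Valuation.map_add_lt _ hG (Valuation.map_add_lt _ hE hI)

/-- the Frobenius at a place above `β` acts as `β ^ f` on the points killed by another prime
element `γ` -/
theorem frob_gen {β : 𝓞 K} {p : ℕ} (h : Deg1 β p) (W : HeightOneSpectrum (𝓞 N))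
    (hW : W.valuation N (algebraMap K N (β : K)) < 1) (f : ℕ) (σ : Gal(N/k))
    (hσ : ∀ x : 𝓞 N, σ • x - x ^ (p ^ f) ∈ W.asIdeal) {γ : 𝓞 K} (hγ : Prime γ)
    (hγ1 : (3 : 𝓞 K) ∣ γ - 1) (hγW : W.valuation N (algebraMap K N (γ : K)) = 1) {P : Pt N}
    (hP : Ord γ P) : ga σ P = sm N (β ^ f) P := by
  have hit := pow_iter_ker h W hW hγ hγ1 hγW hP f
  set v := W.valuation N with hv
  have h3 : v (3 : N) = 1 := dt_three' v h hW
  have h3' : v ((3 : ℕ) : N) = 1 := by exact_mod_cast h3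
  have hγβ : ¬ γ ∣ β ^ f := not_dvd_pow h W hW hγ hγW f
  have hγ1' : ¬ γ ∣ 1 := fun e => hγ.not_isUnit (isUnit_of_dvd_one e)
  obtain ⟨c, hcop, hc⟩ := gal_sm hγ.ne_zero hP σ
  have hγc : ¬ γ ∣ c := fun e => hγ.not_isUnit (hcop.isUnit_of_dvd' e dvd_rfl)
  have u1 : v (yc (ptS N + P)) = 1 := by
    have e1 := yS_unit v hγ hγ1 hP hγ1'
    rwa [map_one] at e1
  have u2 : v (yc (ptS N + sm N (β ^ f) P)) = 1 := yS_unit v hγ hγ1 hP hγβ
  have u3 : v (yc (ptS N + sm N c P)) = 1 := yS_unit v hγ hγ1 hP hγc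
  have hne : ∀ X : Pt N, v (yc X) = 1 → yc X ≠ 0 := by
    intro X hX e
    rw [e, map_zero] at hX
    exact zero_ne_one hX
  have hnk : ∀ X : Pt N, v (yc X) = 1 → ¬ Ker v X := by
    rintro X hX (e | e)
    · have e1 := hne X hX
      rw [e, yc_zero] at e1
      exact e1 rfl
    · have hX0 : X ≠ 0 := by
        intro e1
        have e2 := hne X hX
        rw [e1, yc_zero] at e2
        exact e2 rfl
      rw [ker_iff_y v hX0, hX] at e
      exact lt_irrefl _ e
  have eG : ga σ (ptS N + P) = ptS N + sm N c P := by rw [map_add, ga_S, hc]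
  have hp : 0 < p ^ f := pow_pos (by have := h.seven_le; omega) f
  have hfr := dtq_frob W σ hp hσ (a := yc (ptS N + P)) (by rw [← hv, u1])
  have hy : v (yc (ptS N + sm N (β ^ f) P) - yc (ptS N + sm N c P)) < 1 := by
    rw [← eG, yc_ga]
    have h1 := Valuation.map_add_lt v hit hfr
    rwa [sub_add_sub_cancel] at h1
  obtain ⟨b, hb⟩ : ∃ b, b = β ^ f := ⟨_, rfl⟩
  rw [← hb] at hγβ u2 hy ⊢
  have hb1 : (3 : 𝓞 K) ∣ b - 1 := by
    have h1 := sub_dvd_pow_sub_pow β 1 f
    rw [one_pow, ← hb] at h1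
    exact h.one.trans h1
  have hγP : sm N γ P = 0 := (hP γ).2 dvd_rfl
  have mulsm : ∀ (a b : 𝓞 K) (X : Pt N), sm N a (sm N b X) = sm N (a * b) X := by
    intro a b X
    rw [map_mul]
    rfl
  -- the difference with `om ^ i` is in the kernel only for `i = 0`
  have fin : ∀ u : 𝓞 K, Ker v (ptS N + sm N b P - sm N u (ptS N + sm N c P)) →
      ptS N = sm N u (ptS N) := by
    intro u hu
    have e1 : sm N γ (ptS N + sm N b P - sm N u (ptS N + sm N c P)) =
        ptS N - sm N u (ptS N) := by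
      have e2 : sm N γ (sm N b P) = 0 := by rw [mulsm, mul_comm, ← mulsm, hγP, map_zero]
      have e3 : sm N γ (sm N u (sm N c P)) = 0 := by
        rw [mulsm, mulsm, mul_comm (γ * u) c, mul_comm γ u, ← mul_assoc, ← mulsm, hγP, map_zero]
      have e4 : sm N γ (sm N u (ptS N)) = sm N u (ptS N) := by
        rw [mulsm, mul_comm, ← mulsm, sm_S γ hγ1]
      rw [map_add (sm N u), map_sub, map_add, map_add, e2, e3, e4, sm_S γ hγ1, add_zero, add_zero]
    have e2 := ker_sm v hu γ
    rw [e1] at e2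
    refine sub_eq_zero.1 (ker_tors v e2 3 h3' ?_)
    rw [nsmul_sub, three_S, ← map_nsmul, three_S, map_zero, sub_zero]
  have n1 := hnk _ u2
  have n2 := hnk _ u3
  rcases y_inj v h3 n1 n2 hy with hk | hk | hk
  · have e1 : ptS N + sm N b P - (ptS N + sm N c P) = sm N (b - c) P := by
      rw [map_sub, add_sub_add_left_eq_sub]
      rfl
    rw [e1] at hk
    by_cases hd : γ ∣ b - c
    · rw [hc]
      exact ((hP.sm_eq_iff b c).2 hd).symm
    · exfalso
      have e2 : Ord γ (sm N (b - c) P) := by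
        refine ord_of_prime hγ ?_ ?_
        · rw [mulsm, mul_comm, ← mulsm, hγP, map_zero]
        · intro e3
          exact hd ((hP _).1 e3)
      exact not_ker_of_val v hγ hγ1 e2 hγW hk
  · exfalso
    have e1 := fin S3.omO (by rw [sm_om]; exact hk)
    rw [sm_om] at e1
    exact omH_S.1 e1.symm
  · exfalso
    have e1 := fin (S3.omO * S3.omO) (by rw [← mulsm, sm_om, sm_om]; exact hk)
    rw [← mulsm, sm_om, sm_om] at e1
    exact omH_S.2 e1.symm

end

/-- the generator of the norm of a place above a prime element -/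
theorem psi_gen {k : Type} [Field k] [NumberField k] [Algebra K k] {β : 𝓞 K} (hβ : Prime β)
    (hβ1 : (3 : 𝓞 K) ∣ β - 1) (v : HeightOneSpectrum (𝓞 k))
    (hv : v.valuation k (algebraMap K k (β : K)) < 1) : ∃ f : ℕ,
      psi k v.asIdeal = β ^ f ∧
      Ideal.absNorm v.asIdeal = Ideal.absNorm (Ideal.span {β}) ^ f := by
  obtain ⟨u, hu⟩ : ∃ u, u = v.under (𝓞 K) := ⟨_, rfl⟩
  have hum : u.asIdeal.IsMaximal := u.isMaximal
  have hvm : v.asIdeal.IsMaximal := v.isMaximal
  have hlo : v.asIdeal.LiesOver u.asIdeal := ⟨by rw [hu]; rfl⟩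
  have hrel : Ideal.relNorm (𝓞 K) v.asIdeal = u.asIdeal ^ v.asIdeal.inertiaDeg (𝓞 K) :=
    Ideal.relNorm_eq_pow_of_isMaximal v.asIdeal u.asIdeal
  have hnrm := Ideal.absNorm_pow_inertiaDeg u.asIdeal v.asIdeal
  have hβs : Ideal.span {β} = u.asIdeal := by
    have hbm : β ∈ u.asIdeal := by
      rw [hu]
      have h1 := (val_map_lt (k := K) v (β : K)).1 hv
      exact ((v.under (𝓞 K)).valuation_lt_one_iff_mem (K := K) β).1 h1
    have hpr : (Ideal.span {β} : Ideal (𝓞 K)).IsPrime :=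
      (Ideal.span_singleton_prime hβ.ne_zero).2 hβ
    have hne : (Ideal.span {β} : Ideal (𝓞 K)) ≠ ⊥ := by
      rw [Ne, Ideal.span_singleton_eq_bot]
      exact hβ.ne_zero
    exact (hpr.isMaximal hne).eq_of_le hum.ne_top ((Ideal.span_singleton_le_iff_mem _).2 hbm)
  have hpow : (3 : 𝓞 K) ∣ β ^ v.asIdeal.inertiaDeg (𝓞 K) - 1 := by
    have h1 := sub_dvd_pow_sub_pow β 1 (v.asIdeal.inertiaDeg (𝓞 K))
    rw [one_pow] at h1
    exact hβ1.trans h1
  refine ⟨v.asIdeal.inertiaDeg (𝓞 K), ?_, ?_⟩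
  · rw [S4.psi, hrel, ← hβs, Ideal.span_singleton_pow, S4.psiK_span _ hpow]
  · rw [hβs, hnrm]

/-- **The decomposition groups at the places above the conjugate prime.** -/
theorem dtb_base {ϖ : 𝓞 K} {ℓ q : ℕ} (h : PD ϖ ℓ q) (F : Type) [Field F] [NumberField F]
    [Algebra K F] (hn : NlG ℓ F) (hun : DS.UnrL ℓ F) : DTb (cj ϖ) ϖ F := by
  intro N _ _ _ _ _ _ _ P hF v hv
  have hmap : ∀ x : 𝓞 K, algebraMap K N (x : K) = algebraMap F N (algebraMap K F (x : K)) :=
    fun x => IsScalarTower.algebraMap_apply K F N _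
  have hu : (v.under (𝓞 F)).valuation F (algebraMap K F (cj ϖ : K)) < 1 := by
    rw [hmap, val_map_lt] at hv
    exact hv
  rcases pd_cases h with ⟨hq, hco⟩ | ⟨hq, hcj⟩
  · have hc := pd_cj h
    obtain ⟨f, hpsi, hnorm⟩ := psi_gen hc.prime hc.one _ hu
    have hnn : nrm (v.under (𝓞 F)) = ℓ ^ f := by
      rw [nrm_eq, hnorm, hc.norm, hq]
    obtain ⟨σ, hσ⟩ := CF.exists_fr (k := F) v
    have hσ' : ∀ x : 𝓞 N, σ • x - x ^ (ℓ ^ f) ∈ v.asIdeal := by
      intro x
      have h1 := hσ x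
      rwa [hnn] at h1
    have hd1 : Deg1 (cj ϖ) ℓ := ⟨h.hl, by rw [hc.norm, hq], hc.one⟩
    have hnd : ¬ cj ϖ ∣ ϖ := by
      intro hd
      exact hc.prime.not_isUnit (hco.isUnit_of_dvd' hd dvd_rfl)
    have hγ := pd_val_coprime hc hv hnd
    have hga := frob_gen hd1 v hv f σ hσ' h.prime h.one hγ hF.ord
    refine ⟨σ, ?_, ?_⟩
    · rintro rfl
      rw [ga_one] at hga
      have hd : ϖ ∣ cj ϖ ^ f - 1 := by
        refine (hF.ord (cj ϖ ^ f - 1)).1 ?_
        rw [map_sub, map_one]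
        change sm N (cj ϖ ^ f) P - P = 0
        rw [← hga, sub_self]
      have hlm : (ℓ : 𝓞 F) ∈ (v.under (𝓞 F)).asIdeal := by
        have h1 := (pd_val_ell_iff h (w := v.under (𝓞 F))).2 (Or.inr hu)
        have e : ((ℓ : 𝓞 F) : F) = ℓ := map_natCast (algebraMap (𝓞 F) F) ℓ
        refine ((v.under (𝓞 F)).valuation_lt_one_iff_mem (K := F) (ℓ : 𝓞 F)).1 ?_
        exact (congrArg (fun z => (v.under (𝓞 F)).valuation F z < 1) e).mpr h1
      have hcop := hn _ hlm
      rw [hpsi] at hcop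
      exact h.prime.not_isUnit (hcop.isUnit_of_dvd' hd h.dvd)
    · have hgp : gpl σ⁻¹ v = v := by
        apply HeightOneSpectrum.ext
        have hle : v.asIdeal ≤ (gpl σ⁻¹ v).asIdeal := by
          intro y hy
          change (σ⁻¹)⁻¹ • y ∈ v.asIdeal
          rw [inv_inv]
          have h1 := hσ' y
          have h2 : y ^ (ℓ ^ f) ∈ v.asIdeal := Ideal.pow_mem_of_mem _ hy _ (pow_pos h.hl.pos f)
          have h3 := Ideal.add_mem _ h1 h2
          rwa [sub_add_cancel] at h3
        exact (v.isMaximal.eq_of_le (gpl σ⁻¹ v).isPrime.ne_top hle).symm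
      have h1 := gpl_mul σ σ⁻¹ v
      rw [mul_inv_cancel, gpl_one, hgp] at h1
      exact h1.symm
  · rw [hcj] at hu
    have hul : (v.under (𝓞 F)).valuation F (ℓ : F) < 1 := (pd_val_ell_iff h).2 (Or.inl hu)
    have hod := od_of_un h hu (hun _ hul)
    obtain ⟨hcard, hall, -⟩ := ram h.prime h.one hF.ord hF.gen (v.under (𝓞 F)) hod
    have hfix := (hall v rfl).2.2.2.2
    rw [h.norm] at hcard
    have h5 := h.q_five
    rw [← IsGalois.card_aut_eq_finrank F N] at hcard
    have hnt : Nontrivial Gal(N/F) := by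
      rw [← Finite.one_lt_card_iff_nontrivial]
      omega
    obtain ⟨σ, hσ⟩ := exists_ne (1 : Gal(N/F))
    exact ⟨σ, hσ, hfix σ⟩

end Pool.Agent.Lib.MP_1a91b9_ntT.TG
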