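import Pool.Agent.Lib.MP_1a91b9_ntT.TG.Comp
import Pool.Agent.Lib.MP_1a91b9_ntT.TG.Unr

/-!
# Theorem G: descent of the unit property from `N F₀` to `N`
-/

set_option autoImplicit false

namespace Pool.Agent.Lib.MP_1a91b9_ntT.TG

open NumberField IsDedekindDomain WeierstrassCurve DB DX Module


/-- If `F₀` is contained in the field `L'` generated over `K` by a torsion point of order prime to
three, the unit property descends from `F = N F₀` to `N`. -/
theorem unit_sub {μ : 𝓞 K} {ℓ : ℕ} (hℓ : ℓ.Prime) (h5 : 5 ≤ ℓ) (hμ : ¬ ℓ ∣ nAb μ)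
    (N F F₀ L' : Type) [Field N] [NumberField N] [Algebra K N] [Field F]
    [NumberField F] [Algebra K F] [Field F₀] [NumberField F₀] [Algebra K F₀] [Field L']
    [NumberField L'] [Algebra K L'] [Algebra N F] [Algebra F₀ F] [Algebra F₀ L']
    [IsScalarTower K N F] [IsScalarTower K F₀ F] [IsScalarTower K F₀ L'] [IsGalois K L']
    [DecidableEq L'] {T : Pt L'} (hT : AbT μ K T)
    (hgen : IntermediateField.adjoin N (Set.range (algebraMap F₀ F)) = ⊤)
    (h3 : ¬ 3 ∣ finrank K F)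
    (hu : ∀ q : HeightOneSpectrum (𝓞 K), (ℓ : 𝓞 K) ∈ q.asIdeal → ¬ MP_1a91b9_ntT3.Ram F q)
    (hna : NaG ℓ μ F) (h : MP_1a91b9_ntG.UnitProp 3 ℓ Om F) :
    MP_1a91b9_ntG.UnitProp 3 ℓ Om N := by
  classical
  obtain ⟨L, _, _, _, _, _, _, t1, t2, t3, t4, hG, hL⟩ := exists_comp N F F₀ L' hgen
  refine unit_abT μ hℓ h5 hμ _ N F L (up L T) ⟨hT.ne, hT.cop, (ord_up L).2 hT.ord,
    fun σ hσ => ?_⟩ rfl h3 hu hna h
  apply hL
  intro x
  have h1 : ga (rs L' (toF K σ)) T = T := by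
    rw [← up_inj L, ← ga_up]
    exact hσ
  have h2 := hT.gen _ h1
  have h3 := rs_apply (N := L') (toF K σ) x
  rw [h2, AlgEquiv.one_apply, toF_apply] at h3
  exact h3.symm

end Pool.Agent.Lib.MP_1a91b9_ntT.TG
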