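import Pool.Agent.Lib.MP_1a91b9_ntT.TG.Dat
import Pool.Agent.Lib.MP_1a91b9_ntT.TG.SubU
import Pool.Agent.Lib.MP_1a91b9_ntT.TG.ShaD
import Pool.Agent.Lib.MP_1a91b9_ntT.PL.Main

/-!
# Theorem G: the hypotheses of the `ℓ`-part of the formula over the subfields of `L`
-/

set_option autoImplicit false

namespace Pool.Agent.Lib.MP_1a91b9_ntT.TG

open NumberField IsDedekindDomain WeierstrassCurve DB DX Module IntermediateField Polynomial
open Pool.Agent.Lib.MP_1a91b9_ntT.S4 (NoCube3 psi)
open Pool.Agent.Lib.MP_1a91b9_ntT.S5 (below mem_below exists_above below_below)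
open Pool.Agent.Lib.MP_1a91b9_ntT.PT (exists_hom map_om noCube_down cop_pow)
open Pool.Agent.Lib.MP_1a91b9_ntT.PL (GoodF DatP)

universe u

theorem cop_powN {ℓ : ℕ} (hℓ : ℓ.Prime) {a : 𝓞 K} (h : IsCoprime (a - 1) (ℓ : 𝓞 K)) {n f : ℕ}
    (hf : f ∣ ℓ ^ n) : IsCoprime (a ^ f - 1) (ℓ : 𝓞 K) := by
  obtain ⟨k, -, rfl⟩ := (Nat.dvd_prime_pow hℓ).1 hf
  clear hf
  induction k with
  | zero => rwa [pow_zero, pow_one]
  | succ k ih =>
    rw [pow_succ, pow_mul]
    exact cop_pow hℓ ih dvd_rfl

theorem NaG.up_pow {ℓ : ℕ} (hℓ : ℓ.Prime) {μ : 𝓞 K} {F₀ M : Type u} [Field F₀] [NumberField F₀]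
    [Algebra K F₀] [Field M] [NumberField M] [Algebra K M] [Algebra F₀ M] [IsScalarTower K F₀ M]
    [IsGalois F₀ M] (n : ℕ) (hM : finrank F₀ M = ℓ ^ n) (h : NaG ℓ μ F₀) : NaG ℓ μ M := by
  intro w hw h3
  rw [psi_up (F := F₀) w]
  refine cop_powN hℓ (h (below F₀ w) ?_ ?_) (n := n) ?_
  · rw [mem_below, map_natCast]
    exact hw
  · rw [mem_below, map_ofNat]
    exact h3
  · rw [← hM]
    exact (MP_1a91b9_ntT3.EF.ef_dvd (below F₀ w) w rfl).1

/-- the intermediate fields of the extension generated by a torsion point are Galois -/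
theorem galois_of_abT {μ : 𝓞 K} {N F L : Type u} [Field N] [NumberField N] [Algebra K N]
    [Field F] [NumberField F] [Field L] [NumberField L] [Algebra K L]
    [Algebra N F] [Algebra N L] [Algebra F L] [IsScalarTower K N L]
    [IsScalarTower N F L] [DecidableEq L] [IsGalois N L] {T : Pt L}
    (hT : AbT μ N T) : IsGalois N F := by
  have hfd : FiniteDimensional N L := Module.Finite.of_restrictScalars_finite ℚ N L
  let f : F →ₐ[N] L := IsScalarTower.toAlgHom N F L
  let e : F ≃ₐ[N] f.fieldRange := AlgEquiv.ofInjectiveField f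
  have hn : f.fieldRange.fixingSubgroup.Normal := ⟨fun σ hσ τ => by
    rw [hT.comm τ σ, mul_inv_cancel_right]
    exact hσ⟩
  have h1 : IsGalois N (IntermediateField.fixedField f.fieldRange.fixingSubgroup) :=
    IsGalois.of_fixedField_normal_subgroup _
  rw [IsGalois.fixedField_fixingSubgroup] at h1
  exact IsGalois.of_algEquiv e.symm

theorem galois_sub {μ : 𝓞 K} (N F F₀ L' : Type) [Field N] [NumberField N] [Algebra K N]
    [Field F] [NumberField F] [Algebra K F] [Field F₀] [NumberField F₀] [Algebra K F₀] [Field L']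
    [NumberField L'] [Algebra K L'] [Algebra N F] [Algebra F₀ F] [Algebra F₀ L']
    [IsScalarTower K N F] [IsScalarTower K F₀ F] [IsScalarTower K F₀ L'] [IsGalois K L']
    [DecidableEq L'] {T : Pt L'} (hT : AbT μ K T)
    (hgen : IntermediateField.adjoin N (Set.range (algebraMap F₀ F)) = ⊤) : IsGalois N F := by
  classical
  obtain ⟨L, _, _, _, _, _, _, t1, t2, t3, t4, hG, hL⟩ := exists_comp N F F₀ L' hgen
  refine galois_of_abT (μ := μ) (L := L) (T := DB.up L T) ⟨hT.ne, hT.cop, (ord_up L).2 hT.ord,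
    fun σ hσ => ?_⟩
  apply hL
  intro x
  have h1 : ga (rs L' (toF K σ)) T = T := by
    rw [← up_inj L, ← ga_up]
    exact hσ
  have h2 := hT.gen _ h1
  have h3 := rs_apply (N := L') (toF K σ) x
  rw [h2, AlgEquiv.one_apply, toF_apply] at h3
  exact h3.symm

/-- unramified in the extension, hence below -/
theorem unrL_down {ℓ : ℕ} (hℓ : ℓ ≠ 0) {N F : Type u} [Field N] [NumberField N] [Field F]
    [NumberField F] [Algebra N F] (h : DS.UnrL ℓ F) : DS.UnrL ℓ N := by
  intro v hv
  obtain ⟨w, hw'⟩ := exists_above N F v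
  have hw : w.under (𝓞 N) = v := hw'
  have h1 : w.valuation F (ℓ : F) < 1 := by
    have h2 := (val_map_lt w (ℓ : N)).2 (by rw [hw]; exact hv)
    rwa [map_natCast] at h2
  have h2 := h w h1
  have h3 := od_map w (ℓ : N)
  rw [map_natCast, h2, hw] at h3
  have hv' := (val_lt_one_iff v (Nat.cast_ne_zero.2 hℓ)).1 hv
  exact Int.eq_one_of_mul_eq_one_left hv'.le h3.symm

section
variable {ℓ : ℕ} [hℓ : Fact ℓ.Prime] (h5 : 5 ≤ ℓ) (F₀ L M : Type) [Field F₀] [NumberField F₀]
  [Algebra K F₀] (hB : ∀ (F : Type) [Field F] [NumberField F] [Algebra K F],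
    Cpy F₀ F → BaseG ℓ F) [Field L] [NumberField L] [Field M] [NumberField M] [Algebra K L]
  [Algebra K M] [Algebra F₀ L] [Algebra L M] [Algebra F₀ M] [IsScalarTower K F₀ L]
  [IsScalarTower K F₀ M] [IsScalarTower F₀ L M] [IsGalois F₀ M] (n : ℕ)
  (hM : finrank F₀ M = ℓ ^ n) (hL : RamG ℓ F₀ L)
include h5 hB hM hL

/-- The subfields of `L` which contain `K` satisfy the hypotheses of the `ℓ`-part. -/
theorem goodF_of_K {μ : 𝓞 K} (hμ : ¬ ℓ ∣ nAb μ) (hna : NaG ℓ μ F₀)
    (L' : Type) [Field L'] [NumberField L'] [Algebra K L']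
    [Algebra F₀ L'] [IsScalarTower K F₀ L'] [IsGalois K L'] [DecidableEq L'] {T : Pt L'}
    (hT : AbT μ K T) (N : Type) [Field N] [NumberField N] [Algebra K N] [Algebra N L]
    [IsScalarTower K N L] : GoodF ℓ N := by
  let F : IntermediateField N L := IntermediateField.adjoin N (Set.range (algebraMap F₀ L))
  have hmem : ∀ x : F₀, algebraMap F₀ L x ∈ F := fun x => subset_adjoin N _ ⟨x, rfl⟩
  let aF₀F : Algebra F₀ F :=
    ((algebraMap F₀ L).codRestrict F.toSubalgebra.toSubring hmem).toAlgebra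
  have hc : ∀ x : F₀, ((algebraMap F₀ F x : F) : L) = algebraMap F₀ L x := fun x => rfl
  have t1 : IsScalarTower F₀ F L := IsScalarTower.of_algebraMap_eq fun x => rfl
  have t2 : IsScalarTower K F L := IsScalarTower.of_algebraMap_eq fun x => rfl
  have t3 : IsScalarTower K F₀ F := IsScalarTower.of_algebraMap_eq fun x => Subtype.ext (by
    rw [hc, ← IsScalarTower.algebraMap_apply K F₀ L]
    rfl)
  have t4 : IsScalarTower K N F := IsScalarTower.of_algebraMap_eq fun x => Subtype.ext (by
    change algebraMap K L x = algebraMap N L (algebraMap K N x)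
    exact IsScalarTower.algebraMap_apply K N L x)
  have hT' := tower_sub hℓ.out F₀ L M n hM hL F
  have hg := goodF_tower h5 (fun F _ _ _ h => hB F h) F hT'
  have h3 := not_three_dvd hℓ.out h5 (fun F _ _ _ h => hB F h) hT'
  have hu := unr_tower hℓ.out (fun F _ _ _ h => hB F h) hT'
  have hgen : IntermediateField.adjoin N (Set.range (algebraMap F₀ F)) = ⊤ := by
    have h1 : F.val '' (Set.range (algebraMap F₀ F)) = Set.range (algebraMap F₀ L) := by
      ext y
      constructor
      · rintro ⟨_, ⟨x, rfl⟩, rfl⟩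
        exact ⟨x, rfl⟩
      · rintro ⟨x, rfl⟩
        exact ⟨_, ⟨x, rfl⟩, rfl⟩
    have h2 : (IntermediateField.adjoin N (Set.range (algebraMap F₀ F))).map F.val = F := by
      rw [adjoin_map, h1]
    rw [eq_top_iff]
    intro y _
    have h4 : (y : L) ∈ (IntermediateField.adjoin N (Set.range (algebraMap F₀ F))).map F.val := by
      rw [h2]
      exact y.2
    obtain ⟨z, hz, hzy⟩ := h4
    have h5 : z = y := Subtype.ext hzy
    rw [← h5]
    exact hz
  -- the places above `μ`
  have hnM : NaG ℓ μ M := hna.up_pow hℓ.out n hM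
  have tKLM : ∀ x : K, algebraMap L M (algebraMap K L x) = algebraMap K M x := by
    intro x
    rw [IsScalarTower.algebraMap_apply K F₀ L, ← IsScalarTower.algebraMap_apply F₀ L M,
      ← IsScalarTower.algebraMap_apply K F₀ M]
  have t5 : IsScalarTower K F M := IsScalarTower.of_algebraMap_eq (R := K) (S := F) (A := M) fun x => by
    change algebraMap K M x = algebraMap L M (algebraMap F L (algebraMap K F x))
    rw [← IsScalarTower.algebraMap_apply K F L, tKLM]
  have hnF : NaG ℓ μ F := hnM.down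
  have hGal : IsGalois N F := galois_sub N F F₀ L' hT hgen
  have hC : (1 : VariableChange F) • (E N).baseChange F = E F := by
    rw [one_smul]
    ext <;> simp [E]
  obtain ⟨hfin, hdvd⟩ := PL.pts_down (N := N) (N' := F) hg.fin (E N) 1 hC
  exact ⟨unrL_down hℓ.out.ne_zero hg.unr,
    unit_sub hℓ.out h5 hμ N F F₀ L' hT hgen h3 hu hnF hg.unit,
    PL.noCube3_down hg.noc, fun x hx => hg.two (algebraMap N F x) (by
      rw [← map_pow, hx, map_ofNat]), hfin, Nat.Coprime.coprime_dvd_left hdvd hg.cop,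
    sha_down_gal hg.sha hg.fin hg.cop (E N) 1 hC⟩

/-- What is needed for the `ℓ`-part over the subfields of `L`. -/
theorem datP_G {μ : 𝓞 K} (hμ : ¬ ℓ ∣ nAb μ) (hna : NaG ℓ μ F₀)
    (L' : Type) [Field L'] [NumberField L'] [Algebra K L']
    [Algebra F₀ L'] [IsScalarTower K F₀ L'] [IsGalois K L'] [DecidableEq L'] {T : Pt L'}
    (hT : AbT μ K T) (N : Type) [Field N] [NumberField N] [Algebra N L] : DatP ℓ N := by
  by_cases hN : ∃ x : N, algebraMap N L x = algebraMap K L om
  · obtain ⟨x, hx⟩ := hN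
    have hx2 : x ^ 2 + x + 1 = 0 := by
      apply (algebraMap N L).injective
      rw [map_add, map_add, map_pow, map_one, map_zero, hx]
      exact map_om
    obtain ⟨f, hf⟩ := exists_hom hx2
    let aKN : Algebra K N := f.toAlgebra
    have hst : IsScalarTower K N L := IsScalarTower.of_algebraMap_eq' (by
      apply S4.embedding_ext
      change algebraMap K L om = algebraMap N L (f om)
      rw [hf, hx])
    exact Or.inl ⟨aKN, goodF_of_K h5 F₀ L M hB n hM hL hμ hna L' hT N⟩
  · let F : IntermediateField N L := N⟮algebraMap K L om⟯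
    have hwF : algebraMap K L om ∈ F := mem_adjoin_simple_self N _
    have hw2 : (⟨algebraMap K L om, hwF⟩ : F) ^ 2 + ⟨algebraMap K L om, hwF⟩ + 1 = 0 :=
      Subtype.ext map_om
    obtain ⟨f, hf⟩ := exists_hom hw2
    let aKF : Algebra K F := f.toAlgebra
    have hst : IsScalarTower K F L := IsScalarTower.of_algebraMap_eq' (by
      apply S4.embedding_ext
      change algebraMap K L om = ((f om : F) : L)
      rw [hf])
    have hint : IsIntegral N (algebraMap K L om) := Algebra.IsIntegral.isIntegral _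
    refine Or.inr ⟨F, inferInstance, inferInstance, inferInstance, aKF,
      ?_, ?_, goodF_of_K h5 F₀ L M hB n hM hL hμ hna L' hT F⟩
    · have h1 : finrank N F = (minpoly N (algebraMap K L om)).natDegree :=
        adjoin.finrank hint
      rw [h1]
      have hdvd : minpoly N (algebraMap K L om) ∣ (X ^ 2 + X + 1 : N[X]) := by
        apply minpoly.dvd
        rw [map_add, map_add, map_pow, aeval_X, map_one, map_om]
      have hdeg : (X ^ 2 + X + 1 : N[X]).natDegree = 2 := by compute_degree!
      have hne : (X ^ 2 + X + 1 : N[X]) ≠ 0 := by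
        intro h0
        rw [h0, natDegree_zero] at hdeg
        omega
      have hle := natDegree_le_of_dvd hdvd hne
      rw [hdeg] at hle
      have hpos := minpoly.natDegree_pos hint
      have hne1 : (minpoly N (algebraMap K L om)).natDegree ≠ 1 := by
        intro h2
        exact hN (minpoly.natDegree_eq_one_iff.1 h2)
      omega
    · intro x hx
      apply hN
      refine ⟨x, ?_⟩
      have h1 := congrArg (algebraMap F L) hx
      rw [← IsScalarTower.algebraMap_apply, ← IsScalarTower.algebraMap_apply] at h1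
      exact h1

end

/-- The `ℓ`-part for the curves isomorphic to `E` or to its twist by `-3`. -/
theorem conclP_of_dat {ℓ : ℕ} [hℓ : Fact ℓ.Prime] (h5 : 5 ≤ ℓ) {N : Type u} [Field N]
    [NumberField N] (hdat : DatP ℓ N) (W : WeierstrassCurve N)
    (hW : (∃ D : WeierstrassCurve.VariableChange N, D • W = E N) ∨
      ∃ D : WeierstrassCurve.VariableChange N, D • W = TW.tw (-3 : N)) : PL.Concl ℓ W := by
  rcases hdat with ⟨_, hg⟩ | ⟨F, _, _, _, _, hL, hn, hg⟩
  · rcases hW with ⟨D, hD⟩ | ⟨D, hD⟩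
    · exact PL.concl_F h5 hg W D hD
    · have hz : (2 * algebraMap K N om + 1) ^ 2 = -3 := TW.om_of_sqrt _ rfl
      have hz0 : (2 * algebraMap K N om + 1 : N) ≠ 0 := by
        intro h0
        rw [h0, zero_pow two_ne_zero] at hz
        norm_num at hz
      obtain ⟨D', hD'⟩ := TW.exists_iso_sq (2 * algebraMap K N om + 1 : N) hz0
      rw [hz] at hD'
      exact PL.concl_F h5 hg W (D' * D) (by rw [mul_smul, hD, hD'])
  · exact PL.concl_N h5 hL hn hg W hW

end Pool.Agent.Lib.MP_1a91b9_ntT.TG
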