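import Pool.Agent.Lib.MP_1a91b9_ntT.TG.Abel

/-!
# Theorem G, Part 9: descent of the nonvanishing in abelian extensions
-/

set_option autoImplicit false

namespace Pool.Agent.Lib.MP_1a91b9_ntT.TG

open NumberField IsDedekindDomain WeierstrassCurve DB DX Module
open Pool.Agent.Lib.MP_1a91b9_nt (nrm nrm_eq)
open Pool.Agent.Lib.MP_1a91b9_ntG
open Pool.Agent.Lib.MP_1a91b9_ntT.S4 (psi psiK nK Over Lf hasProd_Lf hasProd_over
  psibC)

universe u

section
variable {F F' : Type u} [Field F] [NumberField F] [Field F'] [NumberField F'] [Algebra F F']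

theorem one_cases [IsGalois F F'] (hL : Module.finrank F F' = 1)
    (v : HeightOneSpectrum (𝓞 F)) : Fintype.card (Over F' v) = 1 ∧
      ∀ w : Over F' v, w.1.asIdeal.inertiaDeg (𝓞 F) = 1 ∧ nrm w.1 = nrm v := by
  have hvp : v.asIdeal.IsPrime := v.isPrime
  have hvm : v.asIdeal.IsMaximal := v.isMaximal
  have hfund := Ideal.ncard_primesOver_mul_ramificationIdxIn_mul_inertiaDegIn v.asIdeal (𝓞 F')
    Gal(F'/F)
  have hcard : Nat.card Gal(F'/F) = 1 := by
    rw [IsGalois.card_aut_eq_finrank, hL]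
  rw [hcard] at hfund
  have hc : Fintype.card (Over F' v) = (v.asIdeal.primesOver (𝓞 F')).ncard := by
    rw [← Pool.Agent.Lib.MP_1a91b9_nt.card_over_eq, Nat.card_eq_fintype_card]
  have h1 := Nat.eq_one_of_mul_eq_one_right hfund
  have h2 := Nat.eq_one_of_mul_eq_one_left (Nat.eq_one_of_mul_eq_one_left hfund)
  refine ⟨by rw [hc, h1], fun w => ?_⟩
  have i1 : w.1.asIdeal.IsPrime := w.1.isPrime
  have i2 : w.1.asIdeal.LiesOver v.asIdeal := ⟨w.2.symm⟩
  have h3 : w.1.asIdeal.inertiaDeg (𝓞 F) = 1 := by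
    rw [← Ideal.inertiaDegIn_eq_inertiaDeg v.asIdeal w.1.asIdeal Gal(F'/F)]
    exact h2
  refine ⟨h3, ?_⟩
  rw [nrm_eq, nrm_eq, ← Ideal.absNorm_pow_inertiaDeg v.asIdeal w.1.asIdeal, h3, pow_one]

variable [Algebra K F] [Algebra K F'] [IsScalarTower K F F']

theorem lgood_one [IsGalois F F'] (hL : Module.finrank F F' = 1) (h : DW.LGood F') :
    DW.LGood F := by
  obtain ⟨L, h1, h2, h3⟩ := h
  refine ⟨L, h1, fun s hs => ?_, h3⟩
  rw [h2 s hs]
  change Lf (psbC 3 F') s = Lf (psbC 3 F) s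
  have h4 := (hasProd_Lf (psbC 3 F') (psbC_one 3 F') (psbC_mul 3 F') (1 / 2) (by norm_num)
    norm_psbC_le s (by linarith)).2
  have h5 := hasProd_over (F := F) (F' := F') _ _ h4
  have h6 := (hasProd_Lf (psbC 3 F) (psbC_one 3 F) (psbC_mul 3 F) (1 / 2) (by norm_num)
    norm_psbC_le s (by linarith)).2
  refine h5.unique ?_
  have e : (fun v : HeightOneSpectrum (𝓞 F) => ∏ w : Over F' v,
      (1 - psbC 3 F' w.1.asIdeal * (Ideal.absNorm w.1.asIdeal : ℂ) ^ (-s))⁻¹) = fun v =>
      (1 - psbC 3 F v.asIdeal * (Ideal.absNorm v.asIdeal : ℂ) ^ (-s))⁻¹ := by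
    funext v
    obtain ⟨h7, h8⟩ := one_cases hL v
    rw [Finset.prod_congr rfl (g := fun _ =>
      (1 - psbC 3 F v.asIdeal * (Ideal.absNorm v.asIdeal : ℂ) ^ (-s))⁻¹)]
    · rw [Finset.prod_const, Finset.card_univ, h7, pow_one]
    · intro w _
      have h9 := (h8 w).2
      rw [nrm_eq, nrm_eq] at h9
      rw [psbC_over 3 v w, (h8 w).1, pow_one, h9]
  rw [e]
  exact h6

end

/-- The dual of the ring of integers is integral away from the different. -/
theorem uq_of_coprime (q : ℕ) (F : Type u) [Field F] [NumberField F] [Algebra K F]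
    (h : (Ideal.absNorm (differentIdeal (𝓞 K) (𝓞 F))).Coprime q) : Ell.UQ q F := by
  refine ⟨Ideal.absNorm (differentIdeal (𝓞 K) (𝓞 F)), h, ?_⟩
  intro v hv
  have h1 : (algebraMap (𝓞 F) F) (Ideal.absNorm (differentIdeal (𝓞 K) (𝓞 F)) : 𝓞 F) ∈
      IsLocalization.coeSubmodule F (differentIdeal (𝓞 K) (𝓞 F)) :=
    Submodule.mem_map_of_mem (Ideal.absNorm_mem _)
  rw [coeSubmodule_differentIdeal (𝓞 K) K, Submodule.mem_div_iff_forall_mul_mem] at h1
  have h2 : v ∈ Submodule.traceDual (𝓞 K) K (1 : Submodule (𝓞 F) F) := by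
    rw [Submodule.mem_traceDual]
    intro a ha
    obtain ⟨z, rfl⟩ := Submodule.mem_one.1 ha
    obtain ⟨c, hc⟩ := hv z
    exact ⟨c, by rw [Algebra.traceForm_apply]; exact hc.symm⟩
  obtain ⟨z, hz⟩ := Submodule.mem_one.1 (h1 v h2)
  rw [map_natCast] at hz
  rw [← hz]
  exact RingOfIntegers.isIntegral_coe z

/-- The values of the partial series exist for suitable auxiliary primes. -/
theorem exists_valueProp (F : Type u) [Field F] [NumberField F] [Algebra K F]
    (h3 : ¬ 3 ∣ finrank K F) (m : Ideal (𝓞 F)) (hm : m ≠ 0) :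
    ∃ q : ℕ, q ≠ 0 ∧ IsCoprime (3 : 𝓞 K) (q : 𝓞 K) ∧ IsCoprime m (Ideal.span {(q : 𝓞 F)}) ∧
      ValueProp 3 q Om F := by
  have hD : Ideal.absNorm (differentIdeal (𝓞 K) (𝓞 F)) ≠ 0 := by
    rw [Ne, Ideal.absNorm_eq_zero_iff]
    exact differentIdeal_ne_bot
  have hm' : Ideal.absNorm m ≠ 0 := by
    rw [Ne, Ideal.absNorm_eq_zero_iff]
    exact hm
  obtain ⟨q, hq, hqp⟩ := Nat.exists_infinite_primes
    (Ideal.absNorm (differentIdeal (𝓞 K) (𝓞 F)) + Ideal.absNorm m + 5)
  have hcop : ∀ n : ℕ, n ≠ 0 → n < q → n.Coprime q := by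
    intro n h0 hn
    rw [Nat.coprime_comm, Nat.Prime.coprime_iff_not_dvd hqp]
    intro hd
    have := Nat.le_of_dvd (Nat.pos_of_ne_zero h0) hd
    omega
  have h5 : 5 ≤ q := by omega
  refine ⟨q, hqp.ne_zero, DS.three_coprime hqp h5, ?_, ?_⟩
  · have h1 := Nat.isCoprime_iff_coprime.2 (hcop _ hm' (by omega))
    obtain ⟨a, b, hab⟩ := h1
    rw [Ideal.isCoprime_iff_exists]
    refine ⟨(a : 𝓞 F) * (Ideal.absNorm m : 𝓞 F), Ideal.mul_mem_left _ _ (Ideal.absNorm_mem m),
      (b : 𝓞 F) * (q : 𝓞 F), Ideal.mul_mem_left _ _ (Ideal.mem_span_singleton_self _), ?_⟩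
    have h2 := congrArg (Int.cast (R := 𝓞 F)) hab
    push_cast at h2
    exact h2
  · have h3q : q ≠ 3 := by omega
    have hom : IsCoprime omO (q : 𝓞 K) := by
      have h := (Ell.kq_om hqp h3q 1 (by norm_num)).1
      rwa [pow_one] at h
    have hle : ∀ 𝔪 : Ideal (𝓞 F), 𝔪 ≤ Ideal.span {MP_1a91b9_ntG.up 3 F} →
        𝔪 ≤ Ideal.span {(3 : 𝓞 F)} := by
      intro 𝔪 h
      rwa [MP_1a91b9_ntG.up, map_ofNat] at h
    exact valueProp_gen hqp 3 Om (fun A hA k hk z hz => Ell.d3_mem hqp A hA k hk z hz) omO hom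
      (Ell.kq_om hqp h3q _ h3).2 (uq_of_coprime q F (hcop _ hD (by omega)))
      (fun 𝔪 hm u hu => un_norm 𝔪 (hle 𝔪 hm) u hu)
      (fun 𝔪 hm u hu k hk huk => un_tors 𝔪 (hle 𝔪 hm) u hu k hk huk)

section
variable {μ : 𝓞 K} {N N₁ L : Type u} [Field N] [NumberField N] [Algebra K N] [Field N₁]
  [NumberField N₁] [Algebra K N₁] [Field L] [NumberField L] [Algebra K L] [Algebra N N₁]
  [Algebra N L] [Algebra N₁ L] [IsScalarTower K N N₁] [IsScalarTower K N L]
  [IsScalarTower K N₁ L] [IsScalarTower N N₁ L] [DecidableEq L]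
  {T : Pt L}

/-- descent in a step of prime degree -/
theorem lgood_step [IsGalois N N₁] [IsGalois N L] (hT : AbT μ N T) {p : ℕ} (hp : p.Prime)
    (hd : finrank N N₁ = p) (h3 : ¬ 3 ∣ finrank K N) (h : DW.LGood N₁) : DW.LGood N := by
  have hfp : Fact p.Prime := ⟨hp⟩
  obtain ⟨R, hR⟩ : ∃ R : Finset (HeightOneSpectrum (𝓞 N)), ∀ v, v ∈ R ↔
      MP_1a91b9_ntG.Ram N₁ v := by
    refine ⟨(finite_ram (F := N) N₁).toFinset, fun v => ?_⟩
    rw [Set.Finite.mem_toFinset]
    rfl
  obtain ⟨c, hc⟩ : ∃ c : 𝓞 N, c = ((3 * nAb μ : ℕ) : 𝓞 N) := ⟨_, rfl⟩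
  have hc0 : c ≠ 0 := by
    rw [hc]
    exact Nat.cast_ne_zero.2 (mul_ne_zero three_ne_zero (nAb_ne hT.ne))
  have hcu : ¬ IsUnit c := by
    intro hu
    rw [hc, Nat.cast_mul, Nat.cast_ofNat] at hu
    exact S4.three_not_unit (isUnit_of_mul_isUnit_left hu)
  obtain ⟨m, hm⟩ : ∃ m : Ideal (𝓞 N), m = Ideal.span {c} * ∏ w ∈ R, w.asIdeal := ⟨_, rfl⟩
  have hm0 : m ≠ 0 := by
    rw [hm]
    refine mul_ne_zero ?_ (Finset.prod_ne_zero_iff.mpr fun w _ => w.ne_bot)
    rw [Ne, Ideal.zero_eq_bot, Ideal.span_singleton_eq_bot]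
    exact hc0
  have hle : m ≤ Ideal.span {c} := by
    rw [hm]
    exact Ideal.mul_le_left
  have hm1 : m ≠ 1 := by
    intro h1
    rw [h1, Ideal.one_eq_top, top_le_iff, Ideal.span_singleton_eq_top] at hle
    exact hcu hle
  have hram : ∀ v : HeightOneSpectrum (𝓞 N), MP_1a91b9_ntG.Ram N₁ v → m ≤ v.asIdeal := by
    intro v hv
    rw [hm, v.isPrime.mul_le]
    right
    rw [prod_le_iff]
    exact (hR v).2 hv
  have hm3 : m ≤ Ideal.span {MP_1a91b9_ntG.up 3 N} := by
    refine hle.trans ?_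
    rw [MP_1a91b9_ntG.up, map_ofNat, Ideal.span_singleton_le_span_singleton, hc, Nat.cast_mul,
      Nat.cast_ofNat]
    exact dvd_mul_right _ _
  rw [hc] at hle
  obtain ⟨x, hx⟩ := hT.exists_rayData (N₁ := N₁) hle hd hm1 hram
  obtain ⟨q, hq0, hq3, hmq, hV⟩ := exists_valueProp N h3 m hm0
  exact lgood_desc hd hm0 hm1 hm3 hx hq0 hq3 hmq hV h

/-- the Galois group is commutative -/
theorem AbT.comm (hT : AbT μ N T) (σ τ : Gal(L/N)) : σ * τ = τ * σ := by
  obtain ⟨c, -, hc⟩ := gal_sm (k := N) hT.ne hT.ord σ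
  obtain ⟨d, -, hd⟩ := gal_sm (k := N) hT.ne hT.ord τ
  have h1 : ga (σ * τ) T = ga (τ * σ) T := by
    rw [ga_mul, ga_mul, hc, hd, ga_sm, ga_sm, hc, hd]
    have h2 : sm L d (sm L c T) = sm L (d * c) T := by
      rw [map_mul]
      rfl
    have h3 : sm L c (sm L d T) = sm L (c * d) T := by
      rw [map_mul]
      rfl
    rw [h2, h3, mul_comm]
  have h2 : ga ((τ * σ)⁻¹ * (σ * τ)) T = T := by
    rw [ga_mul, h1, ← ga_mul, inv_mul_cancel, ga_one]
  have h3 := hT.gen _ h2
  rw [inv_mul_eq_one] at h3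
  exact h3.symm

end

/-- **Descent of the nonvanishing** in the extensions generated by torsion points. -/
theorem lgood_abT (μ : 𝓞 K) (d : ℕ) : ∀ (N F L : Type u) [Field N] [NumberField N] [Algebra K N]
    [Field F] [NumberField F] [Algebra K F] [Field L] [NumberField L] [Algebra K L]
    [Algebra N F] [Algebra N L] [Algebra F L] [IsScalarTower K N F] [IsScalarTower K N L]
    [IsScalarTower K F L] [IsScalarTower N F L] [DecidableEq L] [IsGalois N L] (T : Pt L)
    (_ : AbT μ N T), finrank N F = d → ¬ 3 ∣ finrank K F → DW.LGood F → DW.LGood N := by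
  induction d using Nat.strong_induction_on with
  | _ d ih =>
    intro N F L _ _ _ _ _ _ _ _ _ _ _ _ _ _ _ _ _ _ T hT hd h3 hF
    have hfd : FiniteDimensional N L := Module.Finite.of_restrictScalars_finite ℚ N L
    have hfd' : FiniteDimensional N F := Module.Finite.of_restrictScalars_finite ℚ N F
    -- the extension `F / N` is Galois
    have hG : IsGalois N F := by
      let f : F →ₐ[N] L := IsScalarTower.toAlgHom N F L
      let e : F ≃ₐ[N] f.fieldRange := AlgEquiv.ofInjectiveField f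
      have hn : f.fieldRange.fixingSubgroup.Normal := ⟨fun σ hσ τ => by
        rw [hT.comm τ σ, mul_inv_cancel_right]
        exact hσ⟩
      have h1 : IsGalois N (IntermediateField.fixedField f.fieldRange.fixingSubgroup) :=
        IsGalois.of_fixedField_normal_subgroup _
      rw [IsGalois.fixedField_fixingSubgroup] at h1
      exact IsGalois.of_algEquiv e.symm
    by_cases hd1 : d = 1
    · exact lgood_one (by rw [hd, hd1]) hF
    · obtain ⟨p, hp, hpd⟩ := Nat.exists_prime_and_dvd hd1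
      have hfp : Fact p.Prime := ⟨hp⟩
      have hcardG : Nat.card Gal(F/N) = d := by rw [IsGalois.card_aut_eq_finrank, hd]
      obtain ⟨σ, hσ⟩ := exists_prime_orderOf_dvd_card' (G := Gal(F/N)) p (by rw [hcardG]; exact hpd)
      obtain ⟨M, hM⟩ : ∃ M : IntermediateField N F,
          M = IntermediateField.fixedField (Subgroup.zpowers σ) := ⟨_, rfl⟩
      have hpM : finrank M F = p := by
        rw [hM, IntermediateField.finrank_fixedField_eq_card, Nat.card_zpowers, hσ]
      have hmul : finrank N M * p = d := by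
        rw [← hpM, Module.finrank_mul_finrank, hd]
      have hpos : 0 < finrank N M := finrank_pos
      have hlt : finrank N M < d := by
        rw [← hmul]
        exact lt_mul_of_one_lt_right hpos hp.one_lt
      have t1 : IsScalarTower M F L := inferInstance
      have t2 : IsScalarTower N M L := IsScalarTower.of_algebraMap_eq fun x => by
        rw [IsScalarTower.algebraMap_apply N F L]
        rfl
      have t3 : IsScalarTower K M F := IsScalarTower.of_algebraMap_eq fun x => rfl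
      have t4 : IsScalarTower K M L := IsScalarTower.of_algebraMap_eq fun x => by
        rw [IsScalarTower.algebraMap_apply K F L]
        rfl
      have t5 : IsScalarTower K N M := IsScalarTower.of_algebraMap_eq fun x => by
        apply (algebraMap M F).injective
        rw [← IsScalarTower.algebraMap_apply K M F, ← IsScalarTower.algebraMap_apply N M F,
          ← IsScalarTower.algebraMap_apply K N F]
      have g1 : IsGalois M F := IsGalois.tower_top_of_isGalois N M F
      have g2 : IsGalois M L := IsGalois.tower_top_of_isGalois N M L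
      have hT' : AbT μ M T := ⟨hT.ne, hT.cop, hT.ord, fun τ hτ => by
        have h1 := hT.gen (toF N τ) hτ
        apply AlgEquiv.ext
        intro y
        rw [← toF_apply (F := N) τ y, h1]
        rfl⟩
      have h3M : ¬ 3 ∣ finrank K M := by
        intro h
        apply h3
        rw [← Module.finrank_mul_finrank K M F]
        exact Dvd.dvd.mul_right h _
      have hMg : DW.LGood M := lgood_step hT' hp hpM h3M hF
      exact ih (finrank N M) hlt N M L T hT rfl h3M hMg

end Pool.Agent.Lib.MP_1a91b9_ntT.TG
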