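import Pool.Agent.Lib.MP_1a91b9_ntT.TG.FinG
import Pool.Agent.Lib.MP_1a91b9_ntT.PL.Final

/-!
# The ramification condition over a base field equal to `K`

If `F₀ = K` the condition in terms of the places of `F₀` which ramify in `L` implies the condition in
terms of the discriminant of `L`.
-/

set_option autoImplicit false

namespace Pool.Agent.Lib.MP_1a91b9_ntT.TG

open NumberField IsDedekindDomain Module WeierstrassCurve
open Pool.Agent.Lib.MP_1a91b9_nt
open Pool.Agent.Lib.MP_1a91b9_ntT.S4 (fermatCubic fermatCubic_map)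
open Pool.Agent.Lib.MP_1a91b9_ntT.S5 (below mem_below)

/-- the number of points over the prime field divides the number of points -/
theorem card_dvd {p : ℕ} (hp : p.Prime) {k : Type*} [Field k] [Finite k] [CharP k p] :
    Nat.card (⟨0, 0, 1, 0, 0⟩ : WeierstrassCurve (ZMod p)).toAffine.Point ∣
      Nat.card (⟨0, 0, 1, 0, 0⟩ : WeierstrassCurve k).toAffine.Point := by
  classical
  have hfp : Fact p.Prime := ⟨hp⟩
  let a : Algebra (ZMod p) k := ZMod.algebra k p
  obtain ⟨W, hW⟩ : ∃ W : WeierstrassCurve (ZMod p), W = fermatCubic (ZMod p) := ⟨_, rfl⟩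
  have e1 : W.map (algebraMap (ZMod p) (ZMod p)) = fermatCubic (ZMod p) := by
    rw [hW]
    exact fermatCubic_map _
  have e2 : W.map (algebraMap (ZMod p) k) = fermatCubic k := by
    rw [hW]
    exact fermatCubic_map _
  have hf' : Finite (W.map (algebraMap (ZMod p) k)).toAffine.Point :=
    Finite.of_equiv _ (pointEquivOption _).symm
  have h1 : Nat.card (W.map (algebraMap (ZMod p) (ZMod p))).toAffine.Point ∣
      Nat.card (W.map (algebraMap (ZMod p) k)).toAffine.Point :=
    AddSubgroup.card_dvd_of_injective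
      (WeierstrassCurve.Affine.Point.map (W' := W.toAffine) (Algebra.ofId (ZMod p) k))
      (WeierstrassCurve.Affine.Point.map_injective _)
  rw [e1, e2] at h1
  exact h1

section
variable {F₀ L : Type} [Field F₀] [NumberField F₀] [Algebra K F₀] [Field L] [NumberField L]
  [Algebra F₀ L]

/-- The condition in terms of the discriminant. -/
theorem ramP_of_ramC (hb : finrank K F₀ = 1) {ℓ : ℕ} (h : RamC ℓ F₀ L) : PT.RamP ℓ L := by
  intro p hp hp3 hd
  have hbK : Function.Bijective (algebraMap K F₀) := by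
    exact Algebra.finrank_eq_one_iff_bijective_algebraMap.1 hb
  have hpZ := Nat.prime_iff_prime_int.1 hp
  by_contra hcon
  refine (not_dvd_discr_iff_forall_mem L (𝓞 L) hpZ).2 (fun P hP hpP => ?_) hd
  have hpP' : (p : 𝓞 L) ∈ P := by exact_mod_cast hpP
  have hbot : P ≠ ⊥ := by
    rintro rfl
    exact (Nat.cast_ne_zero.2 hp.ne_zero : (p : 𝓞 L) ≠ 0) ((Submodule.mem_bot _).1 hpP')
  obtain ⟨w, hw⟩ : ∃ w : HeightOneSpectrum (𝓞 L), w.asIdeal = P := ⟨⟨P, hP, hbot⟩, rfl⟩
  subst hw
  have hvp : (below F₀ w).asIdeal.IsPrime := (below F₀ w).isPrime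
  have hlo : w.asIdeal.LiesOver (below F₀ w).asIdeal := ⟨rfl⟩
  have hpv : (p : 𝓞 F₀) ∈ (below F₀ w).asIdeal := by
    rw [mem_below, map_natCast]
    exact hpP'
  have h3v : (3 : 𝓞 F₀) ∉ (below F₀ w).asIdeal := by
    intro h3
    have hc : Nat.Coprime p 3 := (Nat.coprime_primes hp Nat.prime_three).2 hp3
    obtain ⟨a, b, hab⟩ := Nat.isCoprime_iff_coprime.2 hc
    apply hvp.ne_top
    rw [Ideal.eq_top_iff_one]
    have h2 : (1 : 𝓞 F₀) = (a : 𝓞 F₀) * (p : 𝓞 F₀) + (b : 𝓞 F₀) * 3 := by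
      have h4 := congrArg (Int.cast (R := 𝓞 F₀)) hab
      push_cast at h4
      exact h4.symm
    rw [h2]
    exact Ideal.add_mem _ (Ideal.mul_mem_left _ _ hpv) (Ideal.mul_mem_left _ _ h3)
  -- `F₀` is unramified over the rational numbers outside `3`
  have h1 : Algebra.IsUnramifiedAt ℤ (below F₀ w).asIdeal := by
    have hadj : Algebra.adjoin ℚ {algebraMap K F₀ om} = ⊤ := by
      have htop : Algebra.adjoin ℚ {om} = ⊤ :=
        IsCyclotomicExtension.adjoin_primitive_root_eq_top om_spec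
      have h5 := congrArg (Subalgebra.map (IsScalarTower.toAlgHom ℚ K F₀)) htop
      rw [AlgHom.map_adjoin, Set.image_singleton, Algebra.map_top] at h5
      rw [show (algebraMap K F₀ om : F₀) = IsScalarTower.toAlgHom ℚ K F₀ om from rfl, h5]
      exact AlgHom.range_eq_top _ |>.2 hbK.2
    obtain ⟨v, hv⟩ : ∃ v, v = below F₀ w := ⟨_, rfl⟩
    rw [← hv] at hvp hpv h3v
    have i1 : (below ℚ v).asIdeal.IsPrime := (below ℚ v).isPrime
    have i2 : v.asIdeal.LiesOver (below ℚ v).asIdeal := ⟨rfl⟩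
    have h6 : (p : 𝓞 ℚ) ∈ (below ℚ v).asIdeal := by
      rw [mem_below, map_natCast]
      exact hpv
    have h7 : Algebra.IsUnramifiedAt ℤ (below ℚ v).asIdeal :=
      (not_dvd_discr_iff_forall_mem ℚ (𝓞 ℚ) hpZ).1 (by
        rw [discr_rat]
        exact hpZ.not_dvd_one) _ i1 (by exact_mod_cast h6)
    have h8 : Algebra.IsUnramifiedAt (𝓞 ℚ) v.asIdeal := PT.unr_om hadj v h3v
    have h9 : Algebra.IsUnramifiedAt ℤ v.asIdeal :=
      Algebra.IsUnramifiedAt.comp (below ℚ v).asIdeal v.asIdeal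
    subst hv
    exact h9
  have h2 : Algebra.IsUnramifiedAt (𝓞 F₀) w.asIdeal := by
    rw [← Ideal.ramificationIdx_eq_one_iff]
    by_contra hne
    obtain ⟨hl, hc⟩ := h (below F₀ w) w ((MP_1a91b9_ntG.le_sq_iff rfl).mpr hne)
    have hc' := hc h3v
    apply hcon
    refine ⟨fun e => hl (by rw [← e]; exact hpv), fun hdv => hc' (hdv.trans ?_)⟩
    have hm : (below F₀ w).asIdeal.IsMaximal := (below F₀ w).isMaximal
    letI : Field (𝓞 F₀ ⧸ (below F₀ w).asIdeal) := Ideal.Quotient.field _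
    have i2 : Finite (𝓞 F₀ ⧸ (below F₀ w).asIdeal) :=
      Ideal.finiteQuotientOfFreeOfNeBot _ (below F₀ w).ne_bot
    have i3 : CharP (𝓞 F₀ ⧸ (below F₀ w).asIdeal) p := by
      rw [CharP.charP_iff_prime_eq_zero hp]
      have h5 := Ideal.Quotient.eq_zero_iff_mem.2 hpv
      rwa [map_natCast] at h5
    exact card_dvd hp
  exact Algebra.IsUnramifiedAt.comp (below F₀ w).asIdeal w.asIdeal

end

end Pool.Agent.Lib.MP_1a91b9_ntT.TG
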