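import Pool.Agent.Lib.MP_1a91b9_ntT.TG.Abel
import Pool.Agent.Lib.MP_1a91b9_ntT.DG.Defs

/-!
# Theorem G, Part 0: the annihilator of a torsion point, the field of a torsion point is Galois
-/

set_option autoImplicit false

namespace Pool.Agent.Lib.MP_1a91b9_ntT.TG

open NumberField IsDedekindDomain WeierstrassCurve DB DX Module IntermediateField

universe u

/-- the prime element above three -/
noncomputable def pi3 : 𝓞 K := 1 - S3.omO

theorem omO_quad : S3.omO ^ 2 + S3.omO + 1 = 0 := by
  apply RingOfIntegers.ext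
  exact S3.om_quad

theorem pi3_sq : pi3 ^ 2 = 3 * -S3.omO := by
  rw [pi3]
  linear_combination omO_quad

theorem pi3_dvd_three : pi3 ∣ 3 := by
  refine ⟨1 - S3.omO ^ 2, ?_⟩
  rw [pi3]
  linear_combination (2 - S3.omO) * omO_quad

theorem three_dvd_pi3_sq : (3 : 𝓞 K) ∣ pi3 ^ 2 := ⟨_, pi3_sq⟩

instance pidK : IsPrincipalIdealRing (𝓞 K) := IsCyclotomicExtension.Rat.three_pid K

theorem prime_pi3 : Prime pi3 := by
  have h0 : pi3 ≠ 0 := by
    intro h
    have h1 := pi3_sq
    rw [h, zero_pow two_ne_zero] at h1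
    have h2 := (mul_eq_zero.1 h1.symm).resolve_left (by norm_num : (3 : 𝓞 K) ≠ 0)
    rw [neg_eq_zero] at h2
    have h3 := omO_quad
    rw [h2] at h3
    norm_num at h3
  have h1 : ((Ideal.absNorm (Ideal.span {pi3}) : ℕ) : 𝓞 K) = 3 := by
    rw [← mul_cj]
    have h2 : cj S3.omO = -S3.omO - 1 := by
      have h3 := cj_coords 0 1
      rw [Int.cast_zero, Int.cast_one, zero_add, one_mul] at h3
      rw [h3]
      push_cast
      ring
    rw [pi3, map_sub, map_one, h2]
    linear_combination -omO_quad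
  have h2 : Ideal.absNorm (Ideal.span {pi3}) = 3 := by exact_mod_cast h1
  have h3 : (Ideal.span {pi3}).IsPrime := Ideal.isPrime_of_irreducible_absNorm (by
    rw [h2]
    exact Nat.prime_three)
  exact (Ideal.span_singleton_prime h0).1 h3

theorem coprime_three {μ : 𝓞 K} (h : ¬ pi3 ∣ μ) : IsCoprime μ 3 := by
  have h1 : IsCoprime pi3 μ := prime_pi3.irreducible.coprime_iff_not_dvd.2 h
  exact IsCoprime.of_isCoprime_of_dvd_right h1.symm.pow_right three_dvd_pi3_sq

section
variable {F : Type*} [Field F] [Algebra K F] [DecidableEq F]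

theorem sm_mul_apply (a b : 𝓞 K) (R : Pt F) : sm F (a * b) R = sm F a (sm F b R) := by
  rw [map_mul]
  rfl

theorem sm_add_apply (a b : 𝓞 K) (R : Pt F) : sm F (a + b) R = sm F a R + sm F b R := by
  rw [map_add]
  rfl

/-- the annihilator of a torsion point -/
theorem exists_ann {T : Pt F} {n : ℕ} (hn : n ≠ 0) (h : n • T = 0) :
    ∃ ν : 𝓞 K, ν ≠ 0 ∧ Ord ν T := by
  let I : Ideal (𝓞 K) :=
    { carrier := {a | sm F a T = 0}
      add_mem' := fun {a b} ha hb => by
        change sm F (a + b) T = 0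
        rw [sm_add_apply, ha, hb, add_zero]
      zero_mem' := by
        change sm F 0 T = 0
        rw [map_zero]
        rfl
      smul_mem' := fun c a ha => by
        change sm F (c * a) T = 0
        have ha' : sm F a T = 0 := ha
        rw [sm_mul_apply, ha', map_zero] }
  have hI : ∀ a, a ∈ I ↔ sm F a T = 0 := fun a => Iff.rfl
  obtain ⟨ν, hν⟩ := (IsPrincipalIdealRing.principal I).principal
  have hν' : ∀ a, a ∈ I ↔ ν ∣ a := by
    intro a
    rw [hν, Ideal.submodule_span_eq, Ideal.mem_span_singleton]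
  refine ⟨ν, ?_, fun c => by rw [← hI, hν']⟩
  rintro rfl
  have h1 : ((n : ℕ) : 𝓞 K) ∈ I := by
    rw [hI, sm_nat, h]
  rw [hν', zero_dvd_iff] at h1
  exact hn (by exact_mod_cast h1)

end

/-- the field of a torsion point is Galois -/
theorem gal_of_gen {L : Type u} [Field L] [NumberField L] [Algebra K L] [DecidableEq L]
    {T : Pt L} {ν : 𝓞 K} (hν : ν ≠ 0) (hT : Ord ν T)
    (hgen : IntermediateField.adjoin K {xc T, yc T} = ⊤) : IsGalois K L := by
  classical
  have hfd : FiniteDimensional K L := Module.Finite.of_restrictScalars_finite ℚ K L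
  have hKL : Algebra.IsAlgebraic K L := Algebra.IsAlgebraic.of_finite K L
  have hKΩ : Algebra.IsAlgebraic K (AlgebraicClosure L) := Algebra.IsAlgebraic.trans K L _
  have hC : IsAlgClosure K (AlgebraicClosure L) := ⟨inferInstance, hKΩ⟩
  have hN : Normal K (AlgebraicClosure L) := IsAlgClosure.normal K _
  let g : AlgebraicClosure L →ₐ[K] ℂ := IsAlgClosed.lift
  let f : L →ₐ[K] AlgebraicClosure L := IsScalarTower.toAlgHom K L _
  have hfr : f.fieldRange = IntermediateField.adjoin K {f (xc T), f (yc T)} := by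
    rw [AlgHom.fieldRange_eq_map, ← hgen, adjoin_map, Set.image_pair]
  have hNE : Normal K f.fieldRange := by
    rw [IntermediateField.normal_iff_forall_map_le']
    intro σ
    have h1 : sm (AlgebraicClosure L) ν (pm (σ : AlgebraicClosure L →ₐ[K] AlgebraicClosure L)
        (pm f T)) = 0 := by
      rw [← pm_sm, ← pm_sm, (hT ν).2 dvd_rfl, map_zero, map_zero]
    obtain ⟨c, hc⟩ := ord_cases g hν ((Ord.map f).2 hT) h1
    rw [← pm_sm] at hc
    have hx := congrArg xc hc
    have hy := congrArg yc hc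
    rw [xc_pm, xc_pm, xc_pm] at hx
    rw [yc_pm, yc_pm, yc_pm] at hy
    rw [hfr, adjoin_map, Set.image_pair, adjoin_le_iff, ← hfr]
    rintro z (rfl | rfl)
    · change σ (f (xc T)) ∈ f.fieldRange
      exact ⟨_, hx.symm⟩
    · change σ (f (yc T)) ∈ f.fieldRange
      exact ⟨_, hy.symm⟩
  let e : L ≃ₐ[K] f.fieldRange := AlgEquiv.ofInjectiveField f
  have hNL : Normal K L := Normal.of_algEquiv e.symm
  exact ⟨⟩

/-- an automorphism which fixes the point is the identity -/
theorem eq_one_of_gen {L : Type u} [Field L] [NumberField L] [Algebra K L] [DecidableEq L]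
    {T : Pt L} (hgen : IntermediateField.adjoin K {xc T, yc T} = ⊤) (σ : Gal(L/K))
    (hσ : ga σ T = T) : σ = 1 := by
  have hx := congrArg xc hσ
  have hy := congrArg yc hσ
  rw [xc_pm] at hx
  rw [yc_pm] at hy
  have hx' : σ (xc T) = xc T := hx
  have hy' : σ (yc T) = yc T := hy
  apply AlgEquiv.ext
  intro z
  have hz : z ∈ IntermediateField.adjoin K {xc T, yc T} := by
    rw [hgen]
    trivial
  have hle : IntermediateField.adjoin K {xc T, yc T} ≤
      IntermediateField.fixedField (Subgroup.zpowers σ) := by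
    rw [adjoin_le_iff]
    have key : ∀ w : L, σ w = w → w ∈ IntermediateField.fixedField (Subgroup.zpowers σ) := by
      intro w hw
      rw [mem_fixedField_iff]
      intro τ hτ
      have h1 : Subgroup.zpowers σ ≤ MulAction.stabilizer Gal(L/K) w := by
        rw [Subgroup.zpowers_le]
        exact hw
      exact h1 hτ
    rintro w (rfl | rfl)
    · exact key _ hx'
    · exact key _ hy'
  have h1 := (mem_fixedField_iff _ _).1 (hle hz) σ (Subgroup.mem_zpowers σ)
  rw [h1]
  rfl

end Pool.Agent.Lib.MP_1a91b9_ntT.TG
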