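import Pool.Agent.Lib.MP_1a91b9_ntT.TG.Std1

/-!
# Theorem G, Part 0: reduction to a torsion point of order prime to three
-/

set_option autoImplicit false

namespace Pool.Agent.Lib.MP_1a91b9_ntT.TG

open NumberField IsDedekindDomain WeierstrassCurve DB DX Module IntermediateField
open Pool.Agent.Lib.MP_1a91b9_ntT.DG (AB)

section
variable {L : Type} [Field L] [NumberField L] [Algebra K L] [DecidableEq L]

/-- the points killed by `pi3` are rational -/
theorem fix_pi3 (σ : Gal(L/K)) {P : Pt L} (h : sm L pi3 P = 0) : ga σ P = P := by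
  rcases cases_pt P with rfl | ⟨x, y, hxy, rfl⟩
  · rw [map_zero]
  · have h1 : sm L pi3 (mkPt x y hxy) = mkPt x y hxy - omH L (mkPt x y hxy) := by
      rw [pi3, map_sub, map_one]
      change mkPt x y hxy - sm L S3.omO (mkPt x y hxy) = _
      rw [sm_om]
    rw [h1, sub_eq_zero] at h
    have h2 : x = omF L * x := congrArg xc h
    have h3 : omF L ≠ 1 := by
      intro h4
      have h5 := omF_quad L
      rw [h4] at h5
      norm_num at h5
    have h4 : x = 0 := by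
      have h5 : (omF L - 1) * x = 0 := by linear_combination -h2
      exact (mul_eq_zero.1 h5).resolve_left (sub_ne_zero.2 h3)
    subst h4
    have h5 : y * (y + 1) = 0 := by linear_combination hxy
    obtain ⟨h6, e6⟩ := pm_mk ((σ : L →ₐ[K] L).restrictScalars K) 0 y hxy
    refine e6.trans (mk_inj.2 ⟨map_zero _, ?_⟩)
    rcases mul_eq_zero.1 h5 with h7 | h7
    · subst h7
      exact map_zero _
    · have h8 : y = -1 := by linear_combination h7
      subst h8
      rw [map_neg, map_one]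

theorem pow_dvd {c μ : 𝓞 K} (h1 : μ * pi3 ∣ c - 1) (h2 : pi3 ∣ c - 1) (j : ℕ) :
    μ * pi3 ^ (j + 1) ∣ c ^ 3 ^ j - 1 ∧ pi3 ∣ c ^ 3 ^ j - 1 := by
  induction j with
  | zero => simpa using ⟨h1, h2⟩
  | succ j ih =>
    obtain ⟨i1, i2⟩ := ih
    set x : 𝓞 K := c ^ 3 ^ j with hx
    have e : c ^ 3 ^ (j + 1) - 1 = (x - 1) * (x ^ 2 + x + 1) := by
      rw [hx, pow_succ 3 j, pow_mul]
      ring
    have h3 : pi3 ∣ x ^ 2 + x + 1 := by
      have h4 : x ^ 2 + x + 1 = (x - 1) * (x + 2) + 3 := by ring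
      rw [h4]
      exact dvd_add (i2.mul_right _) pi3_dvd_three
    rw [e]
    refine ⟨?_, i2.mul_right _⟩
    rw [pow_succ pi3 (j + 1), ← mul_assoc]
    exact mul_dvd_mul i1 h3

theorem ga_pow {T : Pt L} (σ : Gal(L/K)) {c : 𝓞 K} (h : ga σ T = sm L c T) (m : ℕ) :
    ga (σ ^ m) T = sm L (c ^ m) T := by
  induction m with
  | zero =>
    rw [pow_zero, pow_zero, ga_one, map_one]
    rfl
  | succ m ih => rw [pow_succ, ga_mul, h, ga_sm, ih, ← sm_mul_apply, pow_succ, mul_comm]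

/-- the automorphisms which fix the part of order prime to three have order a power of three -/
theorem ord_three {T₀ : Pt L} {μ : 𝓞 K} {k : ℕ} (hμ0 : μ ≠ 0) (hμ : ¬ pi3 ∣ μ)
    (hT₀ : Ord (μ * pi3 ^ k) T₀)
    (hgen : IntermediateField.adjoin K {xc T₀, yc T₀} = ⊤) (σ : Gal(L/K))
    (hσ : ga σ (sm L (pi3 ^ k) T₀) = sm L (pi3 ^ k) T₀) : ∃ j : ℕ, σ ^ 3 ^ j = 1 := by
  have hpi0 : pi3 ≠ 0 := prime_pi3.ne_zero
  have hν0 : μ * pi3 ^ k ≠ 0 := mul_ne_zero hμ0 (pow_ne_zero _ hpi0)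
  obtain ⟨c, -, hc⟩ := gal_sm (k := K) hν0 hT₀ σ
  have h1 : μ ∣ c - 1 := by
    rw [ga_sm, hc, ← sm_mul_apply] at hσ
    have h2 := (hT₀.sm_eq_iff _ _).1 hσ
    have h3 : pi3 ^ k * μ ∣ pi3 ^ k * (c - 1) := by
      rw [mul_comm (pi3 ^ k) μ]
      refine h2.trans (dvd_of_eq ?_)
      ring
    exact (mul_dvd_mul_iff_left (pow_ne_zero _ hpi0)).1 h3
  rcases Nat.eq_zero_or_pos k with rfl | hk
  · refine ⟨0, ?_⟩
    rw [pow_zero, pow_one]
    apply eq_one_of_gen hgen
    rw [pow_zero, map_one] at hσ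
    exact hσ
  · obtain ⟨i, rfl⟩ : ∃ i, k = i + 1 := ⟨k - 1, by omega⟩
    have h2 : pi3 ∣ c - 1 := by
      have h3 : sm L pi3 (sm L (μ * pi3 ^ i) T₀) = 0 := by
        rw [← sm_mul_apply, hT₀]
        exact dvd_of_eq (by ring)
      have h4 := fix_pi3 σ h3
      rw [ga_sm, hc, ← sm_mul_apply] at h4
      have h5 := (hT₀.sm_eq_iff _ _).1 h4
      have h6 : (μ * pi3 ^ i) * pi3 ∣ (μ * pi3 ^ i) * (c - 1) := by
        have e1 : (μ * pi3 ^ i) * pi3 = μ * pi3 ^ (i + 1) := by ring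
        have e2 : (μ * pi3 ^ i) * (c - 1) = μ * pi3 ^ i * c - μ * pi3 ^ i := by ring
        rw [e1, e2]
        exact h5
      exact (mul_dvd_mul_iff_left (mul_ne_zero hμ0 (pow_ne_zero _ hpi0))).1 h6
    have hcop : IsCoprime μ pi3 := (prime_pi3.irreducible.coprime_iff_not_dvd.2 hμ).symm
    have h3 : μ * pi3 ∣ c - 1 := hcop.mul_dvd h1 h2
    refine ⟨i + 1, ?_⟩
    apply eq_one_of_gen hgen
    rw [ga_pow σ hc]
    have h4 := (pow_dvd h3 h2 (i + 1)).1
    have h5 : μ * pi3 ^ (i + 1) ∣ c ^ 3 ^ (i + 1) - 1 := by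
      refine Dvd.dvd.trans ?_ h4
      exact mul_dvd_mul_left _ (pow_dvd_pow _ (by omega))
    have h6 := (hT₀.sm_eq_iff _ _).2 h5
    rw [h6, map_one]
    rfl

/-- descent of a point -/
theorem exists_pt_down (E' : IntermediateField K L) [DecidableEq E'] (P : Pt L)
    (hx : xc P ∈ E') (hy : yc P ∈ E') : ∃ P' : Pt E', pm E'.val P' = P := by
  rcases cases_pt P with rfl | ⟨x, y, h, rfl⟩
  · exact ⟨0, map_zero _⟩
  · have h' : (⟨y, hy⟩ : E') ^ 2 + ⟨y, hy⟩ = (⟨x, hx⟩ : E') ^ 3 := Subtype.ext h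
    exact ⟨mkPt ⟨x, hx⟩ ⟨y, hy⟩ h', rfl⟩

end

section
variable (F₀ L : Type) [Field F₀] [NumberField F₀] [Algebra K F₀] [Field L] [NumberField L]
  [Algebra K L] [Algebra F₀ L] [IsScalarTower K F₀ L] [DecidableEq L]

/-- **Part 0.** -/
theorem std_form {T₀ : Pt L} {n : ℕ} (hn : n ≠ 0) (hT : n • T₀ = 0)
    (hgen : IntermediateField.adjoin K {xc T₀, yc T₀} = ⊤) (h3 : ¬ 3 ∣ finrank K F₀) :
    ∃ (μ : 𝓞 K) (L' : Type) (_ : Field L') (_ : NumberField L') (_ : Algebra K L')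
      (_ : Algebra F₀ L') (_ : IsScalarTower K F₀ L') (_ : DecidableEq L') (T : Pt L'),
      AB μ F₀ L' T := by
  classical
  obtain ⟨ν, hν0, hν⟩ := exists_ann hn hT
  have hG : IsGalois K L := gal_of_gen hν0 hν hgen
  obtain ⟨μ, hk, hμ⟩ :=
    (FiniteMultiplicity.of_prime_left prime_pi3 hν0).exists_eq_pow_mul_and_not_dvd
  obtain ⟨k, hkdef⟩ : ∃ k, k = multiplicity pi3 ν := ⟨_, rfl⟩
  rw [← hkdef, mul_comm] at hk
  rw [hk] at hν hν0
  have hμ0 : μ ≠ 0 := left_ne_zero_of_mul hν0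
  obtain ⟨T, hTdef⟩ : ∃ T, T = sm L (pi3 ^ k) T₀ := ⟨_, rfl⟩
  have hTord : Ord μ T := by
    intro c
    rw [hTdef, ← sm_mul_apply, hν, mul_comm c, mul_comm μ]
    exact mul_dvd_mul_iff_left (pow_ne_zero _ prime_pi3.ne_zero)
  -- the Galois group is commutative
  have hcomm : ∀ σ τ : Gal(L/K), σ * τ = τ * σ := by
    intro σ τ
    obtain ⟨c, -, hc⟩ := gal_sm (k := K) hν0 hν σ
    obtain ⟨d, -, hd⟩ := gal_sm (k := K) hν0 hν τ
    have h1 : ga (σ * τ) T₀ = ga (τ * σ) T₀ := by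
      rw [ga_mul, ga_mul, hc, hd, ga_sm, ga_sm, hc, hd, ← sm_mul_apply, ← sm_mul_apply, mul_comm]
    have h2 : ga ((τ * σ)⁻¹ * (σ * τ)) T₀ = T₀ := by
      rw [ga_mul, h1, ← ga_mul, inv_mul_cancel, ga_one]
    have h3 := eq_one_of_gen hgen _ h2
    rw [inv_mul_eq_one] at h3
    exact h3.symm
  let H : Subgroup Gal(L/K) :=
    { carrier := {σ | ga σ T = T}
      mul_mem' := fun {σ τ} hσ hτ => by
        change ga (σ * τ) T = T
        have hσ' : ga σ T = T := hσ
        have hτ' : ga τ T = T := hτ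
        rw [ga_mul, hτ', hσ']
      one_mem' := ga_one T
      inv_mem' := fun {σ} hσ => by
        change ga σ⁻¹ T = T
        have hσ' : ga σ T = T := hσ
        have h1 : ga σ⁻¹ (ga σ T) = T := by rw [← ga_mul, inv_mul_cancel, ga_one]
        rwa [hσ'] at h1 }
  have hH : ∀ σ, σ ∈ H ↔ ga σ T = T := fun σ => Iff.rfl
  have hnorm : H.Normal := ⟨fun σ hσ τ => by
    rw [hcomm τ σ, mul_inv_cancel_right]
    exact hσ⟩
  -- `F₀` is fixed
  have hfd : FiniteDimensional K L := Module.Finite.of_restrictScalars_finite ℚ K L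
  have hfd' : FiniteDimensional K F₀ := Module.Finite.of_restrictScalars_finite ℚ K F₀
  have hG0 : IsGalois K F₀ := by
    let f : F₀ →ₐ[K] L := IsScalarTower.toAlgHom K F₀ L
    let e : F₀ ≃ₐ[K] f.fieldRange := AlgEquiv.ofInjectiveField f
    have hn : f.fieldRange.fixingSubgroup.Normal := ⟨fun σ hσ τ => by
      rw [hcomm τ σ, mul_inv_cancel_right]
      exact hσ⟩
    have h1 : IsGalois K (IntermediateField.fixedField f.fieldRange.fixingSubgroup) :=
      IsGalois.of_fixedField_normal_subgroup _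
    rw [IsGalois.fixedField_fixingSubgroup] at h1
    exact IsGalois.of_algEquiv e.symm
  have hfix : ∀ σ ∈ H, ∀ x : F₀, σ (algebraMap F₀ L x) = algebraMap F₀ L x := by
    intro σ hσ x
    rw [hH, hTdef] at hσ
    obtain ⟨j, hj⟩ := ord_three hμ0 hμ hν hgen σ hσ
    obtain ⟨τ, hτ⟩ : ∃ τ : Gal(F₀/K), τ = AlgEquiv.restrictNormalHom F₀ σ := ⟨_, rfl⟩
    have h1 : τ ^ 3 ^ j = 1 := by rw [hτ, ← map_pow, hj, map_one]
    have h2 : orderOf τ ∣ 3 ^ j := orderOf_dvd_of_pow_eq_one h1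
    have h4 : orderOf τ ∣ finrank K F₀ := by
      rw [← IsGalois.card_aut_eq_finrank]
      exact orderOf_dvd_natCard τ
    obtain ⟨i, -, hi⟩ := (Nat.dvd_prime_pow Nat.prime_three).1 h2
    have hi0 : i = 0 := by
      by_contra hne
      apply h3
      refine Dvd.dvd.trans ?_ h4
      rw [hi]
      exact dvd_pow_self 3 hne
    rw [hi0, pow_zero, orderOf_eq_one_iff] at hi
    have h5 := AlgEquiv.restrictNormal_commutes σ F₀ x
    have h6 : σ.restrictNormal F₀ = 1 := by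
      have h7 : AlgEquiv.restrictNormalHom F₀ σ = σ.restrictNormal F₀ := rfl
      rw [← h7, ← hτ, hi]
    rw [h6, AlgEquiv.one_apply] at h5
    exact h5.symm
  let L' : IntermediateField K L := IntermediateField.fixedField H
  have hmem : ∀ x : F₀, algebraMap F₀ L x ∈ L' := fun x => by
    rw [mem_fixedField_iff]
    exact fun σ hσ => hfix σ hσ x
  let aF : Algebra F₀ L' := ((algebraMap F₀ L).codRestrict L'.toSubalgebra.toSubring hmem).toAlgebra
  have t1 : IsScalarTower K F₀ L' := IsScalarTower.of_algebraMap_eq fun x => Subtype.ext (by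
    change algebraMap K L x = algebraMap F₀ L (algebraMap K F₀ x)
    exact IsScalarTower.algebraMap_apply K F₀ L x)
  have hgal : IsGalois K L' := IsGalois.of_fixedField_normal_subgroup H
  have hxy : ∀ σ ∈ H, σ (xc T) = xc T ∧ σ (yc T) = yc T := by
    intro σ hσ
    have hσ' := (hH σ).1 hσ
    have hx := congrArg xc hσ'
    have hy := congrArg yc hσ'
    rw [xc_pm] at hx
    rw [yc_pm] at hy
    exact ⟨hx, hy⟩
  let dL : DecidableEq L' := Classical.decEq _
  obtain ⟨T', hT'⟩ := exists_pt_down L' T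
    (by rw [mem_fixedField_iff]; exact fun σ hσ => (hxy σ hσ).1)
    (by rw [mem_fixedField_iff]; exact fun σ hσ => (hxy σ hσ).2)
  have hup : DX.up L T' = T := hT'
  refine ⟨μ, L', inferInstance, inferInstance, inferInstance, aF, t1, dL, T', hgal, hμ0, ?_,
    coprime_three hμ, fun σ hσ => ?_, h3⟩
  · rw [← Ord.map L'.val, hT']
    exact hTord
  · obtain ⟨τ, hτ⟩ := AlgEquiv.restrictNormalHom_surjective (K₁ := L') L σ
    have h1 : rs L' τ = σ := hτ
    have h2 : ga τ (DX.up L T') = DX.up L (ga (rs L' τ) T') := ga_up τ T'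
    rw [h1, hσ, hup] at h2
    have h4 := (hH τ).2 h2
    apply AlgEquiv.ext
    intro z
    have h5 := rs_apply (N := L') τ z
    rw [h1] at h5
    have h6 : τ (algebraMap L' L z) = algebraMap L' L z :=
      (mem_fixedField_iff H _).1 z.2 τ h4
    rw [h6] at h5
    exact (algebraMap L' L).injective h5

end

end Pool.Agent.Lib.MP_1a91b9_ntT.TG
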