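import Pool.Agent.Lib.MP_1a91b9_ntT.TG.Analytic

/-!
# Theorem G, Part 9: descent of the nonvanishing in a cyclic extension of prime degree

`RayData p F' m x`: the character data of `F'/F`, Galois of prime degree `p`, with an arbitrary
modulus `m` divisible by the ramified places. `lgood_desc`: if the series of `F'` continues and
does not vanish at `1`, the same is true for `F`.
-/

set_option autoImplicit false

namespace Pool.Agent.Lib.MP_1a91b9_ntT.TG

open NumberField IsDedekindDomain Pool.Agent.Lib.MP_1a91b9_nt Pool.Agent.Lib.MP_1a91b9_ntT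
  Pool.Agent.Lib.MP_1a91b9_ntT.S4 Pool.Agent.Lib.MP_1a91b9_ntG

universe u

section
variable {F F' : Type u} [Field F] [NumberField F] [Field F'] [NumberField F'] [Algebra F F']
  {p : ℕ} [hp : Fact p.Prime]

/-- The character data of a cyclic extension of prime degree `p`, with modulus `m`. -/
structure RayData (p : ℕ) (F' : Type u) [Field F'] [NumberField F'] [Algebra F F']
    (m : Ideal (𝓞 F)) (x : HeightOneSpectrum (𝓞 F) → ZMod p) : Prop where
  unr : ∀ v : HeightOneSpectrum (𝓞 F), ¬ m ≤ v.asIdeal → ¬ Ram F' v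
  split : ∀ v : HeightOneSpectrum (𝓞 F), ¬ m ≤ v.asIdeal →
    (x v = 0 ↔ Fintype.card (Over F' v) = p)
  recip : ∀ z : 𝓞 F, z ≠ 0 → z - 1 ∈ m → addI x (Ideal.span {z}) = 0

open Classical in
/-- the `j`-th character modulo `m` -/
noncomputable def chr (x : HeightOneSpectrum (𝓞 F) → ZMod p) (m : Ideal (𝓞 F)) (j : ZMod p)
    (I : Ideal (𝓞 F)) : ℂ :=
  if IsCoprime I m then ZMod.stdAddChar (j * addI x I) else 0

theorem chr_of {x : HeightOneSpectrum (𝓞 F) → ZMod p} {m : Ideal (𝓞 F)} {j : ZMod p}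
    {I : Ideal (𝓞 F)} (h : IsCoprime I m) : chr x m j I = ZMod.stdAddChar (j * addI x I) :=
  if_pos h

theorem chr_of_not {x : HeightOneSpectrum (𝓞 F) → ZMod p} {m : Ideal (𝓞 F)} {j : ZMod p}
    {I : Ideal (𝓞 F)} (h : ¬ IsCoprime I m) : chr x m j I = 0 := if_neg h

theorem chr_one (x : HeightOneSpectrum (𝓞 F) → ZMod p) (m : Ideal (𝓞 F)) (j : ZMod p) :
    chr x m j 1 = 1 := by
  rw [chr_of isCoprime_one_left, addI_one, mul_zero, AddChar.map_zero_eq_one]

theorem chr_mul (x : HeightOneSpectrum (𝓞 F) → ZMod p) {m : Ideal (𝓞 F)} (hm1 : m ≠ 1)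
    (j : ZMod p) (I J : Ideal (𝓞 F)) : chr x m j (I * J) = chr x m j I * chr x m j J := by
  by_cases hI : IsCoprime I m
  · by_cases hJ : IsCoprime J m
    · rw [chr_of (hI.mul_left hJ), chr_of hI, chr_of hJ,
        addI_mul x I J (ne_zero_of_coprime hm1 hI) (ne_zero_of_coprime hm1 hJ), mul_add,
        AddChar.map_add_eq_mul]
    · rw [chr_of_not hJ, mul_zero, chr_of_not fun h => hJ h.of_mul_left_right]
  · rw [chr_of_not hI, zero_mul, chr_of_not fun h => hI h.of_mul_left_left]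

theorem norm_chr_le (x : HeightOneSpectrum (𝓞 F) → ZMod p) (m : Ideal (𝓞 F)) (j : ZMod p)
    (I : Ideal (𝓞 F)) : ‖chr x m j I‖ ≤ 1 := by
  by_cases hI : IsCoprime I m
  · rw [chr_of hI, ZMod.stdAddChar_apply, Circle.norm_coe]
  · rw [chr_of_not hI, norm_zero]
    exact zero_le_one

theorem chr_zero (x : HeightOneSpectrum (𝓞 F) → ZMod p) (m I : Ideal (𝓞 F)) :
    chr x m 0 I = indC m I := by
  by_cases hI : IsCoprime I m
  · rw [chr_of hI, indC_of hI, zero_mul, AddChar.map_zero_eq_one]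
  · rw [chr_of_not hI, indC_of_not hI]

section
variable {m : Ideal (𝓞 F)} {x : HeightOneSpectrum (𝓞 F) → ZMod p} (hx : RayData p F' m x)
include hx

theorem RayData.span_eq (z z' y : 𝓞 F) (hm1 : m ≠ 1) (hz : z ≠ 0) (hz' : z' ≠ 0)
    (e1 : z * y - 1 ∈ m) (e2 : z' * y - 1 ∈ m) :
    addI x (Ideal.span {z}) = addI x (Ideal.span {z'}) := by
  have hy : y ≠ 0 := by
    rintro rfl
    apply hm1
    rw [Ideal.one_eq_top, Ideal.eq_top_iff_one]
    rw [mul_zero, zero_sub] at e1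
    exact m.neg_mem_iff.mp e1
  have r1 := hx.recip (z * y) (mul_ne_zero hz hy) e1
  have r2 := hx.recip (z' * y) (mul_ne_zero hz' hy) e2
  rw [addI_span_mul x z y hz hy] at r1
  rw [addI_span_mul x z' y hz' hy] at r2
  exact add_right_cancel (r1.trans r2.symm)

/-- the additive function is a ray class invariant -/
theorem RayData.ray (hm0 : m ≠ 0) (hm1 : m ≠ 1) (I J : Ideal (𝓞 F)) (hI : IsCoprime I m)
    (h : RayEq m I J) : addI x I = addI x J := by
  obtain ⟨b, z, z', hb, hz, hz', h1, h2, h3, h4⟩ := h.normalize m hm0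
  have hI0 : I ≠ 0 := ne_zero_of_coprime hm1 hI
  have hJ0 : J ≠ 0 := by
    intro h0
    rw [h0, zero_mul, Ideal.zero_eq_bot, eq_comm, Ideal.span_singleton_eq_bot] at h2
    exact hz' h2
  have hzm : IsCoprime (Ideal.span {z}) m := by
    rw [← h1]
    exact hI.mul_left h4
  obtain ⟨y, e1, e2⟩ := exists_inv_mod m z z' hzm (Ideal.mul_le_left h3)
  have h5 := hx.span_eq z z' y hm1 hz hz' e1 e2
  rw [← h1, ← h2, addI_mul _ _ _ hI0 hb, addI_mul _ _ _ hJ0 hb] at h5
  exact add_right_cancel h5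

theorem RayData.chr_ray (hm0 : m ≠ 0) (hm1 : m ≠ 1) (j : ZMod p) (I J : Ideal (𝓞 F))
    (h : RayEq m I J) : chr x m j I = chr x m j J := by
  by_cases hI : IsCoprime I m
  · rw [chr_of hI, chr_of (h.coprime hI), hx.ray hm0 hm1 I J hI h]
  · rw [chr_of_not hI, chr_of_not fun hJ => hI (h.symm.coprime hJ)]

end

end

section
variable {F F' : Type u} [Field F] [NumberField F] [Field F'] [NumberField F'] [Algebra F F']
  [Algebra K F] [Algebra K F'] [IsScalarTower K F F'] (f : 𝓞 K) [hf : IsMod f]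
  {p : ℕ} [hp : Fact p.Prime]

theorem coprime_map_iff (m : Ideal (𝓞 F)) (v : HeightOneSpectrum (𝓞 F)) (w : Over F' v) :
    IsCoprime w.1.asIdeal (m.map (algebraMap (𝓞 F) (𝓞 F'))) ↔ ¬ m ≤ v.asIdeal := by
  have hwm : w.1.asIdeal.IsMaximal := w.1.isMaximal
  have h1 : m.map (algebraMap (𝓞 F) (𝓞 F')) ≤ w.1.asIdeal ↔ m ≤ v.asIdeal := by
    rw [Ideal.map_le_iff_le_comap]
    have h2 : Ideal.comap (algebraMap (𝓞 F) (𝓞 F')) w.1.asIdeal = v.asIdeal := w.2
    rw [h2]
  rw [← h1, Ideal.isCoprime_iff_sup_eq]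
  constructor
  · intro h2 h3
    rw [sup_eq_left.mpr h3] at h2
    exact w.1.isPrime.ne_top h2
  · intro h2
    by_contra h3
    apply h2
    have h4 := hwm.eq_of_le h3 le_sup_left
    rw [h4]
    exact le_sup_right

include hf in
/-- The factorisation of the Euler factor outside of `m`. -/
theorem euler_ray [IsGalois F F'] (hL : Module.finrank F F' = p) {m : Ideal (𝓞 F)}
    {x : HeightOneSpectrum (𝓞 F) → ZMod p} (hx : RayData p F' m x) (v : HeightOneSpectrum (𝓞 F))
    (s : ℂ) :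
    ∏ w : Over F' v, (1 - (psbC f F' w.1.asIdeal *
        indC (m.map (algebraMap (𝓞 F) (𝓞 F'))) w.1.asIdeal) *
        (Ideal.absNorm w.1.asIdeal : ℂ) ^ (-s))⁻¹ =
      ∏ j : ZMod p, (1 - (psbC f F v.asIdeal * chr x m j v.asIdeal) *
        (Ideal.absNorm v.asIdeal : ℂ) ^ (-s))⁻¹ := by
  classical
  by_cases hm : m ≤ v.asIdeal
  · have hc : ∀ j, chr x m j v.asIdeal = 0 := fun j =>
      chr_of_not ((le_iff_not_coprime m v).mp hm)
    simp only [hc, mul_zero, zero_mul, sub_zero, inv_one, Finset.prod_const_one]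
    refine Finset.prod_eq_one fun w _ => ?_
    rw [indC_of_not (fun h => (coprime_map_iff m v w).mp h hm), mul_zero, zero_mul, sub_zero,
      inv_one]
  · have hcop : IsCoprime v.asIdeal m := by
      by_contra h
      exact hm ((le_iff_not_coprime m v).mpr h)
    have hi : ∀ w : Over F' v, indC (m.map (algebraMap (𝓞 F) (𝓞 F'))) w.1.asIdeal = 1 :=
      fun w => indC_of ((coprime_map_iff m v w).mpr hm)
    have hc : ∀ j, chr x m j v.asIdeal = ZMod.stdAddChar (j * x v) := fun j => by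
      rw [chr_of hcop, addI_place]
    simp only [hi, hc, mul_one]
    rcases cyc_cases hp.out hL v with ⟨h0, h1, h2⟩ | ⟨h0, h1, h2⟩ | ⟨h0, h1, h2⟩
    · have hx0 : x v = 0 := (hx.split v hm).mpr h1
      simp only [hx0, mul_zero, AddChar.map_zero_eq_one, mul_one]
      rw [Finset.prod_congr rfl (g := fun _ =>
        (1 - psbC f F v.asIdeal * (Ideal.absNorm v.asIdeal : ℂ) ^ (-s))⁻¹)]
      · rw [Finset.prod_const, Finset.prod_const, Finset.card_univ, h1, Finset.card_univ,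
          ZMod.card]
      · intro w _
        have h3 := (h2 w).2
        rw [nrm_eq, nrm_eq] at h3
        rw [psbC_over f v w, (h2 w).1, pow_one, h3]
    · have hx0 : x v ≠ 0 := by
        intro h
        have := (hx.split v hm).mp h
        rw [h1] at this
        exact hp.out.one_lt.ne this
      have e2 : ∏ j : ZMod p, (1 - psbC f F v.asIdeal * ZMod.stdAddChar (j * x v) *
          (Ideal.absNorm v.asIdeal : ℂ) ^ (-s)) =
          1 - (psbC f F v.asIdeal * (Ideal.absNorm v.asIdeal : ℂ) ^ (-s)) ^ p := by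
        rw [← prod_one_sub_mul (x v) hx0]
        refine Finset.prod_congr rfl fun j _ => ?_
        ring
      rw [Finset.prod_inv_distrib (f := fun j => 1 - psbC f F v.asIdeal *
        ZMod.stdAddChar (j * x v) * (Ideal.absNorm v.asIdeal : ℂ) ^ (-s)), e2]
      rw [Finset.prod_congr rfl (g := fun _ =>
        (1 - (psbC f F v.asIdeal * (Ideal.absNorm v.asIdeal : ℂ) ^ (-s)) ^ p)⁻¹)]
      · rw [Finset.prod_const, Finset.card_univ, h1, pow_one]
      · intro w _
        have h3 := (h2 w).2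
        rw [nrm_eq, nrm_eq] at h3
        rw [psbC_over f v w, (h2 w).1, h3, mul_pow]
        congr 3
        rw [Nat.cast_pow, ← Complex.natCast_cpow_natCast_mul, Complex.cpow_nat_mul]
    · exact absurd h0 (hx.unr v hm)

include hf in
/-- The factorisation of the series outside of `m`. -/
theorem ray_Lf [IsGalois F F'] (hL : Module.finrank F F' = p) {m : Ideal (𝓞 F)} (hm1 : m ≠ 1)
    {x : HeightOneSpectrum (𝓞 F) → ZMod p} (hx : RayData p F' m x) (s : ℂ) (hs : 2 < s.re) :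
    Lf (fun I => psbC f F' I * indC (m.map (algebraMap (𝓞 F) (𝓞 F'))) I) s =
      ∏ j : ZMod p, Lf (fun I => psbC f F I * chr x m j I) s := by
  have h1 := (hasProd_Lf (fun I => psbC f F' I * indC (m.map (algebraMap (𝓞 F) (𝓞 F'))) I)
    (by rw [psbC_one, indC_one, mul_one])
    (fun I J => by rw [psbC_mul, indC_mul]; ring) (1 / 2) (by norm_num)
    (fun I => norm_psbC_mul_le _ I (norm_indC_le _ I)) s (by linarith)).2
  have h2 := hasProd_over (F := F) (F' := F') _ _ h1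
  have h4 : HasProd (fun v : HeightOneSpectrum (𝓞 F) => ∏ j : ZMod p,
      (1 - (psbC f F v.asIdeal * chr x m j v.asIdeal) *
        (Ideal.absNorm v.asIdeal : ℂ) ^ (-s))⁻¹)
      (∏ j : ZMod p, Lf (fun I => psbC f F I * chr x m j I) s) :=
    hasProd_prod fun j _ => (hasProd_Lf (fun I => psbC f F I * chr x m j I)
      (by rw [psbC_one, chr_one, mul_one])
      (fun I J => by rw [psbC_mul, chr_mul x hm1]; ring) (1 / 2) (by norm_num)
      (fun I => norm_psbC_mul_le _ I (norm_chr_le x m j I)) s (by linarith)).2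
  refine h2.unique ?_
  have e : (fun v : HeightOneSpectrum (𝓞 F) => ∏ w : Over F' v, (1 - (psbC f F' w.1.asIdeal *
        indC (m.map (algebraMap (𝓞 F) (𝓞 F'))) w.1.asIdeal) *
        (Ideal.absNorm w.1.asIdeal : ℂ) ^ (-s))⁻¹) = fun v => ∏ j : ZMod p,
      (1 - (psbC f F v.asIdeal * chr x m j v.asIdeal) *
        (Ideal.absNorm v.asIdeal : ℂ) ^ (-s))⁻¹ := funext fun v => euler_ray f hL hx v s
  rw [e]
  exact h4

/-- the Euler factors do not vanish at `1` -/
theorem euler_ne (v : HeightOneSpectrum (𝓞 F)) :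
    1 - psbC f F v.asIdeal * (Ideal.absNorm v.asIdeal : ℂ) ^ (-(1 : ℂ)) ≠ 0 := by
  intro h
  have h1 : psbC f F v.asIdeal * (Ideal.absNorm v.asIdeal : ℂ) ^ (-(1 : ℂ)) = 1 :=
    (sub_eq_zero.1 h).symm
  have hn : 1 < Ideal.absNorm v.asIdeal := by
    have h2 : Ideal.absNorm v.asIdeal ≠ 0 :=
      Ideal.absNorm_ne_zero_iff_mem_nonZeroDivisors.mpr
        (mem_nonZeroDivisors_iff_ne_zero.mpr v.ne_bot)
    have h3 : Ideal.absNorm v.asIdeal ≠ 1 := fun h3 =>
      v.isPrime.ne_top (Ideal.absNorm_eq_one_iff.mp h3)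
    omega
  have hn' : (1 : ℝ) < (Ideal.absNorm v.asIdeal : ℝ) := by exact_mod_cast hn
  have h2 := norm_psbC_le (f := f) v.asIdeal
  have h3 : ‖psbC f F v.asIdeal‖ * ((Ideal.absNorm v.asIdeal : ℝ))⁻¹ = 1 := by
    have h4 := congrArg norm h1
    rw [norm_mul, norm_one, Complex.cpow_neg_one, norm_inv, Complex.norm_natCast] at h4
    exact h4
  have h4 : (Ideal.absNorm v.asIdeal : ℝ) ^ (1 / 2 : ℝ) < (Ideal.absNorm v.asIdeal : ℝ) := by
    calc (Ideal.absNorm v.asIdeal : ℝ) ^ (1 / 2 : ℝ) < (Ideal.absNorm v.asIdeal : ℝ) ^ (1 : ℝ) :=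
          Real.rpow_lt_rpow_of_exponent_lt hn' (by norm_num)
      _ = _ := Real.rpow_one _
  have h5 : ‖psbC f F v.asIdeal‖ = (Ideal.absNorm v.asIdeal : ℝ) := by
    have h6 : (Ideal.absNorm v.asIdeal : ℝ) ≠ 0 := by positivity
    field_simp at h3
    exact h3
  rw [h5] at h2
  exact absurd h2 (not_le.mpr h4)

end

/-- **Descent of the nonvanishing.** -/
theorem lgood_desc {F F' : Type u} [Field F] [NumberField F] [Field F'] [NumberField F']
    [Algebra F F'] [Algebra K F] [Algebra K F'] [IsScalarTower K F F'] [IsGalois F F'] {p : ℕ}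
    [hp : Fact p.Prime] (hL : Module.finrank F F' = p) {m : Ideal (𝓞 F)} (hm0 : m ≠ 0)
    (hm1 : m ≠ 1) (hm3 : m ≤ Ideal.span {MP_1a91b9_ntG.up 3 F})
    {x : HeightOneSpectrum (𝓞 F) → ZMod p}
    (hx : RayData p F' m x) {q : ℕ} (hq0 : q ≠ 0) (hq3 : IsCoprime (3 : 𝓞 K) (q : 𝓞 K))
    (hmq : IsCoprime m (Ideal.span {(q : 𝓞 F)})) {Ω : ℂ} (hV : ValueProp 3 q Ω F)
    (hg : DW.LGood F') : DW.LGood F := by
  classical
  obtain ⟨ι, hι, J, G, hG, hJ, -, hfam⟩ := exists_family hq0 hV m hm0 hm1 hm3 hmq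
  obtain ⟨L', hLd', hL1', hne⟩ := hg
  obtain ⟨L, hLd, hL1⟩ := exists_cont hq0 hq3 hV
  have hBfin : {v : HeightOneSpectrum (𝓞 F) | m ≤ v.asIdeal}.Finite := by
    refine (Ideal.finite_factors hm0).subset fun v hv => ?_
    exact Ideal.dvd_iff_le.mpr hv
  obtain ⟨B, hBdef⟩ : ∃ B, B = hBfin.toFinset := ⟨_, rfl⟩
  have hB : ∀ v, v ∈ B ↔ m ≤ v.asIdeal := fun v => by
    rw [hBdef, Set.Finite.mem_toFinset]; rfl
  obtain ⟨m', hm'⟩ : ∃ m', m' = m.map (algebraMap (𝓞 F) (𝓞 F')) := ⟨_, rfl⟩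
  have hm0' : m' ≠ 0 := by
    rw [hm', Ne, Ideal.zero_eq_bot, Ideal.map_eq_bot_iff_of_injective
      (FaithfulSMul.algebraMap_injective _ _)]
    exact hm0
  have hBfin' : {w : HeightOneSpectrum (𝓞 F') | m' ≤ w.asIdeal}.Finite := by
    refine (Ideal.finite_factors hm0').subset fun v hv => ?_
    exact Ideal.dvd_iff_le.mpr hv
  obtain ⟨B', hBdef'⟩ : ∃ B', B' = hBfin'.toFinset := ⟨_, rfl⟩
  have hB' : ∀ v, v ∈ B' ↔ m' ≤ v.asIdeal := fun v => by
    rw [hBdef', Set.Finite.mem_toFinset]; rfl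
  let G1 : ZMod p → ℂ → ℂ := fun j s => ∑ i, chr x m j (J i) * G i s
  have hG1d : ∀ j, Differentiable ℂ (G1 j) := fun j =>
    Differentiable.fun_sum fun i _ => (differentiable_const _).mul (hG i)
  have hG1L : ∀ j, ∀ s : ℂ, 2 < s.re → Lf (fun I => psbC 3 F I * chr x m j I) s = G1 j s := by
    intro j s hs
    exact hfam (chr x m j) (fun I hI => chr_of_not hI) (norm_chr_le x m j)
      (hx.chr_ray hm0 hm1 j) s hs
  have id1 : G1 0 = fun s => L s * ∏ v ∈ B, (1 - psbC 3 F v.asIdeal *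
      (Ideal.absNorm v.asIdeal : ℂ) ^ (-s)) := by
    refine entire_eq (hG1d 0) (hLd.mul (differentiable_euler B _)) fun s hs => ?_
    have e : (fun I => psbC 3 F I * chr x m 0 I) = fun I => psbC 3 F I * indC m I :=
      funext fun I => by rw [chr_zero]
    rw [← hG1L 0 s hs, e, MP_1a91b9_ntG.Lf_indC m B hB s hs, hL1 s hs]
  have id2 : (fun s => L' s * ∏ w ∈ B', (1 - psbC 3 F' w.asIdeal *
      (Ideal.absNorm w.asIdeal : ℂ) ^ (-s))) = fun s => ∏ j : ZMod p, G1 j s := by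
    refine entire_eq (hLd'.mul (differentiable_euler B' _))
      (Differentiable.fun_finsetProd fun j _ => hG1d j) fun s hs => ?_
    have e1 : L' s = Lf (psbC 3 F') s := hL1' s hs
    rw [e1, ← MP_1a91b9_ntG.Lf_indC (f := 3) m' B' hB' s hs, hm', ray_Lf 3 hL hm1 hx s hs]
    exact Finset.prod_congr rfl fun j _ => hG1L j s hs
  have e2 := congrFun id2 1
  have h1 : ∏ j : ZMod p, G1 j 1 ≠ 0 := by
    rw [← e2]
    exact mul_ne_zero hne (Finset.prod_ne_zero_iff.mpr fun w _ => euler_ne 3 w)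
  have h2 : G1 0 1 ≠ 0 := (Finset.prod_ne_zero_iff.mp h1) 0 (Finset.mem_univ _)
  rw [id1] at h2
  exact ⟨L, hLd, fun s hs => hL1 s hs, left_ne_zero_of_mul h2⟩

end Pool.Agent.Lib.MP_1a91b9_ntT.TG
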