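import Pool.Agent.Lib.MP_1a91b9_ntT.TG.Comp

/-!
# Theorem G, Part 9: descent of the nonvanishing from `N F₀` to `N`
-/

set_option autoImplicit false

namespace Pool.Agent.Lib.MP_1a91b9_ntT.TG

open NumberField IsDedekindDomain WeierstrassCurve DB DX Module


/-- If `F₀` is contained in the field `L'` generated over `K` by a torsion point of order prime to
three, the nonvanishing descends from `F = N F₀` to `N`. -/
theorem lgood_sub {μ : 𝓞 K} (N F F₀ L' : Type) [Field N] [NumberField N] [Algebra K N] [Field F]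
    [NumberField F] [Algebra K F] [Field F₀] [NumberField F₀] [Algebra K F₀] [Field L']
    [NumberField L'] [Algebra K L'] [Algebra N F] [Algebra F₀ F] [Algebra F₀ L']
    [IsScalarTower K N F] [IsScalarTower K F₀ F] [IsScalarTower K F₀ L'] [IsGalois K L']
    [DecidableEq L'] {T : Pt L'} (hT : AbT μ K T)
    (hgen : IntermediateField.adjoin N (Set.range (algebraMap F₀ F)) = ⊤)
    (h3 : ¬ 3 ∣ finrank K F) (h : DW.LGood F) : DW.LGood N := by
  classical
  obtain ⟨L, _, _, _, _, _, _, t1, t2, t3, t4, hG, hL⟩ := exists_comp N F F₀ L' hgen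
  refine lgood_abT μ _ N F L (up L T) ⟨hT.ne, hT.cop, (ord_up L).2 hT.ord, fun σ hσ => ?_⟩ rfl h3 h
  apply hL
  intro x
  have h1 : ga (rs L' (toF K σ)) T = T := by
    rw [← up_inj L, ← ga_up]
    exact hσ
  have h2 := hT.gen _ h1
  have h3 := rs_apply (N := L') (toF K σ) x
  rw [h2, AlgEquiv.one_apply, toF_apply] at h3
  exact h3.symm

end Pool.Agent.Lib.MP_1a91b9_ntT.TG
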