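import Pool.Agent.Lib.MP_1a91b9_ntT.TG.RamP
import Pool.Agent.Lib.MP_1a91b9_ntT.TG.Std2
import Pool.Agent.Lib.MP_1a91b9_ntT.TG.Ba

/-!
# Theorem G: the theorem over a general abelian base field
-/

set_option autoImplicit false

namespace Pool.Agent.Lib.MP_1a91b9_ntT.TG

open NumberField IsDedekindDomain Module WeierstrassCurve
open Pool.Agent.Lib.MP_1a91b9_nt
open Pool.Agent.Lib.MP_1a91b9_ntT.S4 (psi NoCube3)
open Pool.Agent.Lib.MP_1a91b9_ntT.DG (U AB)
open DB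

/-- The conclusion for the rank. -/
def ConclR {N : Type} [Field N] [NumberField N] (W : WeierstrassCurve N) : Prop :=
  (∃ g : ℂ → ℂ, Differentiable ℂ g ∧ (∀ s : ℂ, 3 / 2 < s.re → g s = W.LSeries s) ∧ g 1 ≠ 0) ∧
    Finite W.toAffine.Point

/-- The conclusion for all the fields of the tower. -/
def TowC (ℓ : ℕ) (F₀ : Type) [Field F₀] [NumberField F₀] (ev : Prop) : Prop :=
  ∀ (n : ℕ) (N L M : Type) [Field N] [NumberField N] [Field L] [NumberField L] [Field M]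
    [NumberField M] [Algebra N L] [Algebra F₀ L] [Algebra L M] [Algebra F₀ M]
    [IsScalarTower F₀ L M] [IsGalois F₀ M], finrank F₀ M = ℓ ^ n → RamC ℓ F₀ L →
    ∀ (W : WeierstrassCurve N) (C : VariableChange L), C • W.baseChange L = ⟨0, 0, 1, 0, 0⟩ →
      (ev → (∃ D : VariableChange N, D • W = ⟨0, 0, 1, 0, 0⟩) ∨
        ∃ D : VariableChange N, D • W = ⟨0, 0, 0, 0, -432⟩) →
      ConclR W ∧ ∀ _ : Fact ℓ.Prime, PL.Concl ℓ W

theorem tw_eq {N : Type*} [Field N] : TW.tw (-3 : N) = ⟨0, 0, 0, 0, -432⟩ := by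
  unfold TW.tw
  norm_num

section
variable {F₀ : Type} [Field F₀] [NumberField F₀] [Algebra K F₀]

/-- The case `F₀ = K`. -/
theorem towC_K (hb : finrank K F₀ = 1) {ℓ : ℕ} (hℓ : ℓ.Prime) (h3 : ℓ ≠ 3) (ev : Prop) :
    TowC ℓ F₀ ev := by
  intro n N L M _ _ _ _ _ _ _ _ _ _ _ _ hM hL W C hC _
  have hbK : Function.Bijective (algebraMap K F₀) :=
    Algebra.finrank_eq_one_iff_bijective_algebraMap.1 hb
  let aKM : Algebra K M := ((algebraMap F₀ M).comp (algebraMap K F₀)).toAlgebra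
  have t2 : IsScalarTower K F₀ M := IsScalarTower.of_algebraMap_eq fun x => rfl
  have hM' : finrank K M = ℓ ^ n := by
    rw [← Module.finrank_mul_finrank K F₀ M, hb, one_mul, hM]
  have hG : IsGalois K M := by
    refine IsGalois.of_equiv_equiv (F := F₀) (E := M) (M := K) (N := M)
      (f := (RingEquiv.ofBijective (algebraMap K F₀) hbK).symm) (g := RingEquiv.refl M) ?_
    ext x
    obtain ⟨y, rfl⟩ := hbK.2 x
    change algebraMap K M ((RingEquiv.ofBijective (algebraMap K F₀) hbK).symm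
      (RingEquiv.ofBijective (algebraMap K F₀) hbK y)) = algebraMap F₀ M (algebraMap K F₀ y)
    rw [RingEquiv.symm_apply_apply]
    rfl
  have hLP := ramP_of_ramC hb hL
  exact ⟨PT.main_K hℓ h3 N L M n hM' hLP W C hC,
    fun hF => PL.main h3 N L M n hM' hLP W C hC⟩

/-- The general case. -/
theorem towC_G (hb : BaseThm) {μ : 𝓞 K} {L₀ : Type} [Field L₀] [NumberField L₀] [Algebra K L₀]
    [Algebra F₀ L₀] [IsScalarTower K F₀ L₀] [DecidableEq L₀] {J : Pt L₀} (h : AB μ F₀ L₀ J)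
    {ℓ : ℕ} (hℓ : ℓ.Prime) (h5 : 5 ≤ ℓ) (hcu : ¬ ℓ ∣ Nat.card (U μ)) (hμ : ¬ ℓ ∣ nAb μ)
    (hna : NaG ℓ μ F₀) (hU : MP_1a91b9_ntG.UnitProp 3 ℓ Om F₀) :
    TowC ℓ F₀ (2 ∣ finrank K F₀) := by
  intro n N L M _ _ _ _ _ _ _ _ _ _ _ _ hM hL W C hC hev
  obtain ⟨h1, h2, h3⟩ := concl_ell hb h hℓ h5 hcu hμ hna hU N L M n hM (ramG_of_ramC hℓ hL)
  have hW : (∃ D : WeierstrassCurve.VariableChange N, D • W = E N) ∨
      ∃ D : WeierstrassCurve.VariableChange N, D • W = TW.tw (-3 : N) := by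
    by_cases h2 : 2 ∣ finrank K F₀
    · rw [tw_eq]
      exact hev h2
    · let aKM : Algebra K M := ((algebraMap F₀ M).comp (algebraMap K F₀)).toAlgebra
      have t2 : IsScalarTower K F₀ M := IsScalarTower.of_algebraMap_eq fun x => rfl
      have hM' : finrank K M = finrank K F₀ * ℓ ^ n := by
        rw [← Module.finrank_mul_finrank K F₀ M, hM]
      refine DW.twist_class N L M ?_ ?_ W C hC
      · rw [hM', Nat.prime_two.dvd_mul]
        rintro (h4 | h4)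
        · exact h2 h4
        · have h6 := (Nat.prime_dvd_prime_iff_eq Nat.prime_two hℓ).1
            (Nat.prime_two.dvd_of_dvd_pow h4)
          omega
      · rw [hM', Nat.prime_three.dvd_mul]
        rintro (h4 | h4)
        · exact h.three h4
        · have h6 := (Nat.prime_dvd_prime_iff_eq Nat.prime_three hℓ).1
            (Nat.prime_three.dvd_of_dvd_pow h4)
          omega
  exact ⟨concl_of_dat h1 h2 W hW, fun hF => conclP_of_dat h5 (h3 hF) W hW⟩

/-- **Theorem G** over the concrete field `K`. -/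
theorem thmG_K (hb : BaseThm) {L₀ : Type} [Field L₀] [NumberField L₀] [Algebra K L₀]
    [Algebra F₀ L₀] [IsScalarTower K F₀ L₀] [DecidableEq L₀] {T₀ : Pt L₀} {n₀ : ℕ}
    (hn₀ : n₀ ≠ 0) (hT₀ : n₀ • T₀ = 0)
    (hgen : IntermediateField.adjoin K {xc T₀, yc T₀} = ⊤) (h3 : ¬ 3 ∣ finrank K F₀)
    (hg : 1 < finrank K F₀ → ∃ g₀ : ℂ → ℂ, Differentiable ℂ g₀ ∧ (∀ s : ℂ, 3 / 2 < s.re →
      g₀ s = (⟨0, 0, 1, 0, 0⟩ : WeierstrassCurve F₀).LSeries s) ∧ g₀ 1 ≠ 0) :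
    ∃ S : Finset ℕ, (finrank K F₀ = 1 → S = {3}) ∧
      ∀ ℓ : ℕ, ℓ.Prime → ℓ ∉ S → TowC ℓ F₀ (2 ∣ finrank K F₀) := by
  by_cases hF : finrank K F₀ = 1
  · refine ⟨{3}, fun _ => rfl, fun ℓ hℓ hS => towC_K hF hℓ ?_ _⟩
    rintro rfl
    exact hS (Finset.mem_singleton_self 3)
  · have hF1 : 1 < finrank K F₀ := by
      have h4 : 0 < finrank K F₀ := finrank_pos
      omega
    obtain ⟨g₀, hg₀, hgs, h1⟩ := hg hF1
    obtain ⟨μ, L', _, _, _, _, _, _, T, hAB⟩ := std_form F₀ L₀ hn₀ hT₀ hgen h3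
    have hg : DW.LGood F₀ := lgood_of_g (noc_ab hAB) hg₀ (fun s hs => hgs s (by linarith)) h1
    obtain ⟨D, hD0, hD⟩ := exists_exc hAB.ne hg
    refine ⟨D.primeFactors, fun h => absurd h hF, fun ℓ hℓ hS => ?_⟩
    have hdv : ¬ ℓ ∣ D := fun h => hS (Nat.mem_primeFactors.2 ⟨hℓ, h, hD0⟩)
    obtain ⟨h5, hμ, hcu, hna, hU⟩ := hD ℓ hℓ hdv
    exact towC_G hb hAB hℓ h5 hcu hμ hna hU

end

/-- transport of the order of a point -/
theorem ord_transport {F : Type*} [Field F] [DecidableEq F] {W W' : WeierstrassCurve F}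
    (e : W = W') (x y : F) (h : W.toAffine.Nonsingular x y) (h' : W'.toAffine.Nonsingular x y)
    (hf : IsOfFinAddOrder (Affine.Point.some x y h)) :
    IsOfFinAddOrder (Affine.Point.some x y h') := by
  subst e
  exact hf

/-- **Theorem G.** -/
theorem thmG (hb : BaseThm) (K₀ F₀ L₀ : Type) [Field K₀] [NumberField K₀]
    [IsCyclotomicExtension {3} ℚ K₀] [Field F₀] [NumberField F₀] [Field L₀] [NumberField L₀]
    [DecidableEq L₀] [Algebra K₀ F₀] [Algebra K₀ L₀] [Algebra F₀ L₀] [IsScalarTower K₀ F₀ L₀]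
    (x y : L₀) (hxy : (⟨0, 0, 1, 0, 0⟩ : WeierstrassCurve L₀).toAffine.Nonsingular x y)
    (ht : IsOfFinAddOrder (Affine.Point.some x y hxy))
    (hL₀ : IntermediateField.adjoin K₀ {x, y} = ⊤) (h3 : ¬ 3 ∣ finrank K₀ F₀)
    (hg : 1 < finrank K₀ F₀ → ∃ g₀ : ℂ → ℂ, Differentiable ℂ g₀ ∧ (∀ s : ℂ, 3 / 2 < s.re →
      g₀ s = (⟨0, 0, 1, 0, 0⟩ : WeierstrassCurve F₀).LSeries s) ∧ g₀ 1 ≠ 0) :
    ∃ S : Finset ℕ, (finrank K₀ F₀ = 1 → S = {3}) ∧
      ∀ ℓ : ℕ, ℓ.Prime → ℓ ∉ S → TowC ℓ F₀ (2 ∣ finrank K₀ F₀) := by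
  have hζ := IsCyclotomicExtension.zeta_spec 3 ℚ K₀
  obtain ⟨w, hw⟩ : ∃ w : K₀, w = IsCyclotomicExtension.zeta 3 ℚ K₀ := ⟨_, rfl⟩
  have hw2 : w ^ 2 + w + 1 = 0 := by
    rw [hw]
    have h1 := hζ.isRoot_cyclotomic (by norm_num)
    rw [Polynomial.cyclotomic_three] at h1
    simpa [Polynomial.IsRoot] using h1
  have hK : finrank ℚ K₀ = 2 := by
    rw [IsCyclotomicExtension.finrank (n := 3) K₀ (Polynomial.cyclotomic.irreducible_rat
      (by norm_num))]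
    rfl
  obtain ⟨e, he⟩ := MP_1a91b9_ntT3.S8.exists_equiv hK hw2
  let aF : Algebra K F₀ := ((algebraMap K₀ F₀).comp e.toRingHom).toAlgebra
  let aL : Algebra K L₀ := ((algebraMap K₀ L₀).comp e.toRingHom).toAlgebra
  have hFe : ∀ x : K, algebraMap K F₀ x = algebraMap K₀ F₀ (e x) := fun x => rfl
  have hLe : ∀ x : K, algebraMap K L₀ x = algebraMap K₀ L₀ (e x) := fun x => rfl
  have hst : IsScalarTower K F₀ L₀ := IsScalarTower.of_algebraMap_eq fun x => by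
    rw [hLe, hFe]
    exact IsScalarTower.algebraMap_apply K₀ F₀ L₀ (e x)
  have hfin : finrank K F₀ = finrank K₀ F₀ := by
    have h1 := finrank_mul_finrank ℚ K F₀
    have h2 := finrank_mul_finrank ℚ K₀ F₀
    rw [S3.finrank_K] at h1
    rw [hK] at h2
    omega
  have hgen : IntermediateField.adjoin K {x, y} = (⊤ : IntermediateField K L₀) := by
    obtain ⟨A, hA⟩ : ∃ A : IntermediateField K L₀, A = IntermediateField.adjoin K {x, y} :=
      ⟨_, rfl⟩
    let B : IntermediateField K₀ L₀ := A.toSubfield.toIntermediateField fun z => by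
      change algebraMap K₀ L₀ z ∈ A
      have h4 := A.algebraMap_mem (e.symm z)
      rwa [hLe, RingEquiv.apply_symm_apply] at h4
    have hB : B = ⊤ := by
      rw [eq_top_iff, ← hL₀, IntermediateField.adjoin_le_iff]
      intro z hz
      change z ∈ A
      rw [hA]
      exact IntermediateField.subset_adjoin K {x, y} hz
    rw [← hA, eq_top_iff]
    intro z _
    have h4 : z ∈ B := by
      rw [hB]
      exact IntermediateField.mem_top
    exact h4
  have heq : y ^ 2 + y = x ^ 3 := by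
    have h4 := hxy.1
    rw [Affine.equation_iff] at h4
    simpa using h4
  have hE : (⟨0, 0, 1, 0, 0⟩ : WeierstrassCurve L₀) = (E K).baseChange L₀ := by
    exact (S4.fermatCubic_map (algebraMap K L₀)).symm
  obtain ⟨n₀, hn₀, hT₀⟩ := isOfFinAddOrder_iff_nsmul_eq_zero.1
    (ord_transport hE x y hxy ((nons_iff x y).2 heq) ht)
  obtain ⟨S, hS1, hS2⟩ := thmG_K (F₀ := F₀) hb (L₀ := L₀) (T₀ := mkPt x y heq) hn₀.ne' hT₀ hgen
    (by rwa [hfin]) (by rwa [hfin])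
  rw [hfin] at hS1 hS2
  exact ⟨S, hS1, hS2⟩

end Pool.Agent.Lib.MP_1a91b9_ntT.TG
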