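import Pool.Agent.Lib.MP_1a91b9_ntT.TG.Unr
import Pool.Agent.Lib.MP_1a91b9_ntT.PL.Val
import Pool.Agent.Lib.MP_1a91b9_ntT.PL.Disc

/-!
# Theorem G, 7.5: the unit property in terms of the rational number `L(E/F, 1) √|D| / Ω`
-/

set_option autoImplicit false

namespace Pool.Agent.Lib.MP_1a91b9_ntT.TG

open NumberField IsDedekindDomain Module Pool.Agent.Lib.MP_1a91b9_nt
  Pool.Agent.Lib.MP_1a91b9_ntT Pool.Agent.Lib.MP_1a91b9_ntT.S4 Pool.Agent.Lib.MP_1a91b9_ntG
open Pool.Agent.Lib.MP_1a91b9_ntT.PL (Ab)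

universe u

/-- the normalised value is integral above `ℓ` -/
theorem val_le_one {ℓ : ℕ} (hℓ : ℓ.Prime) (h5 : 5 ≤ ℓ) {F : Type u} [Field F] [NumberField F]
    [Algebra K F] (hV : ValueProp 3 ℓ Om F) : ∃ L : ℂ → ℂ, Differentiable ℂ L ∧
      (∀ s : ℂ, 2 < s.re → L s = Lf (psbC 3 F) s) ∧
      ∀ W : ValuationSubring ℂ, (ℓ : ℂ)⁻¹ ∉ W →
        W.valuation (L 1 / Om ^ (finrank K F)) ≤ 1 := by
  have h30 : Ideal.span {MP_1a91b9_ntG.up 3 F} ≠ 0 := by
    rw [Ne, Ideal.zero_eq_bot, Ideal.span_singleton_eq_bot]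
    intro h
    exact (by norm_num : (3 : 𝓞 K) ≠ 0)
      ((FaithfulSMul.algebraMap_injective (𝓞 K) (𝓞 F)) (by rw [map_zero]; exact h))
  have h32 : IsCoprime (Ideal.span {MP_1a91b9_ntG.up 3 F}) (Ideal.span {(ℓ : 𝓞 F)}) := by
    rw [Ideal.isCoprime_span_singleton_iff]
    have h := (DS.three_coprime hℓ h5).map (algebraMap (𝓞 K) (𝓞 F))
    rwa [map_natCast] at h
  obtain ⟨ι, hι, J, G, hG, -, hGW, h⟩ := exists_family hℓ.ne_zero hV
    (Ideal.span {MP_1a91b9_ntG.up 3 F}) h30 up_span_ne_top le_rfl h32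
  refine ⟨fun s => ∑ i, indC (Ideal.span {MP_1a91b9_ntG.up 3 F}) (J i) * G i s, ?_, ?_, ?_⟩
  · exact Differentiable.fun_sum fun i _ => (differentiable_const _).mul (hG i)
  · intro s hs
    change ∑ i, indC (Ideal.span {MP_1a91b9_ntG.up 3 F}) (J i) * G i s = _
    rw [← h (indC _) (fun I hI => indC_of_not hI) (norm_indC_le _) (indC_ray _) s hs]
    have hfin : {v : HeightOneSpectrum (𝓞 F) |
        Ideal.span {MP_1a91b9_ntG.up 3 F} ≤ v.asIdeal}.Finite := by
      refine (Ideal.finite_factors h30).subset fun v hv => ?_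
      exact Ideal.dvd_iff_le.mpr hv
    rw [MP_1a91b9_ntG.Lf_indC _ hfin.toFinset (fun v => by rw [Set.Finite.mem_toFinset]; rfl) s hs]
    have e : ∏ v ∈ hfin.toFinset, (1 - psbC 3 F v.asIdeal *
        (Ideal.absNorm v.asIdeal : ℂ) ^ (-s)) = 1 := by
      refine Finset.prod_eq_one fun v hv => ?_
      rw [Set.Finite.mem_toFinset] at hv
      have hv' : Ideal.span {MP_1a91b9_ntG.up 3 F} ≤ v.asIdeal := hv
      rw [Ideal.span_singleton_le_iff_mem] at hv'
      rw [psbC_bad v hv', zero_mul, sub_zero]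
    rw [e, mul_one]
  · intro W hW
    have e : (∑ i, indC (Ideal.span {MP_1a91b9_ntG.up 3 F}) (J i) * G i 1) /
        Om ^ (finrank K F) =
        ∑ i, indC (Ideal.span {MP_1a91b9_ntG.up 3 F}) (J i) * (G i 1 / Om ^ (finrank K F)) := by
      rw [Finset.sum_div]
      exact Finset.sum_congr rfl fun i _ => by rw [mul_div_assoc]
    change W.valuation ((∑ i, indC (Ideal.span {MP_1a91b9_ntG.up 3 F}) (J i) * G i 1) /
        Om ^ (finrank K F)) ≤ 1
    rw [e]
    refine Valuation.map_sum_le _ fun i _ => ?_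
    rw [map_mul]
    refine mul_le_one' ?_ (hGW i W hW)
    by_cases hc : IsCoprime (J i) (Ideal.span {MP_1a91b9_ntG.up 3 F})
    · rw [indC_of hc, map_one]
    · rw [indC_of_not hc, map_zero]
      exact zero_le'

/-- `a = b` if `a, a' ≤ b` and `a a' = b²` -/
theorem eq_of_prod {Γ : Type*} [LinearOrderedCommGroupWithZero Γ] {a a' b : Γ} (hb : b ≠ 0)
    (h : a ≤ b) (h' : a' ≤ b) (hp : a * a' = b * b) : a = b := by
  refine le_antisymm h (not_lt.1 fun h1 => ?_)
  have h2 : a * a' ≤ a * b := mul_le_mul_right h' a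
  have h3 : a * b < b * b := by
    rw [mul_comm a b]
    exact mul_lt_mul_of_pos_left h1 (zero_lt_iff.2 hb)
  rw [hp] at h2
  exact absurd h3 (not_lt.2 h2)

/-- The unit property, if `L(E/F, 1) √|D| / Ω` is a rational number prime to `ℓ`. -/
theorem unit_of_q {ℓ : ℕ} (hℓ : ℓ.Prime) (h5 : 5 ≤ ℓ) (F : Type u) [Field F] [NumberField F]
    [Algebra K F] (h3 : ¬ 3 ∣ finrank K F) (hu : DS.UnrL ℓ F) (hc : NoCube3 F) (g : ℂ → ℂ)
    (hg : Differentiable ℂ g) (hgs : ∀ s : ℂ, 2 < s.re → g s = (E F).LSeries s) (q : ℚ)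
    (hq : g 1 * (Real.sqrt |(discr F : ℝ)| : ℝ) =
        (q : ℂ) * (∏ v : InfinitePlace F, Per.perAt (E F) v : ℝ))
    (hn : IsCoprime q.num (ℓ : ℤ)) (hd : q.den.Coprime ℓ) :
    MP_1a91b9_ntG.UnitProp 3 ℓ Om F := by
  have h3ℓ : Nat.Coprime 3 ℓ := (Nat.coprime_primes Nat.prime_three hℓ).2 (by omega)
  have hV := valueProp_unr hℓ h5 F h3 fun q hq => not_ram_of_unr hu hℓ.ne_zero q hq
  obtain ⟨L, hL, hL1, hLW⟩ := val_le_one hℓ h5 hV
  refine ⟨L, hL, hL1, fun W hW => ?_⟩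
  have hA : Ab ℓ W := hW
  have hO : W.valuation Om ≠ 0 := (map_ne_zero _).2 Om_ne_zero
  have hb : W.valuation Om ^ finrank K F ≠ 0 := pow_ne_zero _ hO
  have e1 : W.valuation (L 1) ≤ W.valuation Om ^ finrank K F := by
    have h := hLW W hW
    rw [map_div₀, map_pow] at h
    exact (div_le_one₀ (zero_lt_iff.2 hb)).1 h
  have e2 : W.valuation ((starRingEnd ℂ) (L 1)) ≤ W.valuation Om ^ finrank K F := by
    have h := hLW _ hA.comap
    rw [ValuationSubring.valuation_le_one_iff, ValuationSubring.mem_comap,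
      ← ValuationSubring.valuation_le_one_iff, map_div₀ (starRingEnd ℂ), map_pow, map_div₀,
      map_pow, Per.val_conj_Om] at h
    exact (div_le_one₀ (zero_lt_iff.2 hb)).1 h
  have hgL : g = fun s => (starRingEnd ℂ) (L ((starRingEnd ℂ) s)) * L s := by
    refine entire_eq hg ((differentiable_conj_conj hL).mul hL) fun s hs => ?_
    change _ = (starRingEnd ℂ) (L ((starRingEnd ℂ) s)) * L s
    rw [hgs s hs, LSeries_E hc s hs, hL1 s hs, hL1 _ (by rw [Complex.conj_re]; exact hs)]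
    congr 1
    exact S4.Lf_conj s
  have hg1 : g 1 = (starRingEnd ℂ) (L 1) * L 1 := by
    rw [hgL]
    change (starRingEnd ℂ) (L ((starRingEnd ℂ) 1)) * L 1 = _
    rw [map_one]
  have hdisc := PL.coprime_discr hℓ F F hu
  have hfr : finrank ℚ F = finrank K F + finrank K F := by
    rw [← Module.finrank_mul_finrank ℚ K F, u4_finrank]
    ring
  have h4 := congrArg W.valuation hq
  rw [map_mul, map_mul, hA.sqrt_int hdisc, mul_one, hA.rat hn hd, one_mul, hA.prod_E h3ℓ, hg1,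
    map_mul, hfr, pow_add, mul_comm (W.valuation ((starRingEnd ℂ) (L 1)))] at h4
  have h5 := eq_of_prod hb e1 e2 h4
  rw [map_div₀, map_pow, h5]
  exact div_self hb

end Pool.Agent.Lib.MP_1a91b9_ntT.TG
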